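import Mathlib

/-! Residue markers: an explicit modulus `M` and two sets of residues. -/

set_option autoImplicit false

namespace Pool.Agent.SidonThree

/-- The modulus. -/
def mM : ℕ := 2863

/-- residues of type X -/
def LX : List ℕ := [0,1,66,119,136,279,354,458,538,584,715,734,823,879,1070,1074,1147,1548,1603,
  1626,1650,1736,1749,1906,1998,2046,2173,2180,2379,2388,2547,2573,2591,2813,2828]

/-- residues of type T -/
def LT : List ℕ := [29,181,364,496,587,647,658,701,740,742,845,1086,1339,1436,1874,1946,2067,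
  2321,2833]

/-- list of all sums modulo `mM`. -/
def sums (a b : List ℕ) : List ℕ := a.flatMap (fun x => b.map (fun y => (x + y) % mM))

/-- bitset of a list. -/
def bs (l : List ℕ) : ℕ := l.foldr (fun i acc => acc ||| (1 <<< i)) 0

theorem testBit_bs (l : List ℕ) (i : ℕ) : (bs l).testBit i = true ↔ i ∈ l := by
  induction l with
  | nil => simp [bs]
  | cons a t ih =>
    have : bs (a :: t) = bs t ||| (1 <<< a) := rfl
    rw [this, Nat.testBit_or, Bool.or_eq_true, ih, Nat.testBit_shiftLeft]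
    simp only [List.mem_cons, Bool.and_eq_true, decide_eq_true_eq]
    constructor
    · rintro (h | ⟨h1, h2⟩)
      · exact Or.inr h
      · left
        have := Nat.testBit_one_eq_true_iff_self_eq_zero.1 h2
        omega
    · rintro (h | h)
      · right
        subst h
        simp
      · exact Or.inl h

theorem mem_sums {a b : List ℕ} {s : ℕ} : s ∈ sums a b ↔ ∃ x ∈ a, ∃ y ∈ b, (x + y) % mM = s := by
  simp [sums, List.mem_flatMap, List.mem_map]

theorem disj_of_land {l1 l2 : List ℕ} (h : bs l1 &&& bs l2 = 0) {s : ℕ} (h1 : s ∈ l1)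
    (h2 : s ∈ l2) : False := by
  have h3 := (testBit_bs l1 s).2 h1
  have h4 := (testBit_bs l2 s).2 h2
  have h5 : (bs l1 &&& bs l2).testBit s = true := by
    rw [Nat.testBit_and, h3, h4]; rfl
  rw [h] at h5
  simp at h5

theorem chk1 : bs (sums LX LX) &&& bs (sums LX LT) = 0 := by decide +kernel
theorem chk2 : bs (sums LX LX) &&& bs (sums LT LT) = 0 := by decide +kernel
theorem chk3 : bs (sums LX LT) &&& bs (sums LT LT) = 0 := by decide +kernel
theorem chk4 : bs (sums (sums LX LX) LT) = 2 ^ mM - 1 := by decide +kernel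

theorem lt_of_mem_LX : ∀ a ∈ LX, a < mM := by decide
theorem lt_of_mem_LT : ∀ a ∈ LT, a < mM := by decide

theorem cover (g : ℕ) (hg : g < mM) : ∃ a ∈ LX, ∃ b ∈ LX, ∃ c ∈ LT, (a + b + c) % mM = g := by
  have h : g ∈ sums (sums LX LX) LT := by
    rw [← testBit_bs, chk4, Nat.testBit_two_pow_sub_one]
    simpa using hg
  obtain ⟨x, hx, c, hc, hxc⟩ := mem_sums.1 h
  obtain ⟨a, ha, b, hb, hab⟩ := mem_sums.1 hx
  refine ⟨a, ha, b, hb, c, hc, ?_⟩
  rw [← hxc, ← hab]
  simp [Nat.add_mod]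

theorem sepXX_XT {a b c d : ℕ} (ha : a ∈ LX) (hb : b ∈ LX) (hc : c ∈ LX) (hd : d ∈ LT) :
    (a + b) % mM ≠ (c + d) % mM := fun h =>
  disj_of_land chk1 (mem_sums.2 ⟨a, ha, b, hb, rfl⟩) (mem_sums.2 ⟨c, hc, d, hd, h.symm⟩)

theorem sepXX_TT {a b c d : ℕ} (ha : a ∈ LX) (hb : b ∈ LX) (hc : c ∈ LT) (hd : d ∈ LT) :
    (a + b) % mM ≠ (c + d) % mM := fun h =>
  disj_of_land chk2 (mem_sums.2 ⟨a, ha, b, hb, rfl⟩) (mem_sums.2 ⟨c, hc, d, hd, h.symm⟩)

theorem sepXT_TT {a b c d : ℕ} (ha : a ∈ LX) (hb : b ∈ LT) (hc : c ∈ LT) (hd : d ∈ LT) :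
    (a + b) % mM ≠ (c + d) % mM := fun h =>
  disj_of_land chk3 (mem_sums.2 ⟨a, ha, b, hb, rfl⟩) (mem_sums.2 ⟨c, hc, d, hd, h.symm⟩)

end Pool.Agent.SidonThree
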