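import Mathlib

/-! The bound for the sum over all conflict hyperedges. -/

set_option autoImplicit false

open Finset
open scoped ENNReal

namespace Pool.Agent.SidonThree

section

variable (W : ℕ → ℝ≥0∞) (U : Finset ℕ)

open Classical in
/-- modified weight -/
noncomputable def vv (n : ℕ) : ℝ≥0∞ := W n + if n ∈ U then 1 else 0

open Classical in
theorem prod_sdiff_le (S : Finset ℕ) : ∏ n ∈ S \ U, W n ≤ ∏ n ∈ S, vv W U n := by
  have : ∏ n ∈ S \ U, W n = ∏ n ∈ S, (if n ∈ U then 1 else W n) := by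
    rw [← Finset.filter_notMem_eq_sdiff, Finset.prod_filter]
    apply Finset.prod_congr rfl
    intro n _
    by_cases h : n ∈ U <;> simp [h]
  rw [this]
  apply Finset.prod_le_prod' 
  intro n _
  unfold vv
  by_cases h : n ∈ U <;> simp [h]

open Classical in
theorem term_le (r t d : ℕ) (hd : 0 < d) (ρ : ℝ≥0∞) (hr : W r ≤ ρ) :
    (if r ∉ U then ∏ n ∈ ({r, t, t + d} : Finset ℕ) \ U, W n else 0) ≤
      ρ * (vv W U t * vv W U (t + d) + (if t = r then vv W U (r + d) else 0) +
        (if t + d = r then vv W U t else 0)) := by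
  by_cases hrU : r ∉ U
  · rw [if_pos hrU]
    by_cases h1 : t = r
    · subst h1
      have h2 : ({t, t, t + d} : Finset ℕ) \ U = insert t (({t + d} : Finset ℕ) \ U) := by
        rw [← Finset.insert_sdiff_of_notMem _ hrU]
        simp
      rw [h2, Finset.prod_insert]
      · have h3 : ∏ n ∈ ({t + d} : Finset ℕ) \ U, W n ≤ vv W U (t + d) := by
          have := prod_sdiff_le W U {t + d}
          simpa using this
        calc W t * ∏ n ∈ ({t + d} : Finset ℕ) \ U, W n ≤ ρ * vv W U (t + d) := by gcongr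
          _ ≤ _ := by
            gcongr
            simp only [if_true]
            refine le_trans ?_ le_self_add
            exact le_add_self
      · simp only [Finset.mem_sdiff, Finset.mem_singleton, not_and]
        omega
    · by_cases h2 : t + d = r
      · have h3 : ({r, t, t + d} : Finset ℕ) \ U = insert r (({t} : Finset ℕ) \ U) := by
          rw [h2, ← Finset.insert_sdiff_of_notMem _ hrU]
          congr 1
          ext x; simp only [Finset.mem_insert, Finset.mem_singleton]; tauto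
        rw [h3, Finset.prod_insert]
        · have h4 : ∏ n ∈ ({t} : Finset ℕ) \ U, W n ≤ vv W U t := by
            have := prod_sdiff_le W U {t}
            simpa using this
          calc W r * ∏ n ∈ ({t} : Finset ℕ) \ U, W n ≤ ρ * vv W U t := by gcongr
            _ ≤ _ := by
              gcongr
              rw [if_pos h2]
              exact le_add_self
        · simp only [Finset.mem_sdiff, Finset.mem_singleton, not_and]
          omega
      · have h3 : ({r, t, t + d} : Finset ℕ) \ U = insert r (({t, t + d} : Finset ℕ) \ U) := by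
          rw [← Finset.insert_sdiff_of_notMem _ hrU]
        rw [h3, Finset.prod_insert]
        · have h4 : ∏ n ∈ ({t, t + d} : Finset ℕ) \ U, W n ≤ vv W U t * vv W U (t + d) := by
            have := prod_sdiff_le W U {t, t + d}
            rwa [Finset.prod_pair (by omega)] at this
          calc W r * ∏ n ∈ ({t, t + d} : Finset ℕ) \ U, W n
              ≤ ρ * (vv W U t * vv W U (t + d)) := by gcongr
            _ ≤ _ := by
              gcongr
              rw [add_assoc]
              exact le_self_add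
        · simp only [Finset.mem_sdiff, Finset.mem_insert, Finset.mem_singleton, not_and]
          omega
  · rw [if_neg hrU]
    exact zero_le

open Classical in
theorem tsum_t_le (r d : ℕ) (hd : 0 < d) (ρ : ℝ≥0∞) (hr : W r ≤ ρ) :
    ∑' t : ℕ, (if r ∉ U then ∏ n ∈ ({r, t, t + d} : Finset ℕ) \ U, W n else 0) ≤
      ρ * ((∑' t : ℕ, vv W U t * vv W U (t + d)) + vv W U (r + d) +
        (if d ≤ r then vv W U (r - d) else 0)) := by
  calc _ ≤ ∑' t : ℕ, ρ * (vv W U t * vv W U (t + d) + (if t = r then vv W U (r + d) else 0) +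
        (if t + d = r then vv W U t else 0)) :=
        ENNReal.tsum_le_tsum (fun t => term_le W U r t d hd ρ hr)
    _ ≤ ∑' t : ℕ, ρ * (vv W U t * vv W U (t + d) + (if t = r then vv W U (r + d) else 0) +
        (if t = r - d then (if d ≤ r then vv W U (r - d) else 0) else 0)) := by
        apply ENNReal.tsum_le_tsum
        intro t
        gcongr
        by_cases h : t + d = r
        · have h1 : t = r - d := by omega
          have h2 : d ≤ r := by omega
          rw [if_pos h, if_pos h1, if_pos h2, h1]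
        · rw [if_neg h]; exact zero_le
    _ = _ := by
        rw [ENNReal.tsum_mul_left, ENNReal.tsum_add, ENNReal.tsum_add]
        simp only [tsum_ite_eq]

/-- Sidon property of a set. -/
def IsSid (X : Set ℕ) : Prop := ∀ a ∈ X, ∀ b ∈ X, ∀ c ∈ X, ∀ d ∈ X,
  a + b = c + d → (a = c ∧ b = d) ∨ (a = d ∧ b = c)

open Classical in
/-- the index set of triples `(x1, x2, x')`. -/
noncomputable def PP (XJ XL : Finset ℕ) : Finset (ℕ × ℕ × ℕ) :=
  (XJ ×ˢ (XJ ×ˢ XL)).filter (fun p => p.2.2 < p.1)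

theorem H_sum_le (u N : ℕ) (hU : U.card ≤ u) (S GS : ℝ≥0∞)
    (hS : ∀ F : Finset ℕ, F.card ≤ N * N → ∑ n ∈ F, vv W U n ≤ S)
    (D : Finset ℕ) (hD : D.card ≤ N * N)
    (hG : ∑ d ∈ D, ∑' t : ℕ, W t * W (t + d) ≤ GS) :
    ∑ d ∈ D, ∑' t : ℕ, vv W U t * vv W U (t + d) ≤ GS + 2 * u * S := by
  classical
  have hu : ((U.card : ℕ) : ℝ≥0∞) ≤ u := by exact_mod_cast hU
  -- pointwise expansion
  have h1 : ∀ d t : ℕ, vv W U t * vv W U (t + d) ≤ W t * W (t + d) +
      (if t ∈ U then vv W U (t + d) else 0) + (if t + d ∈ U then vv W U t else 0) := by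
    intro d t
    have e1 : vv W U t * vv W U (t + d) =
        W t * vv W U (t + d) + (if t ∈ U then 1 else 0) * vv W U (t + d) := by
      conv_lhs => rw [vv]
      rw [add_mul]
    have e2 : W t * vv W U (t + d) = W t * W (t + d) + W t * (if t + d ∈ U then 1 else 0) := by
      conv_lhs => rw [vv]
      rw [mul_add]
    rw [e1, e2]
    have e3 : (if t ∈ U then (1 : ℝ≥0∞) else 0) * vv W U (t + d) =
        (if t ∈ U then vv W U (t + d) else 0) := by split_ifs <;> simp
    have e4 : W t * (if t + d ∈ U then (1 : ℝ≥0∞) else 0) ≤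
        (if t + d ∈ U then vv W U t else 0) := by
      split_ifs
      · rw [mul_one]; exact le_self_add
      · simp
    rw [e3]
    calc _ ≤ W t * W (t + d) + (if t + d ∈ U then vv W U t else 0) +
        (if t ∈ U then vv W U (t + d) else 0) := by gcongr
      _ = _ := by ring
  have h2 : ∑ d ∈ D, ∑' t : ℕ, (if t ∈ U then vv W U (t + d) else 0) ≤ u * S := by
    have : ∀ d : ℕ, ∑' t : ℕ, (if t ∈ U then vv W U (t + d) else 0)
        = ∑ t ∈ U, vv W U (t + d) := by
      intro d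
      rw [tsum_eq_sum (s := U)]
      · apply Finset.sum_congr rfl
        intro t ht
        rw [if_pos ht]
      · intro t ht
        rw [if_neg ht]
    simp_rw [this]
    rw [Finset.sum_comm]
    calc ∑ t ∈ U, ∑ d ∈ D, vv W U (t + d) ≤ ∑ t ∈ U, S := by
          apply Finset.sum_le_sum
          intro t _
          have h3 : ∑ d ∈ D, vv W U (t + d) = ∑ n ∈ D.image (fun d => t + d), vv W U n := by
            rw [Finset.sum_image]
            intro a _ b _ hab
            simpa using hab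
          rw [h3]
          exact hS _ (le_trans Finset.card_image_le hD)
      _ = U.card * S := by rw [Finset.sum_const, nsmul_eq_mul]
      _ ≤ u * S := by gcongr
  have h3 : ∑ d ∈ D, ∑' t : ℕ, (if t + d ∈ U then vv W U t else 0) ≤ u * S := by
    have : ∀ d : ℕ, ∑' t : ℕ, (if t + d ∈ U then vv W U t else 0)
        ≤ ∑ x ∈ U, (if d ≤ x then vv W U (x - d) else 0) := by
      intro d
      calc ∑' t : ℕ, (if t + d ∈ U then vv W U t else 0)
          ≤ ∑' t : ℕ, ∑ x ∈ U, (if t = x - d then (if d ≤ x then vv W U (x - d) else 0) else 0)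
          := by
            apply ENNReal.tsum_le_tsum
            intro t
            by_cases h : t + d ∈ U
            · rw [if_pos h]
              refine le_trans ?_ (Finset.single_le_sum (fun _ _ => zero_le) h)
              rw [if_pos (by omega), if_pos (by omega)]
              simp
            · rw [if_neg h]; exact zero_le
        _ = ∑ x ∈ U, ∑' t : ℕ, (if t = x - d then (if d ≤ x then vv W U (x - d) else 0) else 0)
          := by
            rw [Summable.tsum_finsetSum]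
            intro i _
            exact ENNReal.summable
        _ = _ := by simp only [tsum_ite_eq]
    calc _ ≤ ∑ d ∈ D, ∑ x ∈ U, (if d ≤ x then vv W U (x - d) else 0) :=
          Finset.sum_le_sum (fun d _ => this d)
      _ = ∑ x ∈ U, ∑ d ∈ D, (if d ≤ x then vv W U (x - d) else 0) := Finset.sum_comm
      _ ≤ ∑ x ∈ U, S := by
          apply Finset.sum_le_sum
          intro x _
          rw [← Finset.sum_filter]
          have h3 : ∑ d ∈ D.filter (fun d => d ≤ x), vv W U (x - d)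
              = ∑ n ∈ (D.filter (fun d => d ≤ x)).image (fun d => x - d), vv W U n := by
            rw [Finset.sum_image]
            intro a ha b hb hab
            simp only [Finset.coe_filter, Set.mem_ofPred_eq] at ha hb
            simp only at hab
            omega
          rw [h3]
          exact hS _ (le_trans Finset.card_image_le
            (le_trans (Finset.card_filter_le _ _) hD))
      _ = U.card * S := by rw [Finset.sum_const, nsmul_eq_mul]
      _ ≤ u * S := by gcongr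
  calc ∑ d ∈ D, ∑' t : ℕ, vv W U t * vv W U (t + d)
      ≤ ∑ d ∈ D, ∑' t : ℕ, (W t * W (t + d) +
      (if t ∈ U then vv W U (t + d) else 0) + (if t + d ∈ U then vv W U t else 0)) :=
        Finset.sum_le_sum (fun d _ => ENNReal.tsum_le_tsum (fun t => h1 d t))
    _ = ∑ d ∈ D, ∑' t : ℕ, W t * W (t + d) +
        ∑ d ∈ D, ∑' t : ℕ, (if t ∈ U then vv W U (t + d) else 0) +
        ∑ d ∈ D, ∑' t : ℕ, (if t + d ∈ U then vv W U t else 0) := by
        simp only [ENNReal.tsum_add, Finset.sum_add_distrib]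
    _ ≤ GS + u * S + u * S := by gcongr
    _ = _ := by ring


theorem C1 (X : Set ℕ) (hX : IsSid X) (XJ XL : Finset ℕ) (hJ : ∀ x ∈ XJ, x ∈ X)
    (hL : ∀ x ∈ XL, x ∈ X) (N : ℕ) (hNJ : XJ.card ≤ N) (hNL : XL.card ≤ N)
    (H : ℕ → ℝ≥0∞) (B : ℝ≥0∞)
    (hB : ∀ D : Finset ℕ, 0 ∉ D → D.card ≤ N * N → ∑ d ∈ D, H d ≤ B) :
    ∑ p ∈ PP XJ XL, H (p.1 - p.2.2) ≤ N * B := by
  classical
  have hQ : ((XJ ×ˢ XL).filter (fun q => q.2 < q.1)).card ≤ N * N := by
    refine le_trans (Finset.card_filter_le _ _) ?_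
    rw [Finset.card_product]
    exact Nat.mul_le_mul hNJ hNL
  have h1 : ∑ q ∈ (XJ ×ˢ XL).filter (fun q => q.2 < q.1), H (q.1 - q.2) ≤ B := by
    have : ∑ q ∈ (XJ ×ˢ XL).filter (fun q => q.2 < q.1), H (q.1 - q.2) =
        ∑ d ∈ ((XJ ×ˢ XL).filter (fun q => q.2 < q.1)).image (fun q => q.1 - q.2), H d := by
      rw [Finset.sum_image]
      intro a ha b hb hab
      simp only [Finset.coe_filter, Set.mem_ofPred_eq, Finset.mem_product] at ha hb
      simp only at hab
      have h2 := hX a.1 (hJ _ ha.1.1) b.2 (hL _ hb.1.2) b.1 (hJ _ hb.1.1) a.2 (hL _ ha.1.2)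
        (by omega)
      rcases h2 with ⟨h3, h4⟩ | ⟨h3, h4⟩
      · exact Prod.ext h3 h4.symm
      · omega
    rw [this]
    apply hB
    · simp only [Finset.mem_image, Finset.mem_filter, not_exists, not_and]
      intro q hq
      omega
    · exact le_trans Finset.card_image_le hQ
  calc ∑ p ∈ PP XJ XL, H (p.1 - p.2.2)
      = ∑ p ∈ XJ ×ˢ (XJ ×ˢ XL), if p.2.2 < p.1 then H (p.1 - p.2.2) else 0 := by
        rw [PP, Finset.sum_filter]
    _ = ∑ x1 ∈ XJ, ∑ x2 ∈ XJ, ∑ x' ∈ XL, if x' < x1 then H (x1 - x') else 0 := by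
        rw [Finset.sum_product]
        apply Finset.sum_congr rfl
        intro x1 _
        rw [Finset.sum_product]
    _ = ∑ x2 ∈ XJ, ∑ x1 ∈ XJ, ∑ x' ∈ XL, if x' < x1 then H (x1 - x') else 0 := by
        rw [Finset.sum_comm]
    _ = ∑ x2 ∈ XJ, ∑ q ∈ (XJ ×ˢ XL).filter (fun q => q.2 < q.1), H (q.1 - q.2) := by
        apply Finset.sum_congr rfl
        intro x2 _
        rw [Finset.sum_filter, Finset.sum_product]
    _ ≤ ∑ x2 ∈ XJ, B := Finset.sum_le_sum (fun _ _ => h1)
    _ = XJ.card * B := by rw [Finset.sum_const, nsmul_eq_mul]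
    _ ≤ N * B := by gcongr

theorem C2 (X : Set ℕ) (hX : IsSid X) (XJ XL : Finset ℕ) (hJ : ∀ x ∈ XJ, x ∈ X)
    (hL : ∀ x ∈ XL, x ∈ X) (N m : ℕ) (hNJ : XJ.card ≤ N) (hNL : XL.card ≤ N)
    (hm : ∀ x1 ∈ XJ, ∀ x2 ∈ XJ, x1 + x2 ≤ m)
    (v : ℕ → ℝ≥0∞) (S : ℝ≥0∞)
    (hS : ∀ D : Finset ℕ, D.card ≤ N * N → ∑ d ∈ D, v d ≤ S) :
    ∑ p ∈ PP XJ XL, v (m - p.1 - p.2.1 + (p.1 - p.2.2)) ≤ N * (2 * S) := by
  classical
  have hQ : ((XJ ×ˢ XL).filter (fun q => q.1 + q.2 ≤ m)).card ≤ N * N := by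
    refine le_trans (Finset.card_filter_le _ _) ?_
    rw [Finset.card_product]
    exact Nat.mul_le_mul hNJ hNL
  have h1 : ∑ q ∈ (XJ ×ˢ XL).filter (fun q => q.1 + q.2 ≤ m), v (m - (q.1 + q.2)) ≤ 2 * S := by
    set Q := (XJ ×ˢ XL).filter (fun q => q.1 + q.2 ≤ m) with hQdef
    have h2 : ∑ q ∈ Q, v (m - (q.1 + q.2)) =
        ∑ s ∈ Q.image (fun q => m - (q.1 + q.2)),
          (Q.filter (fun q => m - (q.1 + q.2) = s)).card • v s :=
      Finset.sum_comp v (fun q : ℕ × ℕ => m - (q.1 + q.2))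
    rw [h2]
    calc _ ≤ ∑ s ∈ Q.image (fun q => m - (q.1 + q.2)), 2 * v s := by
          apply Finset.sum_le_sum
          intro s _
          rw [nsmul_eq_mul]
          gcongr
          have : (Q.filter (fun q => m - (q.1 + q.2) = s)).card ≤ 2 := by
            rcases (Q.filter (fun q => m - (q.1 + q.2) = s)).eq_empty_or_nonempty with he | ⟨q, hq⟩
            · rw [he]; simp
            · have hsub : Q.filter (fun q => m - (q.1 + q.2) = s) ⊆ {q, (q.2, q.1)} := by
                intro q' hq'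
                simp only [Finset.mem_filter, hQdef, Finset.mem_product] at hq hq'
                have h3 := hX q'.1 (hJ _ hq'.1.1.1) q'.2 (hL _ hq'.1.1.2) q.1 (hJ _ hq.1.1.1)
                  q.2 (hL _ hq.1.1.2) (by omega)
                simp only [Finset.mem_insert, Finset.mem_singleton]
                rcases h3 with ⟨h4, h5⟩ | ⟨h4, h5⟩
                · left; exact Prod.ext h4 h5
                · right; exact Prod.ext h4 h5
              exact le_trans (Finset.card_le_card hsub) Finset.card_le_two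
          exact_mod_cast this
      _ = 2 * ∑ s ∈ Q.image (fun q => m - (q.1 + q.2)), v s := by rw [Finset.mul_sum]
      _ ≤ 2 * S := by
          gcongr
          exact hS _ (le_trans Finset.card_image_le hQ)
  calc ∑ p ∈ PP XJ XL, v (m - p.1 - p.2.1 + (p.1 - p.2.2))
      = ∑ p ∈ XJ ×ˢ (XJ ×ˢ XL), if p.2.2 < p.1 then v (m - p.1 - p.2.1 + (p.1 - p.2.2)) else 0 := by
        rw [PP, Finset.sum_filter]
    _ ≤ ∑ p ∈ XJ ×ˢ (XJ ×ˢ XL), if p.2.1 + p.2.2 ≤ m then v (m - (p.2.1 + p.2.2)) else 0 := by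
        apply Finset.sum_le_sum
        intro p hp
        simp only [Finset.mem_product] at hp
        have := hm p.1 hp.1 p.2.1 hp.2.1
        by_cases h : p.2.2 < p.1
        · rw [if_pos h, if_pos (by omega)]
          apply le_of_eq
          congr 1
          omega
        · rw [if_neg h]; exact zero_le
    _ = ∑ x1 ∈ XJ, ∑ q ∈ (XJ ×ˢ XL).filter (fun q => q.1 + q.2 ≤ m), v (m - (q.1 + q.2)) := by
        rw [Finset.sum_product]
        apply Finset.sum_congr rfl
        intro x1 _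
        rw [Finset.sum_filter]
    _ ≤ ∑ x1 ∈ XJ, 2 * S := Finset.sum_le_sum (fun _ _ => h1)
    _ = XJ.card * (2 * S) := by rw [Finset.sum_const, nsmul_eq_mul]
    _ ≤ N * (2 * S) := by gcongr

theorem C3 (X : Set ℕ) (hX : IsSid X) (XJ XL : Finset ℕ) (hJ : ∀ x ∈ XJ, x ∈ X)
    (hL : ∀ x ∈ XL, x ∈ X) (N m : ℕ) (hNJ : XJ.card ≤ N) (hNL : XL.card ≤ N)
    (hm : ∀ x1 ∈ XJ, ∀ x2 ∈ XJ, x1 + x2 ≤ m)
    (v : ℕ → ℝ≥0∞) (S : ℝ≥0∞)
    (hS : ∀ D : Finset ℕ, D.card ≤ N * N → ∑ d ∈ D, v d ≤ S) :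
    ∑ p ∈ PP XJ XL, (if p.1 - p.2.2 ≤ m - p.1 - p.2.1 then
      v (m - p.1 - p.2.1 - (p.1 - p.2.2)) else 0) ≤ N * (2 * S) := by
  classical
  -- for fixed x1, pairs with x' ≠ x2
  have h1 : ∀ x1 ∈ XJ, ∑ q ∈ (XJ ×ˢ XL).filter (fun q => q.2 ≠ q.1 ∧ q.2 < x1 ∧
      x1 - q.2 ≤ m - x1 - q.1), v (m - x1 - q.1 - (x1 - q.2)) ≤ S := by
    intro x1 hx1
    set Q := (XJ ×ˢ XL).filter (fun q => q.2 ≠ q.1 ∧ q.2 < x1 ∧ x1 - q.2 ≤ m - x1 - q.1)
      with hQdef
    have hQ : Q.card ≤ N * N := by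
      refine le_trans (Finset.card_filter_le _ _) ?_
      rw [Finset.card_product]
      exact Nat.mul_le_mul hNJ hNL
    have h2 : ∑ q ∈ Q, v (m - x1 - q.1 - (x1 - q.2)) =
        ∑ s ∈ Q.image (fun q => m - x1 - q.1 - (x1 - q.2)), v s := by
      rw [Finset.sum_image]
      intro a ha b hb hab
      simp only [hQdef, Finset.coe_filter, Set.mem_ofPred_eq, Finset.mem_product] at ha hb
      simp only at hab
      have e1 := hm x1 hx1 a.1 ha.1.1
      have e2 := hm x1 hx1 b.1 hb.1.1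
      have h3 := hX a.2 (hL _ ha.1.2) b.1 (hJ _ hb.1.1) b.2 (hL _ hb.1.2) a.1 (hJ _ ha.1.1)
        (by omega)
      rcases h3 with ⟨h4, h5⟩ | ⟨h4, h5⟩
      · exact Prod.ext h5.symm h4
      · exact absurd h4 ha.2.1
    rw [h2]
    exact hS _ (le_trans Finset.card_image_le hQ)
  have h2 : ∑ x1 ∈ XJ, v (m - x1 - x1) ≤ S := by
    have h3 : ∑ x1 ∈ XJ, v (m - x1 - x1) = ∑ s ∈ XJ.image (fun x => m - x - x), v s := by
      rw [Finset.sum_image]
      intro a ha b hb hab
      simp only at hab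
      have e1 := hm a ha a ha
      have e2 := hm b hb b hb
      omega
    rw [h3]
    apply hS
    refine le_trans Finset.card_image_le (le_trans hNJ ?_)
    exact Nat.le_mul_self N
  calc ∑ p ∈ PP XJ XL, (if p.1 - p.2.2 ≤ m - p.1 - p.2.1 then
      v (m - p.1 - p.2.1 - (p.1 - p.2.2)) else 0)
      = ∑ p ∈ XJ ×ˢ (XJ ×ˢ XL), if p.2.2 < p.1 then (if p.1 - p.2.2 ≤ m - p.1 - p.2.1 then
      v (m - p.1 - p.2.1 - (p.1 - p.2.2)) else 0) else 0 := by
        rw [PP, Finset.sum_filter]
    _ ≤ ∑ p ∈ XJ ×ˢ (XJ ×ˢ XL), ((if p.2.2 ≠ p.2.1 ∧ p.2.2 < p.1 ∧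
        p.1 - p.2.2 ≤ m - p.1 - p.2.1 then v (m - p.1 - p.2.1 - (p.1 - p.2.2)) else 0) +
        (if p.2.2 = p.2.1 then v (m - p.1 - p.1) else 0)) := by
        apply Finset.sum_le_sum
        intro p hp
        simp only [Finset.mem_product] at hp
        have := hm p.1 hp.1 p.2.1 hp.2.1
        by_cases h : p.2.2 < p.1
        · rw [if_pos h]
          by_cases h' : p.1 - p.2.2 ≤ m - p.1 - p.2.1
          · rw [if_pos h']
            by_cases h'' : p.2.2 = p.2.1
            · rw [if_pos h'']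
              refine le_trans (le_of_eq ?_) le_add_self
              congr 1
              omega
            · rw [if_pos ⟨h'', h, h'⟩]
              exact le_self_add
          · rw [if_neg h']; exact zero_le
        · rw [if_neg h]; exact zero_le
    _ = ∑ x1 ∈ XJ, (∑ q ∈ (XJ ×ˢ XL).filter (fun q => q.2 ≠ q.1 ∧ q.2 < x1 ∧
      x1 - q.2 ≤ m - x1 - q.1), v (m - x1 - q.1 - (x1 - q.2)) +
        ∑ q ∈ (XJ ×ˢ XL), if q.2 = q.1 then v (m - x1 - x1) else 0) := by
        rw [Finset.sum_product]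
        apply Finset.sum_congr rfl
        intro x1 _
        rw [Finset.sum_filter, Finset.sum_add_distrib]
    _ ≤ ∑ x1 ∈ XJ, (S + N * v (m - x1 - x1)) := by
        apply Finset.sum_le_sum
        intro x1 hx1
        gcongr
        · exact h1 x1 hx1
        · rw [Finset.sum_product]
          calc ∑ x2 ∈ XJ, ∑ x' ∈ XL, (if x' = x2 then v (m - x1 - x1) else 0)
              ≤ ∑ x2 ∈ XJ, v (m - x1 - x1) := by
                apply Finset.sum_le_sum
                intro x2 _
                rw [Finset.sum_ite_eq']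
                split_ifs
                · exact le_rfl
                · exact zero_le
            _ = XJ.card * v (m - x1 - x1) := by rw [Finset.sum_const, nsmul_eq_mul]
            _ ≤ N * v (m - x1 - x1) := by gcongr
    _ = XJ.card * S + N * ∑ x1 ∈ XJ, v (m - x1 - x1) := by
        rw [Finset.sum_add_distrib, Finset.sum_const, nsmul_eq_mul, Finset.mul_sum]
    _ ≤ N * S + N * S := by gcongr
    _ = N * (2 * S) := by ring

theorem sigma_le (X : Set ℕ) (hX : IsSid X) (XJ XL : Finset ℕ) (hJ : ∀ x ∈ XJ, x ∈ X)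
    (hL : ∀ x ∈ XL, x ∈ X) (u N m : ℕ) (hNJ : XJ.card ≤ N) (hNL : XL.card ≤ N)
    (hm : ∀ x1 ∈ XJ, ∀ x2 ∈ XJ, x1 + x2 ≤ m) (ρ S GS : ℝ≥0∞)
    (hρ : ∀ x1 ∈ XJ, ∀ x2 ∈ XJ, W (m - x1 - x2) ≤ ρ)
    (hU : U.card ≤ u)
    (hS : ∀ F : Finset ℕ, F.card ≤ N * N → ∑ n ∈ F, vv W U n ≤ S)
    (hG : ∀ D : Finset ℕ, 0 ∉ D → D.card ≤ N * N →
      ∑ d ∈ D, ∑' t : ℕ, W t * W (t + d) ≤ GS) :
    ∑' i : (PP XJ XL) × ℕ, (if (m - i.1.1.1 - i.1.1.2.1) ∉ U then
      ∏ n ∈ ({m - i.1.1.1 - i.1.1.2.1, i.2, i.2 + (i.1.1.1 - i.1.1.2.2)} : Finset ℕ) \ U, W n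
      else 0) ≤ ρ * (N * (GS + (2 * u + 4) * S)) := by
  classical
  rw [ENNReal.tsum_prod']
  calc _ ≤ ∑' p : (PP XJ XL), ρ * ((∑' t : ℕ, vv W U t * vv W U (t + (p.1.1 - p.1.2.2))) +
        vv W U (m - p.1.1 - p.1.2.1 + (p.1.1 - p.1.2.2)) +
        (if p.1.1 - p.1.2.2 ≤ m - p.1.1 - p.1.2.1 then
          vv W U (m - p.1.1 - p.1.2.1 - (p.1.1 - p.1.2.2)) else 0)) := by
        apply ENNReal.tsum_le_tsum
        intro p
        have hp := p.2
        simp only [PP, Finset.mem_filter, Finset.mem_product] at hp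
        exact tsum_t_le W U (m - p.1.1 - p.1.2.1) (p.1.1 - p.1.2.2) (by omega) ρ
          (hρ _ hp.1.1 _ hp.1.2.1)
    _ = ∑ p ∈ PP XJ XL, ρ * ((∑' t : ℕ, vv W U t * vv W U (t + (p.1 - p.2.2))) +
        vv W U (m - p.1 - p.2.1 + (p.1 - p.2.2)) +
        (if p.1 - p.2.2 ≤ m - p.1 - p.2.1 then
          vv W U (m - p.1 - p.2.1 - (p.1 - p.2.2)) else 0)) := by
        rw [tsum_fintype]
        exact Finset.sum_coe_sort (PP XJ XL) (fun p => ρ * ((∑' t : ℕ, vv W U t *
          vv W U (t + (p.1 - p.2.2))) + vv W U (m - p.1 - p.2.1 + (p.1 - p.2.2)) +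
          (if p.1 - p.2.2 ≤ m - p.1 - p.2.1 then
          vv W U (m - p.1 - p.2.1 - (p.1 - p.2.2)) else 0)))
    _ = ρ * (∑ p ∈ PP XJ XL, (∑' t : ℕ, vv W U t * vv W U (t + (p.1 - p.2.2))) +
        ∑ p ∈ PP XJ XL, vv W U (m - p.1 - p.2.1 + (p.1 - p.2.2)) +
        ∑ p ∈ PP XJ XL, (if p.1 - p.2.2 ≤ m - p.1 - p.2.1 then
          vv W U (m - p.1 - p.2.1 - (p.1 - p.2.2)) else 0)) := by
        rw [← Finset.mul_sum, Finset.sum_add_distrib, Finset.sum_add_distrib]
    _ ≤ ρ * (N * (GS + 2 * u * S) + N * (2 * S) + N * (2 * S)) := by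
        gcongr
        · exact C1 X hX XJ XL hJ hL N hNJ hNL
            (fun d => ∑' t : ℕ, vv W U t * vv W U (t + d)) (GS + 2 * u * S)
            (fun D hD0 hD => H_sum_le W U u N hU S GS hS D hD (hG D hD0 hD))
        · exact C2 X hX XJ XL hJ hL N m hNJ hNL hm (vv W U) S hS
        · exact C3 X hX XJ XL hJ hL N m hNJ hNL hm (vv W U) S hS
    _ = ρ * (N * (GS + (2 * u + 4) * S)) := by ring

end

end Pool.Agent.SidonThree
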