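import Mathlib
import Pool.Agent.SidonThree.Markers
import Pool.Agent.SidonThree.Sigma

/-! Digits from discrete logarithms: the structure of the elements and the Sidon argument. -/

set_option autoImplicit false

open Finset

namespace Pool.Agent.SidonThree

theorem exists_dlog (q : ℕ) (hq : q.Prime) : ∃ d : ℕ → ℕ, ∃ g : ZMod q,
    (∀ n, d n + 2 ≤ q) ∧ (∀ n, ¬ q ∣ n → g ^ (d n) = (n : ZMod q)) := by
  classical
  have hf : Fact q.Prime := ⟨hq⟩
  obtain ⟨g, hg⟩ := IsCyclic.exists_generator (α := (ZMod q)ˣ)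
  have hord : orderOf g ≤ q - 1 := by
    have h1 := orderOf_le_card_univ (x := g)
    rwa [ZMod.card_units] at h1
  have hpos : 0 < orderOf g := orderOf_pos g
  have key : ∀ n : ℕ, ∃ k : ℕ, k < orderOf g ∧ (¬ q ∣ n → (g : ZMod q) ^ k = (n : ZMod q)) := by
    intro n
    by_cases h : q ∣ n
    · exact ⟨0, hpos, fun h' => absurd h h'⟩
    · have hcop : Nat.Coprime n q := ((Nat.Prime.coprime_iff_not_dvd hq).2 h).symm
      have hmem := hg (ZMod.unitOfCoprime n hcop)
      rw [← mem_powers_iff_mem_zpowers, Submonoid.mem_powers_iff] at hmem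
      obtain ⟨k, hk⟩ := hmem
      refine ⟨k % orderOf g, Nat.mod_lt _ hpos, fun _ => ?_⟩
      have h2 : g ^ (k % orderOf g) = ZMod.unitOfCoprime n hcop := by
        rw [pow_mod_orderOf, hk]
      have h3 : ((g ^ (k % orderOf g) : (ZMod q)ˣ) : ZMod q) =
          ((ZMod.unitOfCoprime n hcop : (ZMod q)ˣ) : ZMod q) := by rw [h2]
      rw [Units.val_pow_eq_pow_val, ZMod.coe_unitOfCoprime] at h3
      exact h3
  choose d hd1 hd2 using key
  have h2 := hq.two_le
  exact ⟨d, g, fun n => by have := hd1 n; omega, hd2⟩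

/-- The primes used as moduli. -/
noncomputable def qq (j : ℕ) : ℕ :=
  Classical.choose (Nat.exists_prime_lt_and_le_two_mul (2 ^ (2000 * j)) (by positivity))

theorem qq_spec (j : ℕ) : (qq j).Prime ∧ 2 ^ (2000 * j) < qq j ∧ qq j ≤ 2 * 2 ^ (2000 * j) :=
  Classical.choose_spec (Nat.exists_prime_lt_and_le_two_mul (2 ^ (2000 * j)) (by positivity))

theorem qq_strictMono : StrictMono qq := by
  apply strictMono_nat_of_lt_succ
  intro j
  have h1 := (qq_spec j).2.2
  have h2 := (qq_spec (j + 1)).2.1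
  calc qq j ≤ 2 * 2 ^ (2000 * j) := h1
    _ = 2 ^ (2000 * j + 1) := by ring
    _ ≤ 2 ^ (2000 * (j + 1)) := Nat.pow_le_pow_right (by norm_num) (by omega)
    _ < qq (j + 1) := h2

/-- discrete logarithm modulo `qq j`. -/
noncomputable def dd (j : ℕ) : ℕ → ℕ := Classical.choose (exists_dlog (qq j) (qq_spec j).1)

theorem dd_spec (j : ℕ) : ∃ g : ZMod (qq j),
    (∀ n, dd j n + 2 ≤ qq j) ∧ (∀ n, ¬ qq j ∣ n → g ^ (dd j n) = (n : ZMod (qq j))) :=
  Classical.choose_spec (exists_dlog (qq j) (qq_spec j).1)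

theorem dd_le (j n : ℕ) : dd j n + 2 ≤ qq j := (dd_spec j).choose_spec.1 n

theorem dd_mul (j a b c e : ℕ) (ha : ¬ qq j ∣ a) (hb : ¬ qq j ∣ b) (hc : ¬ qq j ∣ c)
    (he : ¬ qq j ∣ e) (h : dd j a + dd j b = dd j c + dd j e) :
    ((qq j : ℕ) : ℤ) ∣ (a * b : ℤ) - c * e := by
  obtain ⟨g, _, hg⟩ := dd_spec j
  have h1 : ((a * b : ℤ) : ZMod (qq j)) = ((c * e : ℤ) : ZMod (qq j)) := by
    push_cast
    rw [← hg a ha, ← hg b hb, ← hg c hc, ← hg e he, ← pow_add, ← pow_add, h]
  have h2 := (ZMod.intCast_eq_intCast_iff_dvd_sub _ _ _).1 h1.symm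
  simpa using h2

theorem dd_eq (j a b : ℕ) (ha : ¬ qq j ∣ a) (hb : ¬ qq j ∣ b) (h : dd j a = dd j b) :
    ((qq j : ℕ) : ℤ) ∣ (a : ℤ) - b := by
  obtain ⟨g, _, hg⟩ := dd_spec j
  have h1 : ((a : ℤ) : ZMod (qq j)) = ((b : ℤ) : ZMod (qq j)) := by
    push_cast
    rw [← hg a ha, ← hg b hb, h]
  exact (ZMod.intCast_eq_intCast_iff_dvd_sub _ _ _).1 h1.symm

/-- mixed radix bases -/
noncomputable def BB : ℕ → ℕ
  | 0 => 2 * mM
  | j + 1 => 4 * qq (j + 1) * BB j

/-- top digit lower end -/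
def RR (k : ℕ) : ℕ := 2 ^ (k ^ 2)

/-- low part -/
noncomputable def low (lam p : ℕ) : ℕ → ℕ
  | 0 => lam
  | J + 1 => low lam p J + (qq (J + 1) + dd (J + 1) p) * BB J

theorem BB_pos (j : ℕ) : 0 < BB j := by
  induction j with
  | zero => simp [BB, mM]
  | succ j ih =>
    have := (qq_spec (j + 1)).1.pos
    simp only [BB]
    positivity

theorem BB_dvd {i j : ℕ} (h : i ≤ j) : BB i ∣ BB j := by
  induction j, h using Nat.le_induction with
  | base => exact dvd_rfl
  | succ j _ ih => exact dvd_mul_of_dvd_right ih _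

theorem BB_mono : Monotone BB := fun _ j h => Nat.le_of_dvd (BB_pos j) (BB_dvd h)

theorem low_lt (lam p : ℕ) (hlam : lam < mM) (J : ℕ) : 2 * low lam p J < BB J := by
  induction J with
  | zero => simp only [low, BB]; omega
  | succ J ih =>
    simp only [low, BB]
    have h1 := dd_le (J + 1) p
    have h2 : (qq (J + 1) + dd (J + 1) p + 1) * BB J ≤ (2 * qq (J + 1)) * BB J :=
      Nat.mul_le_mul_right _ (by omega)
    nlinarith

theorem low_mod (lam p : ℕ) {J k : ℕ} (h : J ≤ k) :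
    ∃ c, low lam p k = low lam p J + BB J * c := by
  induction k, h using Nat.le_induction with
  | base => exact ⟨0, by simp⟩
  | succ k hk ih =>
    obtain ⟨c, hc⟩ := ih
    obtain ⟨e, he⟩ := BB_dvd hk
    refine ⟨c + (qq (k + 1) + dd (k + 1) p) * e, ?_⟩
    simp only [low]
    rw [hc, he]
    ring

/-- element with data. -/
noncomputable def elt (lam p k r : ℕ) : ℕ := low lam p k + BB k * r

theorem elt_mod (lam p k r J : ℕ) (h : J ≤ k) : ∃ c, elt lam p k r = low lam p J + BB J * c := by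
  obtain ⟨c, hc⟩ := low_mod lam p h
  obtain ⟨e, he⟩ := BB_dvd h
  refine ⟨c + e * r, ?_⟩
  unfold elt
  rw [hc, he]
  ring

theorem elt_mod_mM (lam p k r : ℕ) (hlam : lam < mM) : elt lam p k r % mM = lam := by
  obtain ⟨c, hc⟩ := elt_mod lam p k r 0 (Nat.zero_le _)
  rw [hc]
  simp only [low, BB]
  have : lam + 2 * mM * c = lam + mM * (2 * c) := by ring
  rw [this, Nat.add_mul_mod_self_left, Nat.mod_eq_of_lt hlam]

/-- two sums which are congruent modulo `B` and both smaller than `B`. -/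
theorem eq_of_mod {B x y c e : ℕ} (h : x + B * c = y + B * e) (hx : x < B) (hy : y < B) :
    x = y := by
  have h1 : (x + B * c) % B = (y + B * e) % B := by rw [h]
  rwa [Nat.add_mul_mod_self_left, Nat.add_mul_mod_self_left, Nat.mod_eq_of_lt hx,
    Nat.mod_eq_of_lt hy] at h1

theorem elt_ge (lam p k r : ℕ) (hr : RR k ≤ r) : BB k * RR k ≤ elt lam p k r := by
  unfold elt
  have := Nat.mul_le_mul_left (BB k) hr
  omega

theorem elt_lt (lam p k r : ℕ) (hlam : lam < mM) : elt lam p k r < BB k * (r + 1) := by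
  unfold elt
  have := low_lt lam p hlam k
  rw [mul_add, mul_one]
  omega

theorem elt_lt' (lam p k r : ℕ) (hlam : lam < mM) (hr : r + 1 ≤ 4 * qq (k + 1) * RR (k + 1)) :
    elt lam p k r < BB (k + 1) * RR (k + 1) := by
  calc elt lam p k r < BB k * (r + 1) := elt_lt lam p k r hlam
    _ ≤ BB k * (4 * qq (k + 1) * RR (k + 1)) := Nat.mul_le_mul_left _ hr
    _ = BB (k + 1) * RR (k + 1) := by simp only [BB]; ring

theorem RR_pos (k : ℕ) : 0 < RR k := by unfold RR; positivity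

theorem RR_mono : Monotone RR := by
  intro a b h
  unfold RR
  exact Nat.pow_le_pow_right (by norm_num) (Nat.pow_le_pow_left h 2)

theorem BR_mono : Monotone (fun k => BB k * RR k) := fun _ _ h =>
  Nat.mul_le_mul (BB_mono h) (RR_mono h)

theorem BR_two (k : ℕ) : 2 * (BB k * RR k) ≤ BB (k + 1) * RR (k + 1) := by
  have h1 := RR_mono (Nat.le_succ k)
  have h2 : 2 * BB k ≤ BB (k + 1) := by
    simp only [BB]
    have := (qq_spec (k + 1)).1.pos
    nlinarith [BB_pos k]
  calc 2 * (BB k * RR k) = (2 * BB k) * RR k := by ring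
    _ ≤ BB (k + 1) * RR (k + 1) := Nat.mul_le_mul h2 h1

/-- product of consecutive moduli divides. -/
theorem prod_qq_dvd (n : ℤ) (a b : ℕ) (h : ∀ j, a ≤ j → j < b → ((qq (j + 1) : ℕ) : ℤ) ∣ n) :
    (∏ j ∈ Finset.Ico a b, qq (j + 1)) ∣ n.natAbs := by
  classical
  have h1 : ∏ j ∈ Finset.Ico a b, qq (j + 1) =
      ∏ p ∈ (Finset.Ico a b).image (fun j => qq (j + 1)), p := by
    rw [Finset.prod_image]
    intro x _ y _ hxy
    have := qq_strictMono.injective hxy
    omega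
  rw [h1]
  apply Finset.prod_primes_dvd
  · intro p hp
    simp only [Finset.mem_image] at hp
    obtain ⟨j, _, rfl⟩ := hp
    exact (qq_spec (j + 1)).1.prime
  · intro p hp
    simp only [Finset.mem_image, Finset.mem_Ico] at hp
    obtain ⟨j, hj, rfl⟩ := hp
    have := h j hj.1 hj.2
    exact Int.natCast_dvd.1 this

theorem prod_qq_ge (a b : ℕ) (h : a ≤ b) :
    2 ^ (1000 * (b * (b + 1)) - 1000 * (a * (a + 1))) ≤ ∏ j ∈ Finset.Ico a b, qq (j + 1) := by
  induction b, h using Nat.le_induction with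
  | base => simp
  | succ b hb ih =>
    rw [Finset.prod_Ico_succ_top hb]
    have h1 := (qq_spec (b + 1)).2.1
    have h2 : a * (a + 1) ≤ b * (b + 1) := Nat.mul_le_mul hb (by omega)
    calc 2 ^ (1000 * ((b + 1) * (b + 1 + 1)) - 1000 * (a * (a + 1)))
        = 2 ^ (1000 * (b * (b + 1)) - 1000 * (a * (a + 1)) + 2000 * (b + 1)) := by
          congr 1
          have : (b + 1) * (b + 1 + 1) = b * (b + 1) + 2 * (b + 1) := by ring
          omega
      _ = 2 ^ (1000 * (b * (b + 1)) - 1000 * (a * (a + 1))) * 2 ^ (2000 * (b + 1)) := by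
          rw [pow_add]
      _ ≤ (∏ j ∈ Finset.Ico a b, qq (j + 1)) * qq (b + 1) := Nat.mul_le_mul ih h1.le

theorem BB_ge (k : ℕ) : 2 ^ (1000 * (k * (k + 1))) ≤ BB k := by
  induction k with
  | zero => simp [BB, mM]
  | succ k ih =>
    simp only [BB]
    have h1 := (qq_spec (k + 1)).2.1
    calc 2 ^ (1000 * ((k + 1) * (k + 1 + 1))) = 2 ^ (2000 * (k + 1)) * 2 ^ (1000 * (k * (k + 1))) := by
          rw [← pow_add]; congr 1; ring
      _ ≤ (4 * qq (k + 1)) * BB k := Nat.mul_le_mul (by omega) ih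

theorem BB_le (k : ℕ) : BB k ≤ 2 ^ (13 + 1000 * (k * (k + 1)) + 3 * k) := by
  induction k with
  | zero => simp [BB, mM]
  | succ k ih =>
    simp only [BB]
    have h1 := (qq_spec (k + 1)).2.2
    have h2 : ∀ e f : ℕ, (4 * (2 * 2 ^ e)) * 2 ^ f = 2 ^ (3 + e + f) := fun e f => by
      rw [pow_add, pow_add]; ring
    have h3 : 3 + 2000 * (k + 1) + (13 + 1000 * (k * (k + 1)) + 3 * k) =
        13 + 1000 * ((k + 1) * (k + 1 + 1)) + 3 * (k + 1) := by ring
    calc 4 * qq (k + 1) * BB k ≤ (4 * (2 * 2 ^ (2000 * (k + 1)))) *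
          2 ^ (13 + 1000 * (k * (k + 1)) + 3 * k) :=
          Nat.mul_le_mul (Nat.mul_le_mul_left _ h1) ih
      _ = 2 ^ (3 + 2000 * (k + 1) + (13 + 1000 * (k * (k + 1)) + 3 * k)) := h2 _ _
      _ = 2 ^ (13 + 1000 * ((k + 1) * (k + 1 + 1)) + 3 * (k + 1)) := by rw [h3]

end Pool.Agent.SidonThree
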