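import Mathlib
import Pool.Agent.SidonThree.Digits

/-! The Sidon argument for the dense set. -/

set_option autoImplicit false

open Finset

namespace Pool.Agent.SidonThree

/-- admissible data of an element -/
structure Adm (lam p k r : ℕ) : Prop where
  hlam : lam < mM
  hp : p.Prime
  hq : ∀ j, j ≤ k → ¬ qq j ∣ p
  hpk : p ≤ 2 ^ (380 * k ^ 2)
  hr1 : RR k ≤ r
  hr2 : r + 1 ≤ 4 * qq (k + 1) * RR (k + 1)
  hk : 10000 ≤ k

variable {l1 p1 k1 r1 l2 p2 k2 r2 l3 p3 k3 r3 l4 p4 k4 r4 : ℕ}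

theorem lev_le (h1 : Adm l1 p1 k1 r1) (h2 : Adm l2 p2 k2 r2)
    (h : elt l1 p1 k1 r1 ≤ elt l2 p2 k2 r2) : k1 ≤ k2 := by
  by_contra hcon
  push Not at hcon
  have e1 := elt_lt' l2 p2 k2 r2 h2.hlam h2.hr2
  have e2 := BR_mono (show k2 + 1 ≤ k1 from hcon)
  have e3 := elt_ge l1 p1 k1 r1 h1.hr1
  simp only at e2
  omega

theorem BR_le (k : ℕ) : BB (k + 1) * RR (k + 1) ≤ 2 ^ (1001 * k ^ 2 + 3005 * k + 2017) := by
  unfold RR
  calc BB (k + 1) * 2 ^ ((k + 1) ^ 2) ≤ 2 ^ (13 + 1000 * ((k + 1) * (k + 1 + 1)) + 3 * (k + 1)) *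
        2 ^ ((k + 1) ^ 2) := Nat.mul_le_mul_right _ (BB_le (k + 1))
    _ = 2 ^ (13 + 1000 * ((k + 1) * (k + 1 + 1)) + 3 * (k + 1) + (k + 1) ^ 2) := by
        rw [← pow_add]
    _ = 2 ^ (1001 * k ^ 2 + 3005 * k + 2017) := by
        congr 1
        ring

/-- from `BB J ≤ 2 s` and the size of `s`, an inequality for exponents. -/
theorem expo_of_le (J k s : ℕ) (h1 : BB J ≤ 2 * s) (h2 : s < BB (k + 1) * RR (k + 1)) :
    1000 * (J * (J + 1)) ≤ 1001 * k ^ 2 + 3005 * k + 2018 := by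
  have h3 : 2 ^ (1000 * (J * (J + 1))) ≤ 2 ^ (1001 * k ^ 2 + 3005 * k + 2018) := by
    calc 2 ^ (1000 * (J * (J + 1))) ≤ BB J := BB_ge J
      _ ≤ 2 * s := h1
      _ ≤ 2 * (BB (k + 1) * RR (k + 1)) := by omega
      _ ≤ 2 * 2 ^ (1001 * k ^ 2 + 3005 * k + 2017) := Nat.mul_le_mul_left _ (BR_le k)
      _ = 2 ^ (1001 * k ^ 2 + 3005 * k + 2018) := by
        rw [show 1001 * k ^ 2 + 3005 * k + 2018 = (1001 * k ^ 2 + 3005 * k + 2017) + 1 from rfl,
          pow_succ (2 : ℕ) (1001 * k ^ 2 + 3005 * k + 2017), mul_comm]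
  exact (Nat.pow_le_pow_iff_right (by norm_num)).1 h3

theorem core (h1 : Adm l1 p1 k1 r1) (h2 : Adm l2 p2 k2 r2) (h3 : Adm l3 p3 k3 r3)
    (h4 : Adm l4 p4 k4 r4) (hp13 : p1 ≠ p3) (hp14 : p1 ≠ p4)
    (hs : elt l1 p1 k1 r1 + elt l2 p2 k2 r2 = elt l3 p3 k3 r3 + elt l4 p4 k4 r4)
    (h31 : elt l3 p3 k3 r3 < elt l1 p1 k1 r1) (h43 : elt l4 p4 k4 r4 ≤ elt l3 p3 k3 r3) :
    False := by
  set s1 := elt l1 p1 k1 r1 with hs1
  set s2 := elt l2 p2 k2 r2 with hs2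
  set s3 := elt l3 p3 k3 r3 with hs3
  set s4 := elt l4 p4 k4 r4 with hs4
  have h24 : s2 < s4 := by omega
  have hk31 : k3 ≤ k1 := lev_le h3 h1 h31.le
  have hk43 : k4 ≤ k3 := lev_le h4 h3 h43
  have hk24 : k2 ≤ k4 := lev_le h2 h4 h24.le
  have u1 := elt_lt' l1 p1 k1 r1 h1.hlam h1.hr2
  have u2 := elt_lt' l2 p2 k2 r2 h2.hlam h2.hr2
  have u3 := elt_lt' l3 p3 k3 r3 h3.hlam h3.hr2
  have u4 := elt_lt' l4 p4 k4 r4 h4.hlam h4.hr2
  have g1 := elt_ge l1 p1 k1 r1 h1.hr1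
  rw [← hs1] at u1 g1
  rw [← hs2] at u2
  rw [← hs3] at u3
  rw [← hs4] at u4
  -- Step VI: k1 ≤ k3 + 1
  have hk13 : k1 ≤ k3 + 1 := by
    by_contra hcon
    push Not at hcon
    have e1 := BR_mono (show k3 + 1 + 1 ≤ k1 from hcon)
    have e2 := BR_two (k3 + 1)
    simp only at e1
    omega
  -- Step I
  have hI : ∀ J, J + 1 = k4 → BB J ≤ 2 * s2 := by
    intro J hJ
    by_contra hcon
    push Not at hcon
    obtain ⟨c1, hc1⟩ := elt_mod l1 p1 k1 r1 (J + 1) (by omega)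
    obtain ⟨c3, hc3⟩ := elt_mod l3 p3 k3 r3 (J + 1) (by omega)
    obtain ⟨c4, hc4⟩ := elt_mod l4 p4 k4 r4 (J + 1) (by omega)
    rw [← hs1] at hc1
    rw [← hs3] at hc3
    rw [← hs4] at hc4
    have b1 := low_lt l1 p1 h1.hlam (J + 1)
    have b3 := low_lt l3 p3 h3.hlam (J + 1)
    have b4 := low_lt l4 p4 h4.hlam (J + 1)
    have bm := BB_mono (show J ≤ J + 1 by omega)
    have heq : low l1 p1 (J + 1) + s2 = low l3 p3 (J + 1) + low l4 p4 (J + 1) := by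
      apply eq_of_mod (B := BB (J + 1)) (c := c1) (e := c3 + c4)
      · have : low l1 p1 (J + 1) + BB (J + 1) * c1 + s2 =
            low l3 p3 (J + 1) + BB (J + 1) * c3 + (low l4 p4 (J + 1) + BB (J + 1) * c4) := by
          rw [← hc1, ← hc3, ← hc4]; exact hs
        rw [mul_add]
        omega
      · omega
      · omega
    simp only [low] at heq
    have b1' := low_lt l1 p1 h1.hlam J
    have d1 := dd_le (J + 1) p1
    have e1 : (qq (J + 1) + dd (J + 1) p1) * BB J + BB J ≤ (2 * qq (J + 1)) * BB J - BB J := by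
      have : (qq (J + 1) + dd (J + 1) p1 + 1 + 1) * BB J ≤ (2 * qq (J + 1)) * BB J :=
        Nat.mul_le_mul_right _ (by omega)
      rw [add_mul, add_mul _ 1, one_mul] at this
      omega
    have e3 : (2 * qq (J + 1)) * BB J ≤ (qq (J + 1) + dd (J + 1) p3) * BB J +
        (qq (J + 1) + dd (J + 1) p4) * BB J := by
      rw [← add_mul]
      exact Nat.mul_le_mul_right _ (by omega)
    have := BB_pos J
    omega
  -- Step II: digits up to k2
  have hII : ∀ J, J < k2 → ((qq (J + 1) : ℕ) : ℤ) ∣ ((p1 * p2 : ℤ) - p3 * p4) := by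
    have hlow : ∀ J, J ≤ k2 → low l1 p1 J + low l2 p2 J = low l3 p3 J + low l4 p4 J := by
      intro J hJ
      obtain ⟨c1, hc1⟩ := elt_mod l1 p1 k1 r1 J (by omega)
      obtain ⟨c2, hc2⟩ := elt_mod l2 p2 k2 r2 J (by omega)
      obtain ⟨c3, hc3⟩ := elt_mod l3 p3 k3 r3 J (by omega)
      obtain ⟨c4, hc4⟩ := elt_mod l4 p4 k4 r4 J (by omega)
      rw [← hs1] at hc1
      rw [← hs2] at hc2
      rw [← hs3] at hc3
      rw [← hs4] at hc4
      have b1 := low_lt l1 p1 h1.hlam J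
      have b2 := low_lt l2 p2 h2.hlam J
      have b3 := low_lt l3 p3 h3.hlam J
      have b4 := low_lt l4 p4 h4.hlam J
      apply eq_of_mod (B := BB J) (c := c1 + c2) (e := c3 + c4)
      · rw [mul_add, mul_add]
        omega
      · omega
      · omega
    intro J hJ
    have e1 := hlow J (by omega)
    have e2 := hlow (J + 1) (by omega)
    simp only [low] at e2
    have e3 : (qq (J + 1) + dd (J + 1) p1 + (qq (J + 1) + dd (J + 1) p2)) * BB J =
        (qq (J + 1) + dd (J + 1) p3 + (qq (J + 1) + dd (J + 1) p4)) * BB J := by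
      rw [add_mul (qq (J + 1) + dd (J + 1) p1), add_mul (qq (J + 1) + dd (J + 1) p3)]
      omega
    have e4 := Nat.eq_of_mul_eq_mul_right (BB_pos J) e3
    exact dd_mul (J + 1) p1 p2 p3 p4 (h1.hq _ (by omega)) (h2.hq _ (by omega))
      (h3.hq _ (by omega)) (h4.hq _ (by omega)) (by omega)
  have hne : ((p1 * p2 : ℤ) - p3 * p4) ≠ 0 := by
    intro h0
    have h5 : p1 * p2 = p3 * p4 := by
      have : (p1 : ℤ) * p2 = p3 * p4 := by linarith
      exact_mod_cast this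
    have h6 : p1 ∣ p3 * p4 := ⟨p2, h5.symm⟩
    rcases (Nat.Prime.dvd_mul h1.hp).1 h6 with h7 | h7
    · exact hp13 ((Nat.prime_dvd_prime_iff_eq h1.hp h3.hp).1 h7)
    · exact hp14 ((Nat.prime_dvd_prime_iff_eq h1.hp h4.hp).1 h7)
  -- inequality (2)
  have ineq2 : 1000 * (k2 * (k2 + 1)) ≤ 380 * k1 ^ 2 + 380 * k4 ^ 2 := by
    have e1 := prod_qq_dvd ((p1 * p2 : ℤ) - p3 * p4) 0 k2 (fun j _ hj => hII j hj)
    have e2 := Nat.le_of_dvd (Int.natAbs_pos.2 hne) e1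
    have e3 := prod_qq_ge 0 k2 (Nat.zero_le _)
    have e4 : ((p1 * p2 : ℤ) - p3 * p4).natAbs ≤ 2 ^ (380 * k1 ^ 2 + 380 * k4 ^ 2) := by
      have f1 : p1 * p2 ≤ 2 ^ (380 * k1 ^ 2 + 380 * k4 ^ 2) := by
        rw [pow_add]
        apply Nat.mul_le_mul h1.hpk
        exact le_trans h2.hpk (Nat.pow_le_pow_right (by norm_num)
          (Nat.mul_le_mul_left _ (Nat.pow_le_pow_left hk24 2)))
      have f2 : p3 * p4 ≤ 2 ^ (380 * k1 ^ 2 + 380 * k4 ^ 2) := by
        rw [pow_add]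
        apply Nat.mul_le_mul _ h4.hpk
        exact le_trans h3.hpk (Nat.pow_le_pow_right (by norm_num)
          (Nat.mul_le_mul_left _ (Nat.pow_le_pow_left hk31 2)))
      have f3 : ((p1 * p2 : ℤ) - p3 * p4) = ((p1 * p2 : ℕ) : ℤ) - ((p3 * p4 : ℕ) : ℤ) := by
        push_cast; ring
      rw [f3]
      omega
    have e5 : 2 ^ (1000 * (k2 * (k2 + 1)) - 1000 * (0 * (0 + 1))) ≤
        2 ^ (380 * k1 ^ 2 + 380 * k4 ^ 2) := le_trans e3 (le_trans e2 e4)
    have e6 := (Nat.pow_le_pow_iff_right (by norm_num)).1 e5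
    omega
  -- Step V
  obtain ⟨j0, hj0, hj0min⟩ : ∃ j0, 2 * s4 < BB j0 ∧ ∀ j, j + 1 = j0 → BB j ≤ 2 * s4 := by
    classical
    have hex : ∃ j, 2 * s4 < BB j := by
      refine ⟨2 * s4, lt_of_lt_of_le ?_ (BB_ge (2 * s4))⟩
      calc 2 * s4 < 2 ^ (2 * s4) := Nat.lt_two_pow_self
        _ ≤ 2 ^ (1000 * (2 * s4 * (2 * s4 + 1))) := by
          apply Nat.pow_le_pow_right (by norm_num)
          nlinarith
    refine ⟨Nat.find hex, Nat.find_spec hex, ?_⟩
    intro j hj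
    have := Nat.find_min hex (m := j) (by omega)
    omega
  have ineq3 : 1000 * (k3 * (k3 + 1)) ≤ 380 * k1 ^ 2 + 1000 * (j0 * (j0 + 1)) := by
    by_cases hj : j0 ≤ k3
    · have hlow : ∀ J, j0 ≤ J → J ≤ k3 → low l1 p1 J + s2 = low l3 p3 J + s4 := by
        intro J hJ1 hJ2
        obtain ⟨c1, hc1⟩ := elt_mod l1 p1 k1 r1 J (by omega)
        obtain ⟨c3, hc3⟩ := elt_mod l3 p3 k3 r3 J (by omega)
        rw [← hs1] at hc1
        rw [← hs3] at hc3
        have b1 := low_lt l1 p1 h1.hlam J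
        have b3 := low_lt l3 p3 h3.hlam J
        have bm := BB_mono hJ1
        apply eq_of_mod (B := BB J) (c := c1) (e := c3)
        · omega
        · omega
        · omega
      have hdig : ∀ J, j0 ≤ J → J < k3 → ((qq (J + 1) : ℕ) : ℤ) ∣ ((p1 : ℤ) - p3) := by
        intro J hJ1 hJ2
        have e1 := hlow J hJ1 (by omega)
        have e2 := hlow (J + 1) (by omega) (by omega)
        simp only [low] at e2
        have e3 : (qq (J + 1) + dd (J + 1) p1) * BB J = (qq (J + 1) + dd (J + 1) p3) * BB J := by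
          omega
        have e4 := Nat.eq_of_mul_eq_mul_right (BB_pos J) e3
        exact dd_eq (J + 1) p1 p3 (h1.hq _ (by omega)) (h3.hq _ (by omega)) (by omega)
      have hne3 : ((p1 : ℤ) - p3) ≠ 0 := by
        intro h0
        apply hp13
        have : (p1 : ℤ) = p3 := by linarith
        exact_mod_cast this
      have e1 := prod_qq_dvd ((p1 : ℤ) - p3) j0 k3 hdig
      have e2 := Nat.le_of_dvd (Int.natAbs_pos.2 hne3) e1
      have e3 := prod_qq_ge j0 k3 hj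
      have e4 : ((p1 : ℤ) - p3).natAbs ≤ 2 ^ (380 * k1 ^ 2) := by
        have f1 := h1.hpk
        have f2 : p3 ≤ 2 ^ (380 * k1 ^ 2) := le_trans h3.hpk (Nat.pow_le_pow_right (by norm_num)
          (Nat.mul_le_mul_left _ (Nat.pow_le_pow_left hk31 2)))
        omega
      have e5 := le_trans e3 (le_trans e2 e4)
      have e6 := (Nat.pow_le_pow_iff_right (by norm_num)).1 e5
      omega
    · push Not at hj
      have : k3 * (k3 + 1) ≤ j0 * (j0 + 1) := Nat.mul_le_mul hj.le (by omega)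
      omega
  -- inequality (1)
  obtain ⟨J4, hJ4⟩ : ∃ J, J + 1 = k4 := ⟨k4 - 1, by have := h4.hk; omega⟩
  have ineq1 := expo_of_le J4 k2 s2 (hI J4 hJ4) u2
  -- final arithmetic
  have hK := h3.hk
  have hk3 := h3.hk
  rcases Nat.eq_zero_or_pos j0 with h0 | hpos
  · -- j0 = 0
    rw [h0] at ineq3
    have e1 : k1 ^ 2 ≤ (k3 + 1) ^ 2 := Nat.pow_le_pow_left hk13 2
    have e2 : (k3 + 1) ^ 2 = k3 * k3 + 2 * k3 + 1 := by ring
    have e3 : k3 * (k3 + 1) = k3 * k3 + k3 := by ring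
    have e4 : 10000 * k3 ≤ k3 * k3 := Nat.mul_le_mul_right _ hk3
    omega
  · obtain ⟨j, hj⟩ : ∃ j, j + 1 = j0 := ⟨j0 - 1, by omega⟩
    have ineq4 := expo_of_le j k4 s4 (hj0min j hj) u4
    subst hJ4
    subst hj
    -- work over the reals
    have a1 : (1000 : ℝ) * (J4 * (J4 + 1)) ≤ 1001 * k2 ^ 2 + 3005 * k2 + 2018 := by
      exact_mod_cast ineq1
    have a2 : (1000 : ℝ) * (k2 * (k2 + 1)) ≤ 380 * k1 ^ 2 + 380 * ((J4 : ℝ) + 1) ^ 2 := by
      exact_mod_cast ineq2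
    have a3 : (1000 : ℝ) * (k3 * (k3 + 1)) ≤ 380 * k1 ^ 2 +
        1000 * (((j : ℝ) + 1) * (j + 1 + 1)) := by exact_mod_cast ineq3
    have a4 : (1000 : ℝ) * (j * (j + 1)) ≤ 1001 * ((J4 : ℝ) + 1) ^ 2 + 3005 * (J4 + 1) + 2018 := by
      exact_mod_cast ineq4
    have c1 : (k1 : ℝ) ≤ k3 + 1 := by exact_mod_cast hk13
    have c2 : (k2 : ℝ) ≤ J4 + 1 := by exact_mod_cast hk24
    have c3 : (J4 : ℝ) + 1 ≤ k3 := by exact_mod_cast hk43
    have c4 : (10000 : ℝ) ≤ k3 := by exact_mod_cast hk3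
    have z1 : (0 : ℝ) ≤ k1 := Nat.cast_nonneg _
    have z2 : (0 : ℝ) ≤ k2 := Nat.cast_nonneg _
    have z4 : (0 : ℝ) ≤ J4 := Nat.cast_nonneg _
    have zj : (0 : ℝ) ≤ j := Nat.cast_nonneg _
    generalize (k1 : ℝ) = a at *
    generalize (k2 : ℝ) = b at *
    generalize (k3 : ℝ) = c at *
    generalize (J4 : ℝ) = d at *
    generalize (j : ℝ) = e at *
    have q1 : a ^ 2 ≤ (c + 1) ^ 2 := by
      apply pow_le_pow_left₀ z1 c1
    have q2 : 10000 * c ≤ c ^ 2 := by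
      rw [pow_two]
      exact mul_le_mul_of_nonneg_right c4 (by linarith)
    have q4 : (d + 1) ^ 2 ≤ c ^ 2 := pow_le_pow_left₀ (by linarith) c3 2
    -- e ≤ 2 c
    have q3 : e ≤ 2 * c := by
      by_contra hcon
      push Not at hcon
      have : (2 * c) ^ 2 ≤ e ^ 2 := pow_le_pow_left₀ (by linarith) hcon.le 2
      linarith
    linarith

end Pool.Agent.SidonThree
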