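import Mathlib
import Pool.Agent.SidonThree.Core

/-! The dense Sidon set: definition, Sidon property, upper bound. -/

set_option autoImplicit false

open Finset

namespace Pool.Agent.SidonThree

/-- number of primes up to `2^(380 k^2)` -/
def PI (k : ℕ) : ℕ := Nat.primeCounting (2 ^ (380 * k ^ 2))

theorem PI_mono : Monotone PI := by
  intro a b h
  apply Nat.monotone_primeCounting
  exact Nat.pow_le_pow_right (by norm_num) (Nat.mul_le_mul_left _ (Nat.pow_le_pow_left h 2))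

theorem exists_lt_PI (i : ℕ) : ∃ k, i < PI k := by
  have h1 := Nat.tendsto_primeCounting.eventually_gt_atTop i
  obtain ⟨N, hN⟩ := Filter.eventually_atTop.1 h1
  refine ⟨N, hN _ ?_⟩
  calc N ≤ 380 * N ^ 2 := by nlinarith [Nat.le_mul_self N]
    _ ≤ 2 ^ (380 * N ^ 2) := Nat.lt_two_pow_self.le

/-- level of an index -/
noncomputable def lev (i : ℕ) : ℕ := by
  classical
  exact Nat.find (exists_lt_PI i)

theorem lt_PI_lev (i : ℕ) : i < PI (lev i) := by
  classical
  unfold lev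
  exact Nat.find_spec (exists_lt_PI i)

theorem PI_le_of_lt_lev {i k : ℕ} (h : k < lev i) : PI k ≤ i := by
  classical
  unfold lev at h
  have := Nat.find_min (exists_lt_PI i) h
  omega

theorem lev_eq {i k : ℕ} (h1 : PI k ≤ i) (h2 : i < PI (k + 1)) : lev i = k + 1 := by
  have h3 : lev i ≤ k + 1 := by
    by_contra hcon
    push Not at hcon
    have := PI_le_of_lt_lev hcon
    omega
  have h4 : k < lev i := by
    by_contra hcon
    push Not at hcon
    have := PI_mono hcon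
    have := lt_PI_lev i
    omega
  omega

/-- primes -/
noncomputable def pr (i : ℕ) : ℕ := Nat.nth Nat.Prime i

theorem pr_prime (i : ℕ) : (pr i).Prime := Nat.prime_nth_prime i

theorem pr_inj : Function.Injective pr := Nat.nth_injective Nat.infinite_setOfPred_prime

theorem pr_le (i k : ℕ) (h : i < PI k) : pr i ≤ 2 ^ (380 * k ^ 2) := by
  have := Nat.nth_lt_of_lt_count (p := Nat.Prime) (n := 2 ^ (380 * k ^ 2) + 1) (k := i) h
  unfold pr
  omega

theorem lt_pr (i k : ℕ) (h : PI k ≤ i) : 2 ^ (380 * k ^ 2) < pr i := by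
  have h1 : 2 ^ (380 * k ^ 2) + 1 ≤ Nat.nth Nat.Prime i :=
    (Nat.count_le_iff_le_nth (p := Nat.Prime) Nat.infinite_setOfPred_prime
    (a := 2 ^ (380 * k ^ 2) + 1) (b := i)).1 h
  unfold pr
  omega

/-- number of values of the top digit -/
noncomputable def NN (k : ℕ) : ℕ := 4 * qq (k + 1) * RR (k + 1) - RR k

theorem NN_pos (k : ℕ) : 0 < NN k := by
  unfold NN
  have h1 := RR_mono (Nat.le_succ k)
  have h2 := (qq_spec (k + 1)).1.two_le
  have h3 := RR_pos k
  have h4 : RR (k + 1) * 1 < RR (k + 1) * (4 * qq (k + 1)) := by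
    apply Nat.mul_lt_mul_of_pos_left (by omega) (RR_pos _)
  have h5 : RR (k + 1) * (4 * qq (k + 1)) = 4 * qq (k + 1) * RR (k + 1) := by ring
  have h6 : RR k ≤ RR (k + 1) := h1
  omega

/-- residue of index -/
def lm (i : ℕ) : ℕ := LX.getD (i % 35) 0

theorem getD_mem : ∀ v < 35, LX.getD v 0 ∈ LX := by decide

theorem exists_getD : ∀ a ∈ LX, ∃ v < 35, LX.getD v 0 = a := by decide

theorem lm_mem (i : ℕ) : lm i ∈ LX := getD_mem _ (Nat.mod_lt _ (by norm_num))

/-- top digit -/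
noncomputable def rr (i : ℕ) : ℕ := RR (lev i) + (i / 35) % NN (lev i)

/-- elements -/
noncomputable def ss (i : ℕ) : ℕ := elt (lm i) (pr i) (lev i) (rr i)

/-- The dense Sidon set. -/
def DX : Set ℕ := {x | ∃ i, PI 10000 ≤ i ∧ x = ss i}

theorem lev_gt {i : ℕ} (hi : PI 10000 ≤ i) : 10000 < lev i := by
  by_contra hcon
  push Not at hcon
  have := PI_mono hcon
  have := lt_PI_lev i
  omega

theorem adm (i : ℕ) (hi : PI 10000 ≤ i) : Adm (lm i) (pr i) (lev i) (rr i) := by
  have hlev := lev_gt hi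
  refine ⟨lt_of_mem_LX _ (lm_mem i), pr_prime i, ?_, pr_le i _ (lt_PI_lev i), ?_, ?_, hlev.le⟩
  · intro j hj hdvd
    have h1 := (Nat.prime_dvd_prime_iff_eq (qq_spec j).1 (pr_prime i)).1 hdvd
    obtain ⟨k, hk⟩ : ∃ k, k + 1 = lev i := ⟨lev i - 1, by omega⟩
    have h2 := lt_pr i k (PI_le_of_lt_lev (by omega))
    have h3 := (qq_spec j).2.2
    have h4 : 2 * 2 ^ (2000 * j) ≤ 2 ^ (380 * k ^ 2) := by
      calc 2 * 2 ^ (2000 * j) = 2 ^ (2000 * j + 1) := by rw [pow_succ (2 : ℕ) (2000 * j), mul_comm]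
        _ ≤ 2 ^ (380 * k ^ 2) := by
          apply Nat.pow_le_pow_right (by norm_num)
          have h5 : j ≤ k + 1 := by omega
          have h6 : 10000 ≤ k := by omega
          nlinarith
    omega
  · unfold rr; omega
  · unfold rr
    have h1 := Nat.mod_lt (i / 35) (NN_pos (lev i))
    have h2 : RR (lev i) + NN (lev i) = 4 * qq (lev i + 1) * RR (lev i + 1) := by
      have := NN_pos (lev i)
      unfold NN at this ⊢
      omega
    omega

theorem isSid_of_key (X : Set ℕ) (key : ∀ t1 ∈ X, ∀ t2 ∈ X, ∀ t3 ∈ X, ∀ t4 ∈ X,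
    t1 + t2 = t3 + t4 → t3 < t1 → t4 ≤ t3 → False) : IsSid X := by
  intro a ha b hb c hc d hd hs
  by_contra hcon
  have hac : a ≠ c := fun e => hcon (Or.inl ⟨e, by omega⟩)
  have had : a ≠ d := fun e => hcon (Or.inr ⟨e, by omega⟩)
  rcases le_total c d with hcd | hcd
  · rcases lt_or_gt_of_ne had with h1 | h1
    · rcases le_total a b with hab | hab
      · rcases lt_trichotomy b d with h2 | h2 | h2
        · exact key d hd c hc b hb a ha (by omega) h2 hab
        · exact hcon (Or.inl ⟨by omega, h2⟩)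
        · exact key b hb a ha d hd c hc (by omega) h2 hcd
      · exact key d hd c hc a ha b hb (by omega) h1 hab
    · exact key a ha b hb d hd c hc (by omega) h1 hcd
  · rcases lt_or_gt_of_ne hac with h1 | h1
    · rcases le_total a b with hab | hab
      · rcases lt_trichotomy b c with h2 | h2 | h2
        · exact key c hc d hd b hb a ha (by omega) h2 hab
        · exact hcon (Or.inr ⟨by omega, h2⟩)
        · exact key b hb a ha c hc d hd (by omega) h2 hcd
      · exact key c hc d hd a ha b hb (by omega) h1 hab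
    · exact key a ha b hb c hc d hd (by omega) h1 hcd

theorem DX_sid : IsSid DX := by
  apply isSid_of_key
  rintro t1 ⟨i1, h1, rfl⟩ t2 ⟨i2, h2, rfl⟩ t3 ⟨i3, h3, rfl⟩ t4 ⟨i4, h4, rfl⟩ hs h31 h43
  apply core (adm i1 h1) (adm i2 h2) (adm i3 h3) (adm i4 h4) _ _ hs h31 h43
  · intro h
    have := pr_inj h
    subst this
    exact absurd h31 (lt_irrefl _)
  · intro h
    have := pr_inj h
    subst this
    exact absurd h31 (not_lt.2 h43)

theorem elt_inj {l1 p1 k1 r1 l2 p2 k2 r2 : ℕ} (h1 : Adm l1 p1 k1 r1) (h2 : Adm l2 p2 k2 r2)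
    (hs : elt l1 p1 k1 r1 = elt l2 p2 k2 r2) : p1 = p2 := by
  have hk : k1 = k2 := le_antisymm (lev_le h1 h2 hs.le) (lev_le h2 h1 hs.ge)
  subst hk
  by_contra hne
  have hlow : ∀ J, J ≤ k1 → low l1 p1 J = low l2 p2 J := by
    intro J hJ
    obtain ⟨c1, hc1⟩ := elt_mod l1 p1 k1 r1 J hJ
    obtain ⟨c2, hc2⟩ := elt_mod l2 p2 k1 r2 J hJ
    have b1 := low_lt l1 p1 h1.hlam J
    have b2 := low_lt l2 p2 h2.hlam J
    apply eq_of_mod (B := BB J) (c := c1) (e := c2)
    · rw [← hc1, ← hc2, hs]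
    · omega
    · omega
  have hdig : ∀ J, 0 ≤ J → J < k1 → ((qq (J + 1) : ℕ) : ℤ) ∣ ((p1 : ℤ) - p2) := by
    intro J _ hJ2
    have e1 := hlow J (by omega)
    have e2 := hlow (J + 1) (by omega)
    simp only [low] at e2
    have e3 : (qq (J + 1) + dd (J + 1) p1) * BB J = (qq (J + 1) + dd (J + 1) p2) * BB J := by
      omega
    have e4 := Nat.eq_of_mul_eq_mul_right (BB_pos J) e3
    exact dd_eq (J + 1) p1 p2 (h1.hq _ (by omega)) (h2.hq _ (by omega)) (by omega)
  have hne3 : ((p1 : ℤ) - p2) ≠ 0 := by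
    intro h0
    apply hne
    have : (p1 : ℤ) = p2 := by linarith
    exact_mod_cast this
  have e1 := prod_qq_dvd ((p1 : ℤ) - p2) 0 k1 hdig
  have e2 := Nat.le_of_dvd (Int.natAbs_pos.2 hne3) e1
  have e3 := prod_qq_ge 0 k1 (Nat.zero_le _)
  have e4 : ((p1 : ℤ) - p2).natAbs ≤ 2 ^ (380 * k1 ^ 2) := by
    have f1 := h1.hpk
    have f2 := h2.hpk
    omega
  have e5 := le_trans e3 (le_trans e2 e4)
  have e6 := (Nat.pow_le_pow_iff_right (by norm_num)).1 e5
  have e7 := h1.hk
  have e8 : 380 * k1 ^ 2 < 1000 * (k1 * (k1 + 1)) - 1000 * (0 * (0 + 1)) := by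
    have : 1000 * (k1 * (k1 + 1)) = 1000 * k1 ^ 2 + 1000 * k1 := by ring
    rw [this]
    omega
  omega

theorem ss_inj {i j : ℕ} (hi : PI 10000 ≤ i) (hj : PI 10000 ≤ j) (h : ss i = ss j) : i = j :=
  pr_inj (elt_inj (adm i hi) (adm j hj) h)

theorem DX_res : ∀ x ∈ DX, x % mM ∈ LX := by
  rintro x ⟨i, hi, rfl⟩
  unfold ss
  rw [elt_mod_mM _ _ _ _ (lt_of_mem_LX _ (lm_mem i))]
  exact lm_mem i

theorem PI_le (k : ℕ) : PI k ≤ 2 ^ (380 * k ^ 2) := by
  unfold PI
  have : Nat.primeCounting (2 ^ (380 * k ^ 2)) ≤ 2 ^ (380 * k ^ 2) := by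
    rw [Nat.primeCounting, Nat.primeCounting', Nat.count_succ']
    have := Nat.count_le (p := fun n => Nat.Prime (n + 1)) (n := 2 ^ (380 * k ^ 2))
    simpa [Nat.not_prime_zero] using this
  exact this

theorem DX_up (y : ℕ) (hy : 1 ≤ y) (F : Finset ℕ) (hF : ∀ x ∈ F, x ∈ DX ∧ x ≤ y) :
    (F.card : ℝ) ≤ 1 * (y : ℝ) ^ (38 / 100 : ℝ) := by
  classical
  rw [one_mul]
  rcases F.eq_empty_or_nonempty with rfl | hne
  · simp only [Finset.card_empty, Nat.cast_zero]
    positivity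
  have hch : ∀ x ∈ F, ∃ i, PI 10000 ≤ i ∧ x = ss i := fun x hx => (hF x hx).1
  -- element of max level
  choose! ix hix1 hix2 using hch
  obtain ⟨x0, hx0, hmax⟩ := Finset.exists_max_image F (fun x => lev (ix x)) hne
  set K := lev (ix x0) with hK
  have h1 : F.card ≤ PI K := by
    have h2 : F ⊆ (Finset.range (PI K)).image ss := by
      intro x hx
      rw [Finset.mem_image]
      refine ⟨ix x, ?_, (hix2 x hx).symm⟩
      rw [Finset.mem_range]
      exact lt_of_lt_of_le (lt_PI_lev _) (PI_mono (hmax x hx))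
    calc F.card ≤ ((Finset.range (PI K)).image ss).card := Finset.card_le_card h2
      _ ≤ (Finset.range (PI K)).card := Finset.card_image_le
      _ = PI K := Finset.card_range _
  have h3 : 2 ^ (1000 * K ^ 2) ≤ y := by
    have e1 := elt_ge (lm (ix x0)) (pr (ix x0)) (lev (ix x0)) (rr (ix x0))
      (adm _ (hix1 x0 hx0)).hr1
    have e2 : ss (ix x0) ≤ y := by
      rw [← hix2 x0 hx0]; exact (hF x0 hx0).2
    have e3 : BB K * 1 ≤ BB K * RR K := Nat.mul_le_mul_left _ (RR_pos K)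
    calc 2 ^ (1000 * K ^ 2) ≤ 2 ^ (1000 * (K * (K + 1))) := by
          apply Nat.pow_le_pow_right (by norm_num)
          nlinarith
      _ ≤ BB K := BB_ge K
      _ ≤ BB K * RR K := by omega
      _ ≤ ss (ix x0) := e1
      _ ≤ y := e2
  have h4 : (F.card : ℝ) ≤ (2 : ℝ) ^ (380 * K ^ 2) := by
    have := le_trans h1 (PI_le K)
    exact_mod_cast this
  have h5 : ((2 : ℝ) ^ (1000 * K ^ 2)) ^ (38 / 100 : ℝ) = (2 : ℝ) ^ (380 * K ^ 2) := by
    rw [← Real.rpow_natCast, ← Real.rpow_mul (by norm_num), ← Real.rpow_natCast]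
    congr 1
    push_cast
    ring
  rw [← h5] at h4
  refine le_trans h4 ?_
  apply Real.rpow_le_rpow (by positivity)
  · exact_mod_cast h3
  · norm_num

end Pool.Agent.SidonThree
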