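import Mathlib

/-! Elementary estimates for power sums. -/

set_option autoImplicit false

open Finset

namespace Pool.Agent.SidonThree

theorem sum_Icc_rpow_le {a : ℝ} (ha0 : 0 < a) (ha1 : a ≤ 1) (N : ℕ) :
    ∑ n ∈ Icc 1 N, (n : ℝ) ^ (a - 1) ≤ (N : ℝ) ^ a / a := by
  induction N with
  | zero =>
    have : (0 : ℝ) ^ a = 0 := Real.zero_rpow ha0.ne'
    simp [this]
  | succ N ih =>
    rw [Finset.sum_Icc_succ_top (by omega)]
    have hN : (0 : ℝ) < ((N + 1 : ℕ) : ℝ) := by positivity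
    have key : ((N : ℝ)) ^ a ≤ ((N + 1 : ℕ) : ℝ) ^ a - a * ((N + 1 : ℕ) : ℝ) ^ (a - 1) := by
      have h1 : (1 + (-1 / ((N + 1 : ℕ) : ℝ))) ^ a ≤ 1 + a * (-1 / ((N + 1 : ℕ) : ℝ)) := by
        apply rpow_one_add_le_one_add_mul_self _ ha0.le ha1
        rw [le_div_iff₀ hN]
        push_cast
        have : (0 : ℝ) ≤ N := Nat.cast_nonneg N
        linarith
      have h2 : (N : ℝ) = ((N + 1 : ℕ) : ℝ) * (1 + (-1 / ((N + 1 : ℕ) : ℝ))) := by
        field_simp
        push_cast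
        ring
      have h3 : (0 : ℝ) ≤ 1 + (-1 / ((N + 1 : ℕ) : ℝ)) := by
        have : (1 : ℝ) / ((N + 1 : ℕ) : ℝ) ≤ 1 := by
          rw [div_le_one hN]
          push_cast
          have : (0 : ℝ) ≤ N := Nat.cast_nonneg N
          linarith
        have h4 : (-1 : ℝ) / ((N + 1 : ℕ) : ℝ) = -(1 / ((N + 1 : ℕ) : ℝ)) := by ring
        rw [h4]; linarith
      calc (N : ℝ) ^ a = (((N + 1 : ℕ) : ℝ) * (1 + (-1 / ((N + 1 : ℕ) : ℝ)))) ^ a := by rw [← h2]
        _ = ((N + 1 : ℕ) : ℝ) ^ a * (1 + (-1 / ((N + 1 : ℕ) : ℝ))) ^ a :=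
          Real.mul_rpow hN.le h3
        _ ≤ ((N + 1 : ℕ) : ℝ) ^ a * (1 + a * (-1 / ((N + 1 : ℕ) : ℝ))) := by
          gcongr
        _ = ((N + 1 : ℕ) : ℝ) ^ a - a * ((N + 1 : ℕ) : ℝ) ^ (a - 1) := by
          rw [Real.rpow_sub_one hN.ne']
          ring
    have h5 : (N : ℝ) ^ a / a + ((N + 1 : ℕ) : ℝ) ^ (a - 1) ≤ ((N + 1 : ℕ) : ℝ) ^ a / a := by
      rw [div_add' _ _ _ ha0.ne']
      gcongr
      linarith
    linarith

/-- sum of `n^(a-1)` over any finite set. -/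
theorem sum_finset_rpow_le {a : ℝ} (ha0 : 0 < a) (ha1 : a < 1) (F : Finset ℕ) :
    ∑ n ∈ F, (n : ℝ) ^ (a - 1) ≤ (1 / a + 1) * (F.card : ℝ) ^ a := by
  classical
  rcases F.eq_empty_or_nonempty with rfl | hne
  · simp [Real.zero_rpow ha0.ne']
  have hc : 0 < F.card := hne.card_pos
  have hc' : (0 : ℝ) < F.card := by exact_mod_cast hc
  have h1 : ∑ n ∈ F.filter (fun n => n ≤ F.card), (n : ℝ) ^ (a - 1) ≤ (F.card : ℝ) ^ a / a := by
    refine le_trans ?_ (sum_Icc_rpow_le ha0 ha1.le F.card)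
    have : ∑ n ∈ F.filter (fun n => n ≤ F.card), (n : ℝ) ^ (a - 1)
        = ∑ n ∈ (F.filter (fun n => n ≤ F.card)).filter (fun n => n ≠ 0), (n : ℝ) ^ (a - 1) := by
      symm
      apply Finset.sum_filter_of_ne
      intro n _ hn h0
      apply hn
      rw [h0, Nat.cast_zero, Real.zero_rpow (by linarith)]
    rw [this]
    apply Finset.sum_le_sum_of_subset_of_nonneg
    · intro n hn
      simp only [mem_filter, mem_Icc] at hn ⊢
      omega
    · intro n _ _
      positivity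
  have h2 : ∑ n ∈ F.filter (fun n => ¬ n ≤ F.card), (n : ℝ) ^ (a - 1)
      ≤ (F.card : ℝ) ^ a := by
    calc ∑ n ∈ F.filter (fun n => ¬ n ≤ F.card), (n : ℝ) ^ (a - 1)
        ≤ ∑ n ∈ F.filter (fun n => ¬ n ≤ F.card), (F.card : ℝ) ^ (a - 1) := by
          apply Finset.sum_le_sum
          intro n hn
          simp only [mem_filter, not_le] at hn
          apply Real.rpow_le_rpow_of_nonpos hc'
          · exact_mod_cast hn.2.le
          · linarith
      _ = ((F.filter (fun n => ¬ n ≤ F.card)).card : ℝ) * (F.card : ℝ) ^ (a - 1) := by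
          rw [Finset.sum_const, nsmul_eq_mul]
      _ ≤ (F.card : ℝ) * (F.card : ℝ) ^ (a - 1) := by
          gcongr
          exact Finset.filter_subset _ _
      _ = (F.card : ℝ) ^ a := by
          rw [Real.rpow_sub_one hc'.ne']
          field_simp
  rw [← Finset.sum_filter_add_sum_filter_not F (fun n => n ≤ F.card)]
  calc _ ≤ (F.card : ℝ) ^ a / a + (F.card : ℝ) ^ a := add_le_add h1 h2
    _ = (1 / a + 1) * (F.card : ℝ) ^ a := by ring

end Pool.Agent.SidonThree
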