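import Mathlib
import Pool.Agent.SidonThree.Analytic
import Pool.Agent.SidonThree.Sigma

/-! The weights `n^(-0.756)` and their sums. -/

set_option autoImplicit false

open Finset
open scoped ENNReal

namespace Pool.Agent.SidonThree

/-- inclusion probability -/
noncomputable def wt (n : ℕ) : ℝ := (n : ℝ) ^ (-(756 / 1000) : ℝ)

/-- inclusion probability, extended nonnegative real. -/
noncomputable def WW (n : ℕ) : ℝ≥0∞ := ENNReal.ofReal (wt n)

theorem wt_nonneg (n : ℕ) : 0 ≤ wt n := by unfold wt; positivity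

theorem wt_zero : wt 0 = 0 := by
  unfold wt
  rw [Nat.cast_zero, Real.zero_rpow (by norm_num)]

theorem wt_anti {a b : ℕ} (ha : 0 < a) (hab : a ≤ b) : wt b ≤ wt a := by
  unfold wt
  apply Real.rpow_le_rpow_of_nonpos
  · exact_mod_cast ha
  · exact_mod_cast hab
  · norm_num

theorem wt_le_one (n : ℕ) : wt n ≤ 1 := by
  rcases Nat.eq_zero_or_pos n with rfl | h
  · rw [wt_zero]; norm_num
  · have h1 := wt_anti (a := 1) one_pos h
    have h2 : wt 1 = 1 := by unfold wt; simp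
    linarith

theorem sum_WW_le (F : Finset ℕ) :
    ∑ n ∈ F, WW n ≤ ENNReal.ofReal (6 * (F.card : ℝ) ^ (244 / 1000 : ℝ)) := by
  unfold WW
  rw [← ENNReal.ofReal_sum_of_nonneg (fun n _ => wt_nonneg n)]
  apply ENNReal.ofReal_le_ofReal
  have h := sum_finset_rpow_le (a := 244 / 1000) (by norm_num) (by norm_num) F
  have h1 : ∑ n ∈ F, wt n = ∑ n ∈ F, (n : ℝ) ^ ((244 / 1000 : ℝ) - 1) := by
    apply Finset.sum_congr rfl
    intro n _
    unfold wt
    norm_num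
  rw [h1]
  refine le_trans h ?_
  gcongr
  norm_num

theorem sum_vv_le (U F : Finset ℕ) :
    ∑ n ∈ F, vv WW U n ≤ ENNReal.ofReal (6 * (F.card : ℝ) ^ (244 / 1000 : ℝ)) + U.card := by
  classical
  unfold vv
  rw [Finset.sum_add_distrib]
  gcongr
  · exact sum_WW_le F
  · rw [← Finset.sum_filter, Finset.sum_const, nsmul_eq_mul, mul_one]
    have : (F.filter (fun n => n ∈ U)).card ≤ U.card := by
      apply Finset.card_le_card
      intro x hx
      exact (Finset.mem_filter.1 hx).2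
    exact_mod_cast this

/-- the constant in the bound for the correlation. -/
noncomputable def CG : ℝ≥0∞ := ∑' t : ℕ, ENNReal.ofReal ((t : ℝ) ^ (-(1001 / 1000) : ℝ))

theorem CG_lt_top : CG < ⊤ := by
  unfold CG
  have h : Summable (fun t : ℕ => (t : ℝ) ^ (-(1001 / 1000) : ℝ)) := by
    rw [Real.summable_nat_rpow]
    norm_num
  rw [← ENNReal.ofReal_tsum_of_nonneg (fun n => by positivity) h]
  exact ENNReal.ofReal_lt_top

theorem tsumG_le (d : ℕ) (hd : 0 < d) :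
    ∑' t : ℕ, WW t * WW (t + d) ≤ CG * ENNReal.ofReal ((d : ℝ) ^ ((489 / 1000 : ℝ) - 1)) := by
  unfold CG
  rw [← ENNReal.tsum_mul_right]
  apply ENNReal.tsum_le_tsum
  intro t
  rcases Nat.eq_zero_or_pos t with rfl | ht
  · unfold WW; rw [wt_zero]; simp
  · unfold WW
    rw [← ENNReal.ofReal_mul (wt_nonneg _), ← ENNReal.ofReal_mul (by positivity)]
    apply ENNReal.ofReal_le_ofReal
    unfold wt
    have ht' : (0 : ℝ) < t := by exact_mod_cast ht
    have hd' : (0 : ℝ) < d := by exact_mod_cast hd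
    have h1 : ((t + d : ℕ) : ℝ) ^ (-(756 / 1000) : ℝ) =
        ((t + d : ℕ) : ℝ) ^ (-(245 / 1000) : ℝ) * ((t + d : ℕ) : ℝ) ^ ((489 / 1000 : ℝ) - 1) := by
      rw [← Real.rpow_add (by push_cast; positivity)]
      norm_num
    have h2 : ((t + d : ℕ) : ℝ) ^ (-(245 / 1000) : ℝ) ≤ (t : ℝ) ^ (-(245 / 1000) : ℝ) := by
      apply Real.rpow_le_rpow_of_nonpos ht'
      · push_cast; linarith
      · norm_num
    have h3 : ((t + d : ℕ) : ℝ) ^ ((489 / 1000 : ℝ) - 1) ≤ (d : ℝ) ^ ((489 / 1000 : ℝ) - 1) := by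
      apply Real.rpow_le_rpow_of_nonpos hd'
      · push_cast; linarith
      · norm_num
    calc (t : ℝ) ^ (-(756 / 1000) : ℝ) * ((t + d : ℕ) : ℝ) ^ (-(756 / 1000) : ℝ)
        = (t : ℝ) ^ (-(756 / 1000) : ℝ) * (((t + d : ℕ) : ℝ) ^ (-(245 / 1000) : ℝ) *
          ((t + d : ℕ) : ℝ) ^ ((489 / 1000 : ℝ) - 1)) := by rw [h1]
      _ ≤ (t : ℝ) ^ (-(756 / 1000) : ℝ) * ((t : ℝ) ^ (-(245 / 1000) : ℝ) *
          (d : ℝ) ^ ((489 / 1000 : ℝ) - 1)) := by gcongr
      _ = (t : ℝ) ^ (-(1001 / 1000) : ℝ) * (d : ℝ) ^ ((489 / 1000 : ℝ) - 1) := by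
        rw [← mul_assoc, ← Real.rpow_add ht']
        norm_num

theorem sumG_le (D : Finset ℕ) (hD : 0 ∉ D) :
    ∑ d ∈ D, ∑' t : ℕ, WW t * WW (t + d) ≤
      CG * ENNReal.ofReal (4 * (D.card : ℝ) ^ (489 / 1000 : ℝ)) := by
  calc ∑ d ∈ D, ∑' t : ℕ, WW t * WW (t + d)
      ≤ ∑ d ∈ D, CG * ENNReal.ofReal ((d : ℝ) ^ ((489 / 1000 : ℝ) - 1)) := by
        apply Finset.sum_le_sum
        intro d hd
        apply tsumG_le
        rcases Nat.eq_zero_or_pos d with rfl | h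
        · exact absurd hd hD
        · exact h
    _ = CG * ENNReal.ofReal (∑ d ∈ D, (d : ℝ) ^ ((489 / 1000 : ℝ) - 1)) := by
        rw [← Finset.mul_sum, ← ENNReal.ofReal_sum_of_nonneg]
        intro n _
        positivity
    _ ≤ _ := by
        gcongr
        have h := sum_finset_rpow_le (a := 489 / 1000) (by norm_num) (by norm_num) D
        refine le_trans h ?_
        gcongr
        norm_num

/-- the full bound for one `m`, in terms of the parameters. -/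
theorem sigma_le' (X : Set ℕ) (hX : IsSid X) (XJ XL : Finset ℕ) (hJ : ∀ x ∈ XJ, x ∈ X)
    (hL : ∀ x ∈ XL, x ∈ X) (U : Finset ℕ) (u N m : ℕ) (hNJ : XJ.card ≤ N) (hNL : XL.card ≤ N)
    (hm : ∀ x1 ∈ XJ, ∀ x2 ∈ XJ, x1 + x2 ≤ m) (ρ : ℝ)
    (hρ : ∀ x1 ∈ XJ, ∀ x2 ∈ XJ, wt (m - x1 - x2) ≤ ρ)
    (hU : U.card ≤ u) :
    ∑' i : (PP XJ XL) × ℕ, (if (m - i.1.1.1 - i.1.1.2.1) ∉ U then
      ∏ n ∈ ({m - i.1.1.1 - i.1.1.2.1, i.2, i.2 + (i.1.1.1 - i.1.1.2.2)} : Finset ℕ) \ U, WW n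
      else 0) ≤ ENNReal.ofReal ρ * (N * (CG * ENNReal.ofReal (4 * ((N * N : ℕ) : ℝ) ^
        (489 / 1000 : ℝ)) + (2 * u + 4) *
        (ENNReal.ofReal (6 * ((N * N : ℕ) : ℝ) ^ (244 / 1000 : ℝ)) + u))) := by
  apply sigma_le WW U X hX XJ XL hJ hL u N m hNJ hNL hm
  · intro x1 h1 x2 h2
    exact ENNReal.ofReal_le_ofReal (hρ x1 h1 x2 h2)
  · exact hU
  · intro F hF
    refine le_trans (sum_vv_le U F) ?_
    gcongr
  · intro D hD0 hD
    refine le_trans (sumG_le D hD0) ?_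
    gcongr

end Pool.Agent.SidonThree
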