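import Mathlib
import Pool.Agent.SidonThree.Weights

/-! The hyperedge sum is at most a negative power of `m`. -/

set_option autoImplicit false

open Finset
open scoped ENNReal

namespace Pool.Agent.SidonThree

theorem sigma_asymp (X : Set ℕ) (hX : IsSid X) (C : ℝ) (hC : 1 ≤ C) (u : ℕ) :
    ∃ K1 : ℝ, 0 ≤ K1 ∧ ∀ (m : ℕ) (XJ XL : Finset ℕ), 1 ≤ m → (∀ x ∈ XJ, x ∈ X) →
      (∀ x ∈ XL, x ∈ X) → (XJ.card : ℝ) ≤ C * (m : ℝ) ^ (38 / 100 : ℝ) →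
      (XL.card : ℝ) ≤ C * (m : ℝ) ^ (38 / 100 : ℝ) →
      (∀ x1 ∈ XJ, ∀ x2 ∈ XJ, x1 + x2 ≤ m ∧ m ≤ 4 * (m - x1 - x2)) →
      ∀ U : Finset ℕ, U.card ≤ u →
      ∑' i : (PP XJ XL) × ℕ, (if (m - i.1.1.1 - i.1.1.2.1) ∉ U then
      ∏ n ∈ ({m - i.1.1.1 - i.1.1.2.1, i.2, i.2 + (i.1.1.1 - i.1.1.2.2)} : Finset ℕ) \ U, WW n
      else 0) ≤ ENNReal.ofReal (K1 * (m : ℝ) ^ (-(4 / 1000) : ℝ)) := by
  obtain ⟨cg, hcg⟩ : ∃ cg : ℝ, cg = CG.toReal := ⟨_, rfl⟩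
  have hcg0 : 0 ≤ cg := by rw [hcg]; exact ENNReal.toReal_nonneg
  have hCG : CG = ENNReal.ofReal cg := by
    rw [hcg, ENNReal.ofReal_toReal CG_lt_top.ne]
  have hC0 : 0 ≤ C := by linarith
  refine ⟨4 * C ^ 3 * (4 * cg + (2 * u + 4) * (6 + u)), by positivity, ?_⟩
  intro m XJ XL hm1 hJ hL hNJ hNL hm U hU
  have hm0 : (1 : ℝ) ≤ m := by exact_mod_cast hm1
  have hmpos : (0 : ℝ) < m := by linarith
  set N : ℕ := ⌊C * (m : ℝ) ^ (38 / 100 : ℝ)⌋₊ with hN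
  have hNJ' : XJ.card ≤ N := Nat.le_floor hNJ
  have hNL' : XL.card ≤ N := Nat.le_floor hNL
  have hNle : (N : ℝ) ≤ C * (m : ℝ) ^ (38 / 100 : ℝ) := Nat.floor_le (by positivity)
  have hρ : ∀ x1 ∈ XJ, ∀ x2 ∈ XJ, wt (m - x1 - x2) ≤ 4 * (m : ℝ) ^ (-(756 / 1000) : ℝ) := by
    intro x1 h1 x2 h2
    obtain ⟨h3, h4⟩ := hm x1 h1 x2 h2
    unfold wt
    have h5 : (m : ℝ) / 4 ≤ ((m - x1 - x2 : ℕ) : ℝ) := by
      rw [div_le_iff₀ (by norm_num)]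
      have : (m : ℝ) ≤ ((4 * (m - x1 - x2) : ℕ) : ℝ) := by exact_mod_cast h4
      push_cast at this ⊢
      linarith
    calc ((m - x1 - x2 : ℕ) : ℝ) ^ (-(756 / 1000) : ℝ) ≤ ((m : ℝ) / 4) ^ (-(756 / 1000) : ℝ) := by
          apply Real.rpow_le_rpow_of_nonpos (by positivity) h5 (by norm_num)
      _ = (m : ℝ) ^ (-(756 / 1000) : ℝ) * (4 : ℝ) ^ (756 / 1000 : ℝ) := by
          rw [Real.div_rpow hmpos.le (by norm_num), Real.rpow_neg (by norm_num : (0 : ℝ) ≤ 4),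
            div_inv_eq_mul]
      _ ≤ (m : ℝ) ^ (-(756 / 1000) : ℝ) * (4 : ℝ) ^ (1 : ℝ) := by
          gcongr
          · norm_num
          · norm_num
      _ = 4 * (m : ℝ) ^ (-(756 / 1000) : ℝ) := by rw [Real.rpow_one]; ring
  refine le_trans (sigma_le' X hX XJ XL hJ hL U u N m hNJ' hNL'
    (fun x1 h1 x2 h2 => (hm x1 h1 x2 h2).1) _ hρ hU) ?_
  -- convert everything to reals
  have e1 : (N : ℝ≥0∞) = ENNReal.ofReal (N : ℝ) := by simp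
  have e2 : (u : ℝ≥0∞) = ENNReal.ofReal (u : ℝ) := by simp
  have e3 : (2 * (u : ℝ≥0∞) + 4) = ENNReal.ofReal (2 * (u : ℝ) + 4) := by
    rw [ENNReal.ofReal_add (by positivity) (by norm_num), ENNReal.ofReal_mul (by norm_num)]
    simp
  have e4 : ENNReal.ofReal (6 * ((N * N : ℕ) : ℝ) ^ (244 / 1000 : ℝ)) + (u : ℝ≥0∞) =
      ENNReal.ofReal (6 * ((N * N : ℕ) : ℝ) ^ (244 / 1000 : ℝ) + u) := by
    rw [ENNReal.ofReal_add (by positivity) (by positivity)]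
    simp
  rw [e3, e4, hCG, e1, ← ENNReal.ofReal_mul hcg0, ← ENNReal.ofReal_mul (by positivity),
    ← ENNReal.ofReal_add (by positivity) (by positivity), ← ENNReal.ofReal_mul (by positivity),
    ← ENNReal.ofReal_mul (by positivity)]
  apply ENNReal.ofReal_le_ofReal
  have hNN : ((N * N : ℕ) : ℝ) ≤ C ^ 2 * (m : ℝ) ^ (76 / 100 : ℝ) := by
    push_cast
    calc (N : ℝ) * N ≤ (C * (m : ℝ) ^ (38 / 100 : ℝ)) * (C * (m : ℝ) ^ (38 / 100 : ℝ)) := by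
          gcongr
      _ = C ^ 2 * ((m : ℝ) ^ (38 / 100 : ℝ) * (m : ℝ) ^ (38 / 100 : ℝ)) := by ring
      _ = C ^ 2 * (m : ℝ) ^ (76 / 100 : ℝ) := by
          rw [← Real.rpow_add hmpos]
          norm_num
  have gen : ∀ a : ℝ, 0 ≤ a → a ≤ 489 / 1000 → ((N * N : ℕ) : ℝ) ^ a ≤
      C ^ 2 * (m : ℝ) ^ (372 / 1000 : ℝ) := by
    intro a ha0 ha1
    calc ((N * N : ℕ) : ℝ) ^ a ≤ (C ^ 2 * (m : ℝ) ^ (76 / 100 : ℝ)) ^ a := by gcongr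
      _ = (C ^ 2) ^ a * ((m : ℝ) ^ (76 / 100 : ℝ)) ^ a :=
          Real.mul_rpow (by positivity) (by positivity)
      _ = (C ^ 2) ^ a * (m : ℝ) ^ (76 / 100 * a : ℝ) := by
          rw [← Real.rpow_mul hmpos.le]
      _ ≤ (C ^ 2) ^ (1 : ℝ) * (m : ℝ) ^ (372 / 1000 : ℝ) := by
          gcongr
          · nlinarith
          · linarith
          · linarith
      _ = C ^ 2 * (m : ℝ) ^ (372 / 1000 : ℝ) := by rw [Real.rpow_one]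
  have g1 := gen (489 / 1000) (by norm_num) (by norm_num)
  have g2 := gen (244 / 1000) (by norm_num) (by norm_num)
  have g3 : (u : ℝ) ≤ u * (C ^ 2 * (m : ℝ) ^ (372 / 1000 : ℝ)) := by
    have : (1 : ℝ) ≤ C ^ 2 * (m : ℝ) ^ (372 / 1000 : ℝ) := by
      have h1 : (1 : ℝ) ≤ (m : ℝ) ^ (372 / 1000 : ℝ) := Real.one_le_rpow hm0 (by norm_num)
      nlinarith
    nlinarith [Nat.cast_nonneg (α := ℝ) u]
  set Q : ℝ := C ^ 2 * (m : ℝ) ^ (372 / 1000 : ℝ) with hQ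
  have hQ0 : 0 ≤ Q := by positivity
  calc 4 * (m : ℝ) ^ (-(756 / 1000) : ℝ) * (N * (cg * (4 * ((N * N : ℕ) : ℝ) ^ (489 / 1000 : ℝ)) +
        (2 * u + 4) * (6 * ((N * N : ℕ) : ℝ) ^ (244 / 1000 : ℝ) + u)))
      ≤ 4 * (m : ℝ) ^ (-(756 / 1000) : ℝ) * ((C * (m : ℝ) ^ (38 / 100 : ℝ)) *
        (cg * (4 * Q) + (2 * u + 4) * (6 * Q + u * Q))) := by gcongr
    _ = 4 * C ^ 3 * (4 * cg + (2 * u + 4) * (6 + u)) * ((m : ℝ) ^ (-(756 / 1000) : ℝ) *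
        (m : ℝ) ^ (38 / 100 : ℝ) * (m : ℝ) ^ (372 / 1000 : ℝ)) := by
        rw [hQ]; ring
    _ = 4 * C ^ 3 * (4 * cg + (2 * u + 4) * (6 + u)) * (m : ℝ) ^ (-(4 / 1000) : ℝ) := by
        rw [← Real.rpow_add hmpos, ← Real.rpow_add hmpos]
        norm_num

end Pool.Agent.SidonThree
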