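import Mathlib
import Pool.Agent.SidonThree.Weights

/-! Borel-Cantelli helpers and the Sidon property of the random set. -/

set_option autoImplicit false

open Finset MeasureTheory Filter
open scoped ENNReal

namespace Pool.Agent.SidonThree

theorem tsum_ne_top_aux (f : ℕ → ℝ≥0∞) (hf : ∀ n, f n ≤ 1) (c a : ℝ) (hc : 0 ≤ c) (ha : 1 < a)
    (h : ∀ᶠ n : ℕ in atTop, f n ≤ ENNReal.ofReal (c * (n : ℝ) ^ (-a))) :
    ∑' n, f n ≠ ⊤ := by
  obtain ⟨n0, hn0⟩ := eventually_atTop.1 h
  have h1 : ∀ n, f n ≤ (if n ∈ Finset.range n0 then (1 : ℝ≥0∞) else 0) +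
      ENNReal.ofReal (c * (n : ℝ) ^ (-a)) := by
    intro n
    by_cases hn : n < n0
    · rw [if_pos (Finset.mem_range.2 hn)]
      exact le_trans (hf n) le_self_add
    · exact le_trans (hn0 n (by omega)) le_add_self
  have h2 : ∑' n, f n ≤ ∑' n : ℕ, ((if n ∈ Finset.range n0 then (1 : ℝ≥0∞) else 0) +
      ENNReal.ofReal (c * (n : ℝ) ^ (-a))) := ENNReal.tsum_le_tsum h1
  have h3 : ∑' n : ℕ, (if n ∈ Finset.range n0 then (1 : ℝ≥0∞) else 0) ≠ ⊤ := by
    rw [tsum_eq_sum (s := Finset.range n0) (fun n hn => if_neg hn)]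
    apply ne_of_lt
    apply ENNReal.sum_lt_top.2
    intro n _
    split_ifs <;> simp
  have h4 : ∑' n : ℕ, ENNReal.ofReal (c * (n : ℝ) ^ (-a)) ≠ ⊤ := by
    have hs : Summable (fun n : ℕ => c * (n : ℝ) ^ (-a)) := by
      apply Summable.mul_left
      rw [Real.summable_nat_rpow]
      linarith
    rw [← ENNReal.ofReal_tsum_of_nonneg (fun n => by positivity) hs]
    exact ENNReal.ofReal_ne_top
  apply ne_top_of_le_ne_top _ h2
  rw [ENNReal.tsum_add]
  exact ENNReal.add_ne_top.2 ⟨h3, h4⟩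

/-- the bad event for `N` the second largest element. -/
def EN (N : ℕ) : Set (ℕ → Bool) := {ω | ∃ a b : ℕ, a < b ∧ b ≤ N ∧ ω a = true ∧ ω b = true ∧
  ω N = true ∧ ω (N + b - a) = true}

theorem EN_le (μ : Measure (ℕ → Bool))
    (hμ : ∀ U : Finset ℕ, μ {ω | ∀ n ∈ U, ω n = true} = ∏ n ∈ U, WW n) (N : ℕ) (hN : 1 ≤ N) :
    μ (EN N) ≤ ENNReal.ofReal (156 * (N : ℝ) ^ (-(1024 / 1000) : ℝ)) := by
  classical
  have hNpos : (0 : ℝ) < N := by exact_mod_cast hN
  have hN1 : (1 : ℝ) ≤ N := by exact_mod_cast hN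
  -- union bound
  have hsub : EN N ⊆ ⋃ p ∈ ((Finset.range (N + 1)) ×ˢ (Finset.range (N + 1))).filter
      (fun p => p.1 < p.2), {ω | ω p.1 = true ∧ ω p.2 = true ∧
        ω N = true ∧ ω (N + p.2 - p.1) = true} := by
    intro ω hω
    obtain ⟨a, b, hab, hbN, h1, h2, h3, h4⟩ := hω
    simp only [Set.mem_iUnion]
    refine ⟨(a, b), ?_, h1, h2, h3, h4⟩
    simp only [Finset.mem_filter, Finset.mem_product, Finset.mem_range]
    omega
  have hterm : ∀ p ∈ ((Finset.range (N + 1)) ×ˢ (Finset.range (N + 1))).filter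
      (fun p => p.1 < p.2), μ {ω | ω p.1 = true ∧ ω p.2 = true ∧
        ω N = true ∧ ω (N + p.2 - p.1) = true} ≤
        WW N * WW N * (WW p.1 * (WW p.2 + if p.2 = N then 1 else 0)) := by
    rintro ⟨a, b⟩ hp
    simp only [Finset.mem_filter, Finset.mem_product, Finset.mem_range] at hp
    simp only
    have hmono : WW (N + b - a) ≤ WW N := ENNReal.ofReal_le_ofReal (wt_anti (by omega) (by omega))
    by_cases hb : b = N
    · have : {ω : ℕ → Bool | ω a = true ∧ ω b = true ∧ ω N = true ∧ ω (N + b - a) = true} ⊆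
          {ω | ∀ n ∈ ({a, N, N + b - a} : Finset ℕ), ω n = true} := by
        intro ω hω
        simp only [Set.mem_ofPred_eq, Finset.mem_insert, Finset.mem_singleton] at hω ⊢
        rintro n (rfl | rfl | rfl)
        · exact hω.1
        · exact hω.2.2.1
        · exact hω.2.2.2
      refine le_trans (measure_mono this) ?_
      rw [hμ, Finset.prod_insert, Finset.prod_insert, Finset.prod_singleton]
      · rw [if_pos hb]
        calc WW a * (WW N * WW (N + b - a)) ≤ WW a * (WW N * WW N) := by gcongr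
          _ = WW N * WW N * (WW a * 1) := by ring
          _ ≤ _ := by gcongr; exact le_add_self
      · simp only [Finset.mem_singleton]; omega
      · simp only [Finset.mem_insert, Finset.mem_singleton]; omega
    · have : {ω : ℕ → Bool | ω a = true ∧ ω b = true ∧ ω N = true ∧ ω (N + b - a) = true} ⊆
          {ω | ∀ n ∈ ({a, b, N, N + b - a} : Finset ℕ), ω n = true} := by
        intro ω hω
        simp only [Set.mem_ofPred_eq, Finset.mem_insert, Finset.mem_singleton] at hω ⊢
        rintro n (rfl | rfl | rfl | rfl)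
        · exact hω.1
        · exact hω.2.1
        · exact hω.2.2.1
        · exact hω.2.2.2
      refine le_trans (measure_mono this) ?_
      rw [hμ, Finset.prod_insert, Finset.prod_insert, Finset.prod_insert, Finset.prod_singleton]
      · rw [if_neg hb]
        calc WW a * (WW b * (WW N * WW (N + b - a))) ≤ WW a * (WW b * (WW N * WW N)) := by gcongr
          _ = WW N * WW N * (WW a * (WW b + 0)) := by ring
      · simp only [Finset.mem_singleton]; omega
      · simp only [Finset.mem_insert, Finset.mem_singleton]; omega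
      · simp only [Finset.mem_insert, Finset.mem_singleton]; omega
  have hS : ∑ n ∈ Finset.range (N + 1), WW n ≤ ENNReal.ofReal (12 * (N : ℝ) ^ (244 / 1000 : ℝ)) := by
    refine le_trans (sum_WW_le _) ?_
    apply ENNReal.ofReal_le_ofReal
    rw [Finset.card_range]
    have : (((N + 1 : ℕ) : ℝ)) ^ (244 / 1000 : ℝ) ≤ 2 * (N : ℝ) ^ (244 / 1000 : ℝ) := by
      calc (((N + 1 : ℕ) : ℝ)) ^ (244 / 1000 : ℝ) ≤ (2 * (N : ℝ)) ^ (244 / 1000 : ℝ) := by
            gcongr
            push_cast; linarith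
        _ = (2 : ℝ) ^ (244 / 1000 : ℝ) * (N : ℝ) ^ (244 / 1000 : ℝ) :=
            Real.mul_rpow (by norm_num) hNpos.le
        _ ≤ (2 : ℝ) ^ (1 : ℝ) * (N : ℝ) ^ (244 / 1000 : ℝ) := by
            gcongr
            · norm_num
            · norm_num
        _ = _ := by rw [Real.rpow_one]
    linarith
  have hS2 : ∑ n ∈ Finset.range (N + 1), (WW n + if n = N then 1 else 0) ≤
      ENNReal.ofReal (13 * (N : ℝ) ^ (244 / 1000 : ℝ)) := by
    rw [Finset.sum_add_distrib, Finset.sum_ite_eq', if_pos (by simp)]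
    calc _ ≤ ENNReal.ofReal (12 * (N : ℝ) ^ (244 / 1000 : ℝ)) + ENNReal.ofReal 1 := by
          gcongr; simp
      _ = ENNReal.ofReal (12 * (N : ℝ) ^ (244 / 1000 : ℝ) + 1) := by
          rw [ENNReal.ofReal_add (by positivity) (by norm_num)]
      _ ≤ _ := by
          apply ENNReal.ofReal_le_ofReal
          have : (1 : ℝ) ≤ (N : ℝ) ^ (244 / 1000 : ℝ) := Real.one_le_rpow hN1 (by norm_num)
          linarith
  calc μ (EN N) ≤ μ (⋃ p ∈ ((Finset.range (N + 1)) ×ˢ (Finset.range (N + 1))).filter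
      (fun p => p.1 < p.2), {ω | ω p.1 = true ∧ ω p.2 = true ∧
        ω N = true ∧ ω (N + p.2 - p.1) = true}) := measure_mono hsub
    _ ≤ ∑ p ∈ ((Finset.range (N + 1)) ×ˢ (Finset.range (N + 1))).filter
      (fun p => p.1 < p.2), μ {ω | ω p.1 = true ∧ ω p.2 = true ∧
        ω N = true ∧ ω (N + p.2 - p.1) = true} := measure_biUnion_finset_le _ _
    _ ≤ ∑ p ∈ ((Finset.range (N + 1)) ×ˢ (Finset.range (N + 1))).filter
      (fun p => p.1 < p.2), WW N * WW N * (WW p.1 * (WW p.2 + if p.2 = N then 1 else 0)) :=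
        Finset.sum_le_sum hterm
    _ ≤ ∑ p ∈ ((Finset.range (N + 1)) ×ˢ (Finset.range (N + 1))),
        WW N * WW N * (WW p.1 * (WW p.2 + if p.2 = N then 1 else 0)) :=
        Finset.sum_le_sum_of_subset (Finset.filter_subset _ _)
    _ = WW N * WW N * ((∑ n ∈ Finset.range (N + 1), WW n) *
        ∑ n ∈ Finset.range (N + 1), (WW n + if n = N then 1 else 0)) := by
        rw [← Finset.mul_sum, Finset.sum_mul_sum, Finset.sum_product]
    _ ≤ WW N * WW N * (ENNReal.ofReal (12 * (N : ℝ) ^ (244 / 1000 : ℝ)) *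
        ENNReal.ofReal (13 * (N : ℝ) ^ (244 / 1000 : ℝ))) := by gcongr
    _ = ENNReal.ofReal (156 * (N : ℝ) ^ (-(1024 / 1000) : ℝ)) := by
        unfold WW
        rw [← ENNReal.ofReal_mul (wt_nonneg _), ← ENNReal.ofReal_mul (by positivity),
          ← ENNReal.ofReal_mul (mul_nonneg (wt_nonneg _) (wt_nonneg _))]
        congr 1
        unfold wt
        calc (N : ℝ) ^ (-(756 / 1000) : ℝ) * (N : ℝ) ^ (-(756 / 1000) : ℝ) *
            (12 * (N : ℝ) ^ (244 / 1000 : ℝ) * (13 * (N : ℝ) ^ (244 / 1000 : ℝ)))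
            = 156 * ((N : ℝ) ^ (-(756 / 1000) : ℝ) * (N : ℝ) ^ (-(756 / 1000) : ℝ) *
              (N : ℝ) ^ (244 / 1000 : ℝ) * (N : ℝ) ^ (244 / 1000 : ℝ)) := by ring
          _ = _ := by
            rw [← Real.rpow_add hNpos, ← Real.rpow_add hNpos, ← Real.rpow_add hNpos]
            norm_num

theorem ae_EN (μ : Measure (ℕ → Bool)) [IsProbabilityMeasure μ]
    (hμ : ∀ U : Finset ℕ, μ {ω | ∀ n ∈ U, ω n = true} = ∏ n ∈ U, WW n) :
    ∀ᵐ ω ∂μ, ∀ᶠ N : ℕ in atTop, ω ∉ EN N := by
  apply ae_eventually_notMem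
  apply tsum_ne_top_aux _ (fun n => prob_le_one) 156 (1024 / 1000) (by norm_num) (by norm_num)
  filter_upwards [eventually_ge_atTop 1] with N hN
  exact EN_le μ hμ N hN

/-- consequence: the random set is Sidon from some point on. -/
theorem sidon_of_EN (ω : ℕ → Bool) (n0 : ℕ) (h : ∀ N, n0 ≤ N → ω ∉ EN N) :
    IsSid {n | ω n = true ∧ n0 ≤ n} := by
  have key : ∀ t1 t2 t3 t4 : ℕ, (ω t1 = true ∧ n0 ≤ t1) → (ω t2 = true ∧ n0 ≤ t2) →
      (ω t3 = true ∧ n0 ≤ t3) → (ω t4 = true ∧ n0 ≤ t4) → t1 + t2 = t3 + t4 →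
      t3 < t1 → t4 ≤ t3 → False := by
    intro t1 t2 t3 t4 h1 h2 h3 h4 hs h31 h43
    apply h t3 h3.2
    refine ⟨t2, t4, by omega, h43, h2.1, h4.1, h3.1, ?_⟩
    have : t3 + t4 - t2 = t1 := by omega
    rw [this]
    exact h1.1
  intro a ha b hb c hc d hd hs
  simp only [Set.mem_ofPred_eq] at ha hb hc hd
  by_contra hcon
  have hac : a ≠ c := fun e => hcon (Or.inl ⟨e, by omega⟩)
  have had : a ≠ d := fun e => hcon (Or.inr ⟨e, by omega⟩)
  -- order cases
  rcases le_total c d with hcd | hcd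
  · rcases lt_or_gt_of_ne had with h1 | h1
    · -- a < d ; then b > c
      rcases le_total a b with hab | hab
      · -- b is the max of a,b.
        rcases lt_trichotomy b d with h2 | h2 | h2
        · -- d max
          exact key d c b a hd hc hb ha (by omega) h2 hab
        · exact hcon (Or.inl ⟨by omega, h2⟩)
        · exact key b a d c hb ha hd hc (by omega) h2 hcd
      · exact key d c a b hd hc ha hb (by omega) h1 hab
    · exact key a b d c ha hb hd hc (by omega) h1 hcd
  · rcases lt_or_gt_of_ne hac with h1 | h1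
    · rcases le_total a b with hab | hab
      · rcases lt_trichotomy b c with h2 | h2 | h2
        · exact key c d b a hc hd hb ha (by omega) h2 hab
        · exact hcon (Or.inr ⟨by omega, h2⟩)
        · exact key b a c d hb ha hc hd (by omega) h2 hcd
      · exact key c d a b hc hd ha hb (by omega) h1 hab
    · exact key a b c d ha hb hc hd (by omega) h1 hcd

end Pool.Agent.SidonThree
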