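import Mathlib

/-! Random subsets of the naturals with independent inclusion, chains and tails. -/

set_option autoImplicit false

open MeasureTheory Finset
open scoped ENNReal

namespace Pool.Agent.SidonThree

/-- Bernoulli measure on `Bool` with probability `p` of `true`. -/
noncomputable def bm (p : ℝ) : Measure Bool :=
  ENNReal.ofReal p • Measure.dirac true + ENNReal.ofReal (1 - p) • Measure.dirac false

theorem bm_prob {p : ℝ} (h0 : 0 ≤ p) (h1 : p ≤ 1) : IsProbabilityMeasure (bm p) := by
  constructor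
  simp only [bm, Measure.coe_add, Measure.coe_smul, Pi.add_apply, Pi.smul_apply, measure_univ,
    smul_eq_mul, mul_one]
  rw [← ENNReal.ofReal_add h0 (by linarith)]
  simp

theorem bm_true (p : ℝ) : bm p {true} = ENNReal.ofReal p := by
  simp [bm]

theorem bm_false (p : ℝ) : bm p {false} = ENNReal.ofReal (1 - p) := by
  simp [bm]

/-- Independent random subsets exist. -/
theorem exists_random (w : ℕ → ℝ) (h0 : ∀ n, 0 ≤ w n) (h1 : ∀ n, w n ≤ 1) :
    ∃ μ : Measure (ℕ → Bool), IsProbabilityMeasure μ ∧
      (∀ U : Finset ℕ, μ {ω | ∀ n ∈ U, ω n = true} = ∏ n ∈ U, ENNReal.ofReal (w n)) ∧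
      (∀ U : Finset ℕ, μ {ω | ∀ n ∈ U, ω n = false} = ∏ n ∈ U, ENNReal.ofReal (1 - w n)) := by
  haveI : ∀ n, IsProbabilityMeasure (bm (w n)) := fun n => bm_prob (h0 n) (h1 n)
  refine ⟨Measure.infinitePi (fun n => bm (w n)), inferInstance, ?_, ?_⟩
  · intro U
    have h : {ω : ℕ → Bool | ∀ n ∈ U, ω n = true} = Set.pi (U : Set ℕ) (fun _ => {true}) := by
      ext ω
      simp [Set.mem_pi]
    rw [h, Measure.infinitePi_pi _ (fun i _ => MeasurableSet.singleton _)]
    exact Finset.prod_congr rfl (fun n _ => bm_true _)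
  · intro U
    have h : {ω : ℕ → Bool | ∀ n ∈ U, ω n = false} = Set.pi (U : Set ℕ) (fun _ => {false}) := by
      ext ω
      simp [Set.mem_pi]
    rw [h, Measure.infinitePi_pi _ (fun i _ => MeasurableSet.singleton _)]
    exact Finset.prod_congr rfl (fun n _ => bm_false _)

section Chain

variable {ι : Type*} (e : ι → Finset ℕ) (r : ι → ℕ)

open Classical in
/-- chains of realised hyperedges -/
noncomputable def Chain : ℕ → Finset ℕ → Set (ℕ → Bool)
  | 0, U => {ω | ∀ n ∈ U, ω n = true}
  | k + 1, U => ⋃ i : ι, (if r i ∉ U then Chain k (U ∪ e i) else ∅)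

theorem mem_Chain_of_many (hc : ∀ i, (e i).card ≤ 3) (ω : ℕ → Bool) :
    ∀ (k : ℕ) (U : Finset ℕ), (∀ n ∈ U, ω n = true) →
      ∀ R : Finset ℕ, U.card + 3 * k ≤ R.card →
        (∀ ρ ∈ R, ∃ i, r i = ρ ∧ ∀ n ∈ e i, ω n = true) → ω ∈ Chain e r k U := by
  classical
  intro k
  induction k with
  | zero => intro U hU R _ _; exact hU
  | succ k ih =>
    intro U hU R hcard hR
    have : ∃ ρ ∈ R, ρ ∉ U := by
      by_contra hcon
      push Not at hcon
      have := Finset.card_le_card (show R ⊆ U from hcon)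
      omega
    obtain ⟨ρ, hρR, hρU⟩ := this
    obtain ⟨i, hi, hei⟩ := hR ρ hρR
    simp only [Chain, Set.mem_iUnion]
    refine ⟨i, ?_⟩
    rw [if_pos (by rw [hi]; exact hρU)]
    apply ih (U ∪ e i) _ R _ hR
    · intro n hn
      rcases Finset.mem_union.1 hn with h | h
      · exact hU n h
      · exact hei n h
    · have h1 := Finset.card_union_le U (e i)
      have h2 := hc i
      omega

theorem Chain_le [Countable ι] (μ : Measure (ℕ → Bool)) (W : ℕ → ℝ≥0∞)
    (hμ : ∀ U : Finset ℕ, μ {ω | ∀ n ∈ U, ω n = true} = ∏ n ∈ U, W n)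
    (hc : ∀ i, (e i).card ≤ 3) (u : ℕ) (σ : ℝ≥0∞)
    (hσ : ∀ U : Finset ℕ, U.card ≤ u →
      ∑' i : ι, (if r i ∉ U then ∏ n ∈ e i \ U, W n else 0) ≤ σ) :
    ∀ (k : ℕ) (U : Finset ℕ), U.card + 3 * k ≤ u + 3 →
      μ (Chain e r k U) ≤ (∏ n ∈ U, W n) * σ ^ k := by
  classical
  intro k
  induction k with
  | zero => intro U _; simp [Chain, hμ U]
  | succ k ih =>
    intro U hcard
    calc μ (Chain e r (k + 1) U)
        ≤ ∑' i : ι, μ (if r i ∉ U then Chain e r k (U ∪ e i) else ∅) := by
          simp only [Chain]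
          exact measure_iUnion_le _
      _ ≤ ∑' i : ι, (∏ n ∈ U, W n) * σ ^ k * (if r i ∉ U then ∏ n ∈ e i \ U, W n else 0) := by
          apply ENNReal.tsum_le_tsum
          intro i
          by_cases h : r i ∉ U
          · rw [if_pos h, if_pos h]
            have h1 := Finset.card_union_le U (e i)
            have h2 := hc i
            refine le_trans (ih (U ∪ e i) (by omega)) ?_
            have h3 : ∏ n ∈ U ∪ e i, W n = (∏ n ∈ U, W n) * ∏ n ∈ e i \ U, W n := by
              rw [← Finset.union_sdiff_self_eq_union,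
                Finset.prod_union Finset.disjoint_sdiff]
            rw [h3]
            apply le_of_eq
            ring
          · rw [if_neg h, if_neg h]
            simp
      _ = (∏ n ∈ U, W n) * σ ^ k * ∑' i : ι, (if r i ∉ U then ∏ n ∈ e i \ U, W n else 0) := by
          rw [ENNReal.tsum_mul_left]
      _ ≤ (∏ n ∈ U, W n) * σ ^ k * σ := by
          gcongr
          exact hσ U (by omega)
      _ = (∏ n ∈ U, W n) * σ ^ (k + 1) := by ring

end Chain

/-- few hits in a large finite set are unlikely. -/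
theorem few_hits (μ : Measure (ℕ → Bool)) (w : ℕ → ℝ)
    (hμ : ∀ U : Finset ℕ, μ {ω | ∀ n ∈ U, ω n = false} = ∏ n ∈ U, ENNReal.ofReal (1 - w n))
    (ρ : ℝ) (g : ℕ) :
    ∀ (k : ℕ) (R : Finset ℕ), (∀ n ∈ R, ρ ≤ w n) → k * g ≤ R.card →
      μ {ω | (R.filter (fun n => ω n = true)).card < k} ≤ k * (ENNReal.ofReal (1 - ρ)) ^ g := by
  classical
  intro k
  induction k with
  | zero =>
    intro R _ _
    simp
  | succ k ih =>
    intro R hw hcard
    have hg : g ≤ R.card := by
      calc g ≤ (k + 1) * g := Nat.le_mul_of_pos_left g (Nat.succ_pos k)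
        _ ≤ R.card := hcard
    obtain ⟨G, hGR, hG⟩ := Finset.exists_subset_card_eq hg
    have h1 : k * g ≤ (R \ G).card := by
      rw [Finset.card_sdiff_of_subset hGR, hG]
      have : (k + 1) * g = k * g + g := by ring
      omega
    have h2 : {ω : ℕ → Bool | (R.filter (fun n => ω n = true)).card < k + 1} ⊆
        {ω | ∀ n ∈ G, ω n = false} ∪
        {ω | ((R \ G).filter (fun n => ω n = true)).card < k} := by
      intro ω hω
      simp only [Set.mem_setOf_eq, Set.mem_union] at hω ⊢
      by_contra hcon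
      push Not at hcon
      obtain ⟨⟨n, hn, hωn⟩, h3⟩ := hcon
      have h4 : insert n ((R \ G).filter (fun n => ω n = true)) ⊆
          R.filter (fun n => ω n = true) := by
        intro x hx
        rcases Finset.mem_insert.1 hx with rfl | hx
        · simp only [Finset.mem_filter]
          refine ⟨hGR hn, ?_⟩
          simpa using hωn
        · simp only [Finset.mem_filter, Finset.mem_sdiff] at hx ⊢
          exact ⟨hx.1.1, hx.2⟩
      have h5 := Finset.card_le_card h4
      rw [Finset.card_insert_of_notMem] at h5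
      · omega
      · simp only [Finset.mem_filter, Finset.mem_sdiff, not_and, not_not]
        intro hx
        exact absurd hn hx.2
    calc μ {ω | (R.filter (fun n => ω n = true)).card < k + 1}
        ≤ μ ({ω | ∀ n ∈ G, ω n = false} ∪
          {ω | ((R \ G).filter (fun n => ω n = true)).card < k}) := measure_mono h2
      _ ≤ μ {ω | ∀ n ∈ G, ω n = false} +
          μ {ω | ((R \ G).filter (fun n => ω n = true)).card < k} := measure_union_le _ _
      _ ≤ (ENNReal.ofReal (1 - ρ)) ^ g + k * (ENNReal.ofReal (1 - ρ)) ^ g := by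
          gcongr
          · rw [hμ G, ← hG]
            apply Finset.prod_le_pow_card
            intro n hn
            apply ENNReal.ofReal_le_ofReal
            have := hw n (hGR hn)
            linarith
          · exact ih (R \ G) (fun n hn => hw n (Finset.mem_sdiff.1 hn).1) h1
      _ = ((k + 1 : ℕ) : ℝ≥0∞) * (ENNReal.ofReal (1 - ρ)) ^ g := by
          push_cast
          ring

end Pool.Agent.SidonThree
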