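import Mathlib
import Pool.Agent.SidonThree.Random
import Pool.Agent.SidonThree.BC
import Pool.Agent.SidonThree.Asymp

/-! Almost sure statements: many realised roots, few conflicts. -/

set_option autoImplicit false

open Finset MeasureTheory Filter
open scoped ENNReal

namespace Pool.Agent.SidonThree

theorem ae_hits (μ : Measure (ℕ → Bool)) [IsProbabilityMeasure μ]
    (hμ : ∀ U : Finset ℕ, μ {ω | ∀ n ∈ U, ω n = false} = ∏ n ∈ U, ENNReal.ofReal (1 - wt n))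
    (R : ℕ → Finset ℕ) (k : ℕ) (hk : 0 < k)
    (hR : ∀ᶠ m : ℕ in atTop, (∀ r ∈ R m, 0 < r ∧ r ≤ m) ∧
      (m : ℝ) ^ (757 / 1000 : ℝ) ≤ (R m).card) :
    ∀ᵐ ω ∂μ, ∀ᶠ m : ℕ in atTop, k ≤ ((R m).filter (fun n => ω n = true)).card := by
  have hk' : (0 : ℝ) < k := by exact_mod_cast hk
  have h : ∀ᵐ ω ∂μ, ∀ᶠ m : ℕ in atTop,
      ω ∉ {ω : ℕ → Bool | ((R m).filter (fun n => ω n = true)).card < k} := by
    apply ae_eventually_notMem
    apply tsum_ne_top_aux _ (fun n => prob_le_one) (k * Real.exp 1) 2 (by positivity)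
      (by norm_num)
    have hlit : ∀ᶠ m : ℕ in atTop, Real.exp (-(1 / (k : ℝ)) * (m : ℝ) ^ (1 / 1000 : ℝ)) ≤
        (m : ℝ) ^ (-2 : ℝ) := by
      have h1 := (isLittleO_exp_neg_mul_rpow_atTop (a := 1 / (k : ℝ)) (by positivity)
        (-2000)).bound (c := 1) one_pos
      have h2 : Tendsto (fun m : ℕ => (m : ℝ) ^ (1 / 1000 : ℝ)) atTop atTop :=
        (tendsto_rpow_atTop (by norm_num)).comp tendsto_natCast_atTop_atTop
      filter_upwards [h2.eventually h1] with m hm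
      rw [Real.norm_of_nonneg (Real.exp_pos _).le, Real.norm_of_nonneg (by positivity), one_mul,
        ← Real.rpow_mul (by positivity)] at hm
      norm_num at hm ⊢
      exact hm
    filter_upwards [hR, hlit, eventually_ge_atTop 1] with m hm hlm hm1
    obtain ⟨hm2, hm3⟩ := hm
    have hmpos : (0 : ℝ) < m := by exact_mod_cast hm1
    set ρ : ℝ := (m : ℝ) ^ (-(756 / 1000) : ℝ) with hρ
    have hρ0 : 0 < ρ := by positivity
    have hρ1 : ρ ≤ 1 := wt_le_one m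
    set g : ℕ := (R m).card / k with hg
    have h1 := few_hits μ wt hμ ρ g k (R m) (fun n hn => wt_anti (hm2 n hn).1 (hm2 n hn).2)
      (Nat.mul_div_le _ _)
    refine le_trans h1 ?_
    have h3 : (k : ℝ≥0∞) * ENNReal.ofReal (1 - ρ) ^ g = ENNReal.ofReal (k * (1 - ρ) ^ g) := by
      rw [ENNReal.ofReal_mul (by positivity), ENNReal.ofReal_pow (by linarith)]
      simp
    rw [h3]
    apply ENNReal.ofReal_le_ofReal
    have h4 : (1 - ρ) ^ g ≤ Real.exp (-ρ * g) := by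
      calc (1 - ρ) ^ g ≤ (Real.exp (-ρ)) ^ g := by
            apply pow_le_pow_left₀ (by linarith)
            have := Real.add_one_le_exp (-ρ)
            linarith
        _ = Real.exp (-ρ * g) := by rw [← Real.exp_nat_mul]; ring_nf
    have h5 : (m : ℝ) ^ (757 / 1000 : ℝ) / k - 1 ≤ g := by
      have : ((R m).card : ℝ) < k * (g + 1) := by
        have := Nat.lt_mul_div_succ (R m).card hk
        rw [← hg] at this
        exact_mod_cast this
      have h6 : (m : ℝ) ^ (757 / 1000 : ℝ) / k < g + 1 := by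
        rw [div_lt_iff₀ hk']
        linarith
      linarith
    have h6 : -ρ * g ≤ -(1 / (k : ℝ)) * (m : ℝ) ^ (1 / 1000 : ℝ) + 1 := by
      have h7 : ρ * (m : ℝ) ^ (757 / 1000 : ℝ) = (m : ℝ) ^ (1 / 1000 : ℝ) := by
        rw [hρ, ← Real.rpow_add hmpos]; norm_num
      have h8 : ρ * ((m : ℝ) ^ (757 / 1000 : ℝ) / k - 1) ≤ ρ * g := by gcongr
      have h9 : ρ * ((m : ℝ) ^ (757 / 1000 : ℝ) / k - 1) =
          1 / (k : ℝ) * (m : ℝ) ^ (1 / 1000 : ℝ) - ρ := by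
        rw [← h7]; ring
      linarith
    calc (k : ℝ) * (1 - ρ) ^ g ≤ k * Real.exp (-ρ * g) := by gcongr
      _ ≤ k * Real.exp (-(1 / (k : ℝ)) * (m : ℝ) ^ (1 / 1000 : ℝ) + 1) := by gcongr
      _ = k * Real.exp 1 * Real.exp (-(1 / (k : ℝ)) * (m : ℝ) ^ (1 / 1000 : ℝ)) := by
          rw [Real.exp_add]; ring
      _ ≤ k * Real.exp 1 * (m : ℝ) ^ (-2 : ℝ) := by gcongr
  filter_upwards [h] with ω hω
  filter_upwards [hω] with m hm
  simp only [Set.mem_ofPred_eq, not_lt] at hm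
  exact hm

/-- root of a hyperedge -/
def rt (m : ℕ) {XJ XL : Finset ℕ} (i : (PP XJ XL) × ℕ) : ℕ := m - i.1.1.1 - i.1.1.2.1

/-- vertex set of a hyperedge -/
def ed (m : ℕ) {XJ XL : Finset ℕ} (i : (PP XJ XL) × ℕ) : Finset ℕ :=
  {m - i.1.1.1 - i.1.1.2.1, i.2, i.2 + (i.1.1.1 - i.1.1.2.2)}

theorem ae_conf (μ : Measure (ℕ → Bool)) [IsProbabilityMeasure μ]
    (hμ : ∀ U : Finset ℕ, μ {ω | ∀ n ∈ U, ω n = true} = ∏ n ∈ U, WW n)
    (X : Set ℕ) (hX : IsSid X) (C : ℝ) (hC : 1 ≤ C) (XJ XL : ℕ → Finset ℕ)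
    (h : ∀ᶠ m : ℕ in atTop, (∀ x ∈ XJ m, x ∈ X) ∧
      (∀ x ∈ XL m, x ∈ X) ∧ ((XJ m).card : ℝ) ≤ C * (m : ℝ) ^ (38 / 100 : ℝ) ∧
      ((XL m).card : ℝ) ≤ C * (m : ℝ) ^ (38 / 100 : ℝ) ∧
      (∀ x1 ∈ XJ m, ∀ x2 ∈ XJ m, x1 + x2 ≤ m ∧ m ≤ 4 * (m - x1 - x2))) :
    ∀ᵐ ω ∂μ, ∀ᶠ m : ℕ in atTop,
      ω ∉ Chain (ed m) (rt m (XJ := XJ m) (XL := XL m)) 500 ∅ := by
  classical
  obtain ⟨K1, hK1, hσ⟩ := sigma_asymp X hX C hC 1500
  apply ae_eventually_notMem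
  apply tsum_ne_top_aux _ (fun n => prob_le_one) (K1 ^ 500) 2 (by positivity) (by norm_num)
  filter_upwards [h, eventually_ge_atTop 1] with m hm hm1
  obtain ⟨h1, h2, h3, h4, h5⟩ := hm
  have hmpos : (0 : ℝ) < m := by exact_mod_cast hm1
  have h6 := Chain_le (ed m) (rt m (XJ := XJ m) (XL := XL m)) μ WW hμ
    (fun i => Finset.card_le_three) 1500 (ENNReal.ofReal (K1 * (m : ℝ) ^ (-(4 / 1000) : ℝ)))
    (fun U hU => hσ m (XJ m) (XL m) hm1 h1 h2 h3 h4 h5 U hU) 500 ∅ (by simp)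
  refine le_trans h6 ?_
  rw [Finset.prod_empty, one_mul, ← ENNReal.ofReal_pow (by positivity)]
  apply ENNReal.ofReal_le_ofReal
  rw [mul_pow]
  apply le_of_eq
  congr 1
  rw [← Real.rpow_natCast, ← Real.rpow_mul hmpos.le]
  norm_num

end Pool.Agent.SidonThree
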