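import Mathlib
import Pool.Agent.SidonThree.Markers
import Pool.Agent.SidonThree.Prob

/-! From a dense locally abundant Sidon set to a Sidon basis with almost equal summands. -/

set_option autoImplicit false

open Finset MeasureTheory Filter
open scoped ENNReal

namespace Pool.Agent.SidonThree

/-- The exponent for the window. -/
noncomputable def th : ℝ := 9999 / 10000

/-- What we need from the dense Sidon set. -/
structure Good (X : Set ℕ) : Prop where
  sid : IsSid X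
  res : ∀ x ∈ X, x % mM ∈ LX
  up : ∃ C : ℝ, 1 ≤ C ∧ ∀ y : ℕ, 1 ≤ y → ∀ F : Finset ℕ, (∀ x ∈ F, x ∈ X ∧ x ≤ y) →
    (F.card : ℝ) ≤ C * (y : ℝ) ^ (38 / 100 : ℝ)
  loc : ∀ a ∈ LX, ∀ᶠ y : ℕ in atTop, ∃ F : Finset ℕ,
    (∀ x ∈ F, x ∈ X ∧ x % mM = a ∧ y ≤ x ∧ (x : ℝ) ≤ y + (y : ℝ) ^ th) ∧
    (y : ℝ) ^ (379 / 1000 : ℝ) ≤ F.card

/-- base point of the window -/
def yy (m : ℕ) : ℕ := m / 3 + 1

open Classical in
/-- window elements -/
noncomputable def XJ (X : Set ℕ) (m : ℕ) : Finset ℕ :=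
  (Finset.range (m + 1)).filter (fun x => x ∈ X ∧ yy m ≤ x ∧ (x : ℝ) ≤ yy m + (yy m : ℝ) ^ th)

open Classical in
/-- all elements up to `m` -/
noncomputable def XL (X : Set ℕ) (m : ℕ) : Finset ℕ :=
  (Finset.range (m + 1)).filter (fun x => x ∈ X)

theorem tendsto_yy : Tendsto yy atTop atTop := by
  apply tendsto_atTop_mono (f := fun m => m / 3) (fun m => by unfold yy; omega)
  exact Nat.tendsto_div_const_atTop (by norm_num)

/-- the window length is eventually small. -/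
theorem ev_small : ∀ᶠ m : ℕ in atTop, 1 + (yy m : ℝ) ^ th ≤ (m : ℝ) / 100 := by
  have h1 : Tendsto (fun m : ℕ => (m : ℝ) ^ (1 / 10000 : ℝ)) atTop atTop :=
    (tendsto_rpow_atTop (by norm_num)).comp tendsto_natCast_atTop_atTop
  filter_upwards [h1.eventually_ge_atTop 200, eventually_ge_atTop 1000] with m hm1 hm2
  have hm : (1000 : ℝ) ≤ m := by exact_mod_cast hm2
  have hmpos : (0 : ℝ) < m := by linarith
  have h2 : (yy m : ℝ) ≤ m := by
    have : yy m ≤ m := by unfold yy; omega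
    exact_mod_cast this
  have h3 : (yy m : ℝ) ^ th ≤ (m : ℝ) ^ th := by
    apply Real.rpow_le_rpow (by positivity) h2
    unfold th; norm_num
  have h4 : (m : ℝ) ^ th * (m : ℝ) ^ (1 / 10000 : ℝ) = m := by
    rw [← Real.rpow_add hmpos]
    unfold th
    norm_num
  have h5 : 0 < (m : ℝ) ^ th := by positivity
  nlinarith

theorem ev_window (X : Set ℕ) : ∀ᶠ m : ℕ in atTop, ∀ x1 ∈ XJ X m, ∀ x2 ∈ XJ X m,
    x1 + x2 ≤ m ∧ m ≤ 4 * (m - x1 - x2) := by
  filter_upwards [ev_small, eventually_ge_atTop 1000] with m hm hm2 x1 h1 x2 h2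
  simp only [XJ, Finset.mem_filter, Finset.mem_range] at h1 h2
  have hm3 : (1000 : ℝ) ≤ m := by exact_mod_cast hm2
  have h3 : (yy m : ℝ) ≤ m / 3 + 1 := by
    unfold yy
    push_cast
    have : ((m / 3 : ℕ) : ℝ) ≤ (m : ℝ) / 3 := Nat.cast_div_le
    linarith
  have h4 : (x1 : ℝ) + x2 ≤ 3 * m / 4 := by
    have := h1.2.2.2
    have := h2.2.2.2
    linarith
  have h5 : 4 * (x1 + x2) ≤ 3 * m := by
    have : (4 : ℝ) * (x1 + x2) ≤ 3 * m := by linarith
    exact_mod_cast this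
  omega

theorem main_of_good (X : Set ℕ) (hg : Good X) :
    ∃ S : Set ℕ, S.Infinite ∧
        (∀ a ∈ S, ∀ b ∈ S, ∀ c ∈ S, ∀ d ∈ S,
          a + b = c + d → (a = c ∧ b = d) ∨ (a = d ∧ b = c)) ∧
        ∃ C : ℝ, 0 < C ∧ ∃ N : ℕ, ∀ m : ℕ, N ≤ m →
          ∃ s₁ ∈ S, ∃ s₂ ∈ S, ∃ s₃ ∈ S,
            s₁ + s₂ + s₃ = m ∧
            |(s₁ : ℝ) - (m : ℝ) / 3| ≤ C * (m : ℝ) ^ th ∧
            |(s₂ : ℝ) - (m : ℝ) / 3| ≤ C * (m : ℝ) ^ th ∧
            |(s₃ : ℝ) - (m : ℝ) / 3| ≤ C * (m : ℝ) ^ th := by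
  classical
  obtain ⟨C, hC, hup⟩ := hg.up
  -- residues
  have hcov : ∀ m : ℕ, ∃ p : ℕ × ℕ × ℕ, p.1 ∈ LX ∧ p.2.1 ∈ LX ∧ p.2.2 ∈ LT ∧
      (p.1 + p.2.1 + p.2.2) % mM = m % mM := by
    intro m
    obtain ⟨a, ha, b, hb, c, hc, h⟩ := cover (m % mM) (Nat.mod_lt _ (by unfold mM; norm_num))
    exact ⟨(a, b, c), ha, hb, hc, h⟩
  choose p hpa hpb hpc hp using hcov
  -- root sets
  set R : ℕ → Finset ℕ := fun m =>
    (((XJ X m).filter (fun x => x % mM = (p m).1)) ×ˢ
      ((XJ X m).filter (fun x => x % mM = (p m).2.1))).image (fun q => m - q.1 - q.2) with hRdef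
  have hloc : ∀ᶠ y : ℕ in atTop, ∀ a ∈ LX, ∃ F : Finset ℕ,
      (∀ x ∈ F, x ∈ X ∧ x % mM = a ∧ y ≤ x ∧ (x : ℝ) ≤ y + (y : ℝ) ^ th) ∧
      (y : ℝ) ^ (379 / 1000 : ℝ) ≤ F.card := by
    have h1 := (Filter.eventually_all_finset (LX.toFinset) (l := (atTop : Filter ℕ))
      (p := fun (a : ℕ) (y : ℕ) => ∃ F : Finset ℕ,
      (∀ x ∈ F, x ∈ X ∧ x % mM = a ∧ y ≤ x ∧ (x : ℝ) ≤ y + (y : ℝ) ^ th) ∧
      (y : ℝ) ^ (379 / 1000 : ℝ) ≤ F.card)).2 (fun a ha => hg.loc a (List.mem_toFinset.1 ha))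
    filter_upwards [h1] with y hy a ha
    exact hy a (List.mem_toFinset.2 ha)
  have hloc' := tendsto_yy.eventually hloc
  have hwin := ev_window X
  have hsmall := ev_small
  have hbig : ∀ᶠ m : ℕ in atTop, (6 : ℝ) ≤ (m : ℝ) ^ (1 / 1000 : ℝ) := by
    have h1 : Tendsto (fun m : ℕ => (m : ℝ) ^ (1 / 1000 : ℝ)) atTop atTop :=
      (tendsto_rpow_atTop (by norm_num)).comp tendsto_natCast_atTop_atTop
    exact h1.eventually_ge_atTop 6
  have hR : ∀ᶠ m : ℕ in atTop, (∀ r ∈ R m, 0 < r ∧ r ≤ m) ∧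
      (m : ℝ) ^ (757 / 1000 : ℝ) ≤ (R m).card := by
    filter_upwards [hloc', hwin, hsmall, hbig, eventually_ge_atTop 1000] with m h1 h2 h3 h4 h5
    have hmR : (1000 : ℝ) ≤ m := by exact_mod_cast h5
    have hmpos : (0 : ℝ) < m := by linarith
    have hyR : (m : ℝ) / 3 ≤ yy m := by
      have : m ≤ 3 * yy m := by unfold yy; omega
      have : (m : ℝ) ≤ 3 * yy m := by exact_mod_cast this
      linarith
    have hyR2 : (yy m : ℝ) ≤ m / 3 + 1 := by
      unfold yy
      push_cast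
      have : ((m / 3 : ℕ) : ℝ) ≤ (m : ℝ) / 3 := Nat.cast_div_le
      linarith
    constructor
    · intro r hr
      simp only [hRdef, Finset.mem_image, Finset.mem_product, Finset.mem_filter] at hr
      obtain ⟨q, ⟨hq1, hq2⟩, rfl⟩ := hr
      have := h2 q.1 hq1.1 q.2 hq2.1
      omega
    · -- cardinality
      have hA : ∀ a ∈ LX, ((m : ℝ) / 3) ^ (379 / 1000 : ℝ) ≤
          ((XJ X m).filter (fun x => x % mM = a)).card := by
        intro a ha
        obtain ⟨F, hF1, hF2⟩ := h1 a ha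
        have hsub : F ⊆ (XJ X m).filter (fun x => x % mM = a) := by
          intro x hx
          obtain ⟨hx1, hx2, hx3, hx4⟩ := hF1 x hx
          simp only [XJ, Finset.mem_filter, Finset.mem_range]
          refine ⟨⟨?_, hx1, hx3, hx4⟩, hx2⟩
          have : (x : ℝ) ≤ m := by linarith
          have : x ≤ m := by exact_mod_cast this
          omega
        have hc := Finset.card_le_card hsub
        have hc' : (F.card : ℝ) ≤ ((XJ X m).filter (fun x => x % mM = a)).card := by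
          exact_mod_cast hc
        calc ((m : ℝ) / 3) ^ (379 / 1000 : ℝ) ≤ (yy m : ℝ) ^ (379 / 1000 : ℝ) := by gcongr
          _ ≤ F.card := hF2
          _ ≤ _ := hc'
      set A := (XJ X m).filter (fun x => x % mM = (p m).1) with hAdef
      set B := (XJ X m).filter (fun x => x % mM = (p m).2.1) with hBdef
      have hA1 := hA _ (hpa m)
      have hB1 := hA _ (hpb m)
      have hcard : (A ×ˢ B).card ≤ 2 * (R m).card := by
        apply Finset.card_le_mul_card_image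
        intro s hs
        rcases ((A ×ˢ B).filter (fun q => m - q.1 - q.2 = s)).eq_empty_or_nonempty with
          he | ⟨q, hq⟩
        · rw [he]; simp
        · have hsub : (A ×ˢ B).filter (fun q => m - q.1 - q.2 = s) ⊆ {q, (q.2, q.1)} := by
            intro q' hq'
            simp only [Finset.mem_filter, Finset.mem_product, hAdef, hBdef] at hq hq'
            have e1 := h2 q.1 hq.1.1.1 q.2 hq.1.2.1
            have e2 := h2 q'.1 hq'.1.1.1 q'.2 hq'.1.2.1
            have mem : ∀ x ∈ XJ X m, x ∈ X := by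
              intro x hx
              simp only [XJ, Finset.mem_filter] at hx
              exact hx.2.1
            have h3 := hg.sid q'.1 (mem _ hq'.1.1.1) q'.2 (mem _ hq'.1.2.1) q.1
              (mem _ hq.1.1.1) q.2 (mem _ hq.1.2.1) (by omega)
            simp only [Finset.mem_insert, Finset.mem_singleton]
            rcases h3 with ⟨h4, h5⟩ | ⟨h4, h5⟩
            · left; exact Prod.ext h4 h5
            · right; exact Prod.ext h4 h5
          exact le_trans (Finset.card_le_card hsub) Finset.card_le_two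
      have hcard' : (A.card : ℝ) * B.card ≤ 2 * (R m).card := by
        rw [Finset.card_product] at hcard
        exact_mod_cast hcard
      have h6 : ((m : ℝ) / 3) ^ (379 / 1000 : ℝ) * ((m : ℝ) / 3) ^ (379 / 1000 : ℝ) ≤
          2 * (R m).card := by
        calc _ ≤ (A.card : ℝ) * B.card := by gcongr
          _ ≤ _ := hcard'
      have h7 : ((m : ℝ) / 3) ^ (379 / 1000 : ℝ) * ((m : ℝ) / 3) ^ (379 / 1000 : ℝ) =
          ((m : ℝ) / 3) ^ (758 / 1000 : ℝ) := by
        rw [← Real.rpow_add (by positivity)]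
        norm_num
      have h8 : ((m : ℝ) / 3) ^ (758 / 1000 : ℝ) =
          (m : ℝ) ^ (758 / 1000 : ℝ) / (3 : ℝ) ^ (758 / 1000 : ℝ) :=
        Real.div_rpow hmpos.le (by norm_num) _
      have h9 : (3 : ℝ) ^ (758 / 1000 : ℝ) ≤ 3 := by
        calc (3 : ℝ) ^ (758 / 1000 : ℝ) ≤ (3 : ℝ) ^ (1 : ℝ) := by
              gcongr
              · norm_num
              · norm_num
          _ = 3 := Real.rpow_one 3
      have h10 : (m : ℝ) ^ (758 / 1000 : ℝ) = (m : ℝ) ^ (757 / 1000 : ℝ) *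
          (m : ℝ) ^ (1 / 1000 : ℝ) := by
        rw [← Real.rpow_add hmpos]
        norm_num
      have h11 : (m : ℝ) ^ (758 / 1000 : ℝ) / 3 ≤ ((m : ℝ) / 3) ^ (758 / 1000 : ℝ) := by
        rw [h8]
        gcongr
      have h12 : 0 < (m : ℝ) ^ (757 / 1000 : ℝ) := by positivity
      rw [h7] at h6
      have h13 : 6 * (m : ℝ) ^ (757 / 1000 : ℝ) ≤ (m : ℝ) ^ (758 / 1000 : ℝ) := by
        rw [h10]
        nlinarith
      linarith
  have hconf : ∀ᶠ m : ℕ in atTop, (∀ x ∈ XJ X m, x ∈ X) ∧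
      (∀ x ∈ XL X m, x ∈ X) ∧ ((XJ X m).card : ℝ) ≤ C * (m : ℝ) ^ (38 / 100 : ℝ) ∧
      ((XL X m).card : ℝ) ≤ C * (m : ℝ) ^ (38 / 100 : ℝ) ∧
      (∀ x1 ∈ XJ X m, ∀ x2 ∈ XJ X m, x1 + x2 ≤ m ∧ m ≤ 4 * (m - x1 - x2)) := by
    filter_upwards [hwin, eventually_ge_atTop 1] with m h1 h2
    refine ⟨?_, ?_, ?_, ?_, h1⟩
    · intro x hx
      simp only [XJ, Finset.mem_filter] at hx
      exact hx.2.1
    · intro x hx
      simp only [XL, Finset.mem_filter] at hx
      exact hx.2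
    · apply hup m h2
      intro x hx
      simp only [XJ, Finset.mem_filter, Finset.mem_range] at hx
      exact ⟨hx.2.1, by omega⟩
    · apply hup m h2
      intro x hx
      simp only [XL, Finset.mem_filter, Finset.mem_range] at hx
      exact ⟨hx.2, by omega⟩
  -- the random set
  obtain ⟨μ, hprob, hμ1, hμ2⟩ := exists_random wt wt_nonneg wt_le_one
  have a1 := ae_EN μ hμ1
  have a2 := ae_hits μ hμ2 R 1500 (by norm_num) hR
  have a3 := ae_conf μ hμ1 X hg.sid C hC (XJ X) (XL X) hconf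
  obtain ⟨ω, hω1, hω2, hω3⟩ := (a1.and (a2.and a3)).exists
  obtain ⟨n0, hn0⟩ := eventually_atTop.1 hω1
  have hTsid := sidon_of_EN ω n0 hn0
  set T : Set ℕ := {n | ω n = true ∧ n0 ≤ n ∧ n % mM ∈ LT} with hTdef
  set X' : Set ℕ := {x | x ∈ X ∧ ¬ ∃ x' ∈ X, x' < x ∧ ∃ t ∈ T, t + (x - x') ∈ T} with hX'def
  have hT : IsSid T := by
    intro a ha b hb c hc d hd
    exact hTsid a ⟨ha.1, ha.2.1⟩ b ⟨hb.1, hb.2.1⟩ c ⟨hc.1, hc.2.1⟩ d ⟨hd.1, hd.2.1⟩
  have hmix : ∀ x ∈ X', ∀ y ∈ X', ∀ t ∈ T, ∀ u ∈ T, x + t = y + u → x = y ∧ t = u := by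
    intro x hx y hy t ht u hu h
    rcases lt_trichotomy x y with h1 | h1 | h1
    · exfalso
      apply hy.2
      refine ⟨x, hx.1, h1, u, hu, ?_⟩
      have : u + (y - x) = t := by omega
      rw [this]; exact ht
    · exact ⟨h1, by omega⟩
    · exfalso
      apply hx.2
      refine ⟨y, hy.1, h1, t, ht, ?_⟩
      have : t + (x - y) = u := by omega
      rw [this]; exact hu
  have rX : ∀ x ∈ X', x % mM ∈ LX := fun x hx => hg.res x hx.1
  have rT : ∀ x ∈ T, x % mM ∈ LT := fun x hx => hx.2.2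
  have hSsid : ∀ a ∈ X' ∪ T, ∀ b ∈ X' ∪ T, ∀ c ∈ X' ∪ T, ∀ d ∈ X' ∪ T,
      a + b = c + d → (a = c ∧ b = d) ∨ (a = d ∧ b = c) := by
    intro a ha b hb c hc d hd h
    have hmod : (a % mM + b % mM) % mM = (c % mM + d % mM) % mM := by
      rw [← Nat.add_mod, ← Nat.add_mod, h]
    have hmod' : (a % mM + b % mM) % mM = (d % mM + c % mM) % mM := by
      rw [hmod, add_comm]
    have hmod'' : (b % mM + a % mM) % mM = (c % mM + d % mM) % mM := by
      rw [← hmod, add_comm]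
    have hmod3 : (b % mM + a % mM) % mM = (d % mM + c % mM) % mM := by
      rw [← hmod', add_comm]
    rcases ha with ha | ha <;> rcases hb with hb | hb <;> rcases hc with hc | hc <;>
      rcases hd with hd | hd
    · exact hg.sid a ha.1 b hb.1 c hc.1 d hd.1 h
    · exact absurd hmod (sepXX_XT (rX _ ha) (rX _ hb) (rX _ hc) (rT _ hd))
    · exact absurd hmod' (sepXX_XT (rX _ ha) (rX _ hb) (rX _ hd) (rT _ hc))
    · exact absurd hmod (sepXX_TT (rX _ ha) (rX _ hb) (rT _ hc) (rT _ hd))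
    · exact absurd hmod.symm (sepXX_XT (rX _ hc) (rX _ hd) (rX _ ha) (rT _ hb))
    · exact Or.inl (hmix a ha c hc b hb d hd h)
    · have := hmix a ha d hd b hb c hc (by omega)
      exact Or.inr this
    · exact absurd hmod (sepXT_TT (rX _ ha) (rT _ hb) (rT _ hc) (rT _ hd))
    · exact absurd hmod''.symm (sepXX_XT (rX _ hc) (rX _ hd) (rX _ hb) (rT _ ha))
    · have := hmix b hb c hc a ha d hd (by omega)
      exact Or.inr ⟨this.2, this.1⟩
    · have := hmix b hb d hd a ha c hc (by omega)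
      exact Or.inl ⟨this.2, this.1⟩
    · exact absurd hmod'' (sepXT_TT (rX _ hb) (rT _ ha) (rT _ hc) (rT _ hd))
    · exact absurd hmod.symm (sepXX_TT (rX _ hc) (rX _ hd) (rT _ ha) (rT _ hb))
    · exact absurd hmod.symm (sepXT_TT (rX _ hc) (rT _ hd) (rT _ ha) (rT _ hb))
    · exact absurd hmod'.symm (sepXT_TT (rX _ hd) (rT _ hc) (rT _ ha) (rT _ hb))
    · exact hT a ha b hb c hc d hd h
  -- representation
  have hrep : ∀ᶠ m : ℕ in atTop, ∃ s₁ ∈ X' ∪ T, ∃ s₂ ∈ X' ∪ T, ∃ s₃ ∈ X' ∪ T,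
            s₁ + s₂ + s₃ = m ∧
            |(s₁ : ℝ) - (m : ℝ) / 3| ≤ 4 * (m : ℝ) ^ th ∧
            |(s₂ : ℝ) - (m : ℝ) / 3| ≤ 4 * (m : ℝ) ^ th ∧
            |(s₃ : ℝ) - (m : ℝ) / 3| ≤ 4 * (m : ℝ) ^ th := by
    filter_upwards [hω2, hω3, hwin, eventually_ge_atTop 1000, eventually_ge_atTop (4 * n0)] with
      m h1 h2 h3 h4 h5
    -- a realised root without conflict
    have hex : ∃ r ∈ R m, ω r = true ∧
        ∀ i : (PP (XJ X m) (XL X m)) × ℕ, rt m i = r → ¬ (∀ n ∈ ed m i, ω n = true) := by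
      by_contra hcon
      push Not at hcon
      apply h2
      apply mem_Chain_of_many (ed m) (rt m (XJ := XJ X m) (XL := XL X m))
        (fun i => Finset.card_le_three) ω 500 ∅ (by simp)
        ((R m).filter (fun n => ω n = true)) (by simpa using h1)
      intro ρ hρ
      simp only [Finset.mem_filter] at hρ
      obtain ⟨i, hi1, hi2⟩ := hcon ρ hρ.1 hρ.2
      exact ⟨i, hi1, hi2⟩
    obtain ⟨r, hrR, hrω, hrc⟩ := hex
    simp only [hRdef, Finset.mem_image, Finset.mem_product, Finset.mem_filter] at hrR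
    obtain ⟨⟨x1, x2⟩, ⟨⟨hx1, hx1a⟩, ⟨hx2, hx2b⟩⟩, hr⟩ := hrR
    simp only at hx1 hx1a hx2 hx2b hr
    obtain ⟨hs1, hs2⟩ := h3 x1 hx1 x2 hx2
    have hsum : x1 + x2 + r = m := by omega
    have memX : ∀ x ∈ XJ X m, x ∈ X := by
      intro x hx
      simp only [XJ, Finset.mem_filter] at hx
      exact hx.2.1
    have memle : ∀ x ∈ XJ X m, x ≤ m := by
      intro x hx
      simp only [XJ, Finset.mem_filter, Finset.mem_range] at hx
      omega
    have hnc : ∀ z1 ∈ XJ X m, ∀ z2 ∈ XJ X m, m - z1 - z2 = r → z1 ∈ X' := by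
      intro z1 hz1 z2 hz2 hz
      refine ⟨memX _ hz1, ?_⟩
      rintro ⟨x', hx'X, hx'lt, t, ht, ht'⟩
      have hP : (z1, z2, x') ∈ PP (XJ X m) (XL X m) := by
        simp only [PP, Finset.mem_filter, Finset.mem_product]
        refine ⟨⟨hz1, hz2, ?_⟩, hx'lt⟩
        simp only [XL, Finset.mem_filter, Finset.mem_range]
        have := memle _ hz1
        exact ⟨by omega, hx'X⟩
      apply hrc (⟨(z1, z2, x'), hP⟩, t)
      · simp only [rt]
        exact hz
      · intro n hn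
        simp only [ed, Finset.mem_insert, Finset.mem_singleton] at hn
        rcases hn with rfl | rfl | rfl
        · rw [hz]; exact hrω
        · exact ht.1
        · exact ht'.1
    have hx1' : x1 ∈ X' := hnc x1 hx1 x2 hx2 hr
    have hx2' : x2 ∈ X' := hnc x2 hx2 x1 hx1 (by omega)
    have hrT : r ∈ T := by
      refine ⟨hrω, by omega, ?_⟩
      have hc := hpc m
      have e0 : (x1 + x2 + r) % mM = (x1 + x2 + (p m).2.2) % mM := by
        rw [hsum, ← hp m]
        conv_rhs => rw [Nat.add_mod, Nat.add_mod x1 x2, hx1a, hx2b]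
        simp [Nat.add_mod]
      have e1 : r ≡ (p m).2.2 [MOD mM] := Nat.ModEq.add_left_cancel' (x1 + x2) e0
      have e2 : r % mM = (p m).2.2 := by
        rw [e1]
        exact Nat.mod_eq_of_lt (lt_of_mem_LT _ hc)
      rw [e2]; exact hc
    refine ⟨x1, Or.inl hx1', x2, Or.inl hx2', r, Or.inr hrT, hsum, ?_⟩
    -- sizes
    have hmR : (1000 : ℝ) ≤ m := by exact_mod_cast h4
    have hmpos : (0 : ℝ) < m := by linarith
    have hyR : (m : ℝ) / 3 ≤ yy m := by
      have : m ≤ 3 * yy m := by unfold yy; omega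
      have : (m : ℝ) ≤ 3 * yy m := by exact_mod_cast this
      linarith
    have hyR2 : (yy m : ℝ) ≤ m / 3 + 1 := by
      unfold yy
      push_cast
      have : ((m / 3 : ℕ) : ℝ) ≤ (m : ℝ) / 3 := Nat.cast_div_le
      linarith
    have hth : (yy m : ℝ) ^ th ≤ (m : ℝ) ^ th := by
      apply Real.rpow_le_rpow (by positivity) (by linarith)
      unfold th; norm_num
    have hone : (1 : ℝ) ≤ (m : ℝ) ^ th := by
      apply Real.one_le_rpow (by linarith)
      unfold th; norm_num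
    have bnd : ∀ x ∈ XJ X m, |(x : ℝ) - (m : ℝ) / 3| ≤ 2 * (m : ℝ) ^ th := by
      intro x hx
      simp only [XJ, Finset.mem_filter, Finset.mem_range] at hx
      have e1 : (yy m : ℝ) ≤ x := by exact_mod_cast hx.2.2.1
      have e2 := hx.2.2.2
      rw [abs_le]
      constructor <;> linarith
    have b1 := bnd x1 hx1
    have b2 := bnd x2 hx2
    refine ⟨by linarith, by linarith, ?_⟩
    have hsumR : (x1 : ℝ) + x2 + r = m := by exact_mod_cast hsum
    rw [abs_le] at b1 b2 ⊢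
    constructor <;> linarith
  obtain ⟨N, hN⟩ := eventually_atTop.1 hrep
  refine ⟨X' ∪ T, ?_, hSsid, 4, by norm_num, N, hN⟩
  -- infinite
  apply Set.infinite_of_not_bddAbove
  rintro ⟨B, hB⟩
  obtain ⟨s1, h1, s2, h2, s3, h3, hs, _⟩ := hN (N + 3 * B + 1) (by omega)
  have e1 := hB h1
  have e2 := hB h2
  have e3 := hB h3
  omega

end Pool.Agent.SidonThree
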