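import Mathlib
import Pool.Agent.SidonThree.Dense
import Pool.Agent.SidonThree.Final

/-! Local abundance of the dense Sidon set. -/

set_option autoImplicit false

open Finset Filter

namespace Pool.Agent.SidonThree

theorem local_combin (v k : ℕ) (hv : v < 35) (hk : 10000 ≤ k) (z : ℕ) (H : ℝ)
    (hz : BB (k + 1) * RR (k + 1) ≤ z)
    (hzH : (z : ℝ) + H ≤ ((BB (k + 2) * RR (k + 2) : ℕ) : ℝ))
    (hf1 : 0 ≤ H / BB (k + 1) - 2)
    (hf2 : 0 ≤ ((PI (k + 1) : ℝ) - PI k) / (35 * NN (k + 1)) - 2) :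
    ∃ F : Finset ℕ, (∀ x ∈ F, x ∈ DX ∧ x % mM = LX.getD v 0 ∧ z ≤ x ∧ (x : ℝ) ≤ z + H) ∧
      (H / BB (k + 1) - 2) * (((PI (k + 1) : ℝ) - PI k) / (35 * NN (k + 1)) - 2) ≤ F.card := by
  classical
  have hBpos : (0 : ℝ) < BB (k + 1) := by exact_mod_cast BB_pos (k + 1)
  have hN := NN_pos (k + 1)
  have hNpos : (0 : ℝ) < NN (k + 1) := by exact_mod_cast hN
  have hH : 0 ≤ H := by
    have h1 : 0 ≤ H / BB (k + 1) := by linarith
    have h2 : H = H / BB (k + 1) * BB (k + 1) := by field_simp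
    rw [h2]; positivity
  have hz0 : 0 ≤ (z : ℝ) / BB (k + 1) := div_nonneg (Nat.cast_nonneg _) hBpos.le
  have hzH0 : 0 ≤ ((z : ℝ) + H) / BB (k + 1) :=
    div_nonneg (add_nonneg (Nat.cast_nonneg _) hH) hBpos.le
  set r0 : ℕ := ⌈(z : ℝ) / BB (k + 1)⌉₊ with hr0
  set r1 : ℕ := ⌊((z : ℝ) + H) / BB (k + 1)⌋₊ with hr1
  set t0 : ℕ := PI k / (35 * NN (k + 1)) + 1 with ht0
  set t1 : ℕ := PI (k + 1) / (35 * NN (k + 1)) with ht1
  set idx : ℕ × ℕ → ℕ := fun q => 35 * ((q.1 - RR (k + 1)) + NN (k + 1) * q.2) + v with hidx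
  -- facts on r
  have hr0ge : RR (k + 1) ≤ r0 := by
    have h1 : (RR (k + 1) : ℝ) ≤ (z : ℝ) / BB (k + 1) := by
      rw [le_div_iff₀ hBpos]
      have : RR (k + 1) * BB (k + 1) ≤ z := by rw [mul_comm]; exact hz
      exact_mod_cast this
    have h2 : (z : ℝ) / BB (k + 1) ≤ r0 := Nat.le_ceil _
    exact_mod_cast le_trans h1 h2
  have hr1le : r1 ≤ 4 * qq (k + 2) * RR (k + 2) := by
    have h1 : (r1 : ℝ) ≤ ((z : ℝ) + H) / BB (k + 1) := Nat.floor_le hzH0
    have h2 : ((z : ℝ) + H) / BB (k + 1) ≤ ((4 * qq (k + 2) * RR (k + 2) : ℕ) : ℝ) := by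
      rw [div_le_iff₀ hBpos]
      refine le_trans hzH (le_of_eq ?_)
      have : BB (k + 2) * RR (k + 2) = 4 * qq (k + 2) * RR (k + 2) * BB (k + 1) := by
        simp only [BB]; ring
      rw [this]
      push_cast
      ring
    exact_mod_cast le_trans h1 h2
  have hw : ∀ r, r0 ≤ r → r < r1 → r - RR (k + 1) < NN (k + 1) := by
    intro r h1 h2
    have h3 : NN (k + 1) = 4 * qq (k + 2) * RR (k + 2) - RR (k + 1) := rfl
    omega
  -- facts on the index
  have hLpos : 0 < 35 * NN (k + 1) := by omega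
  have hidx_facts : ∀ q : ℕ × ℕ, r0 ≤ q.1 → q.1 < r1 → t0 ≤ q.2 → q.2 < t1 →
      lev (idx q) = k + 1 ∧ PI 10000 ≤ idx q ∧ lm (idx q) = LX.getD v 0 ∧
        rr (idx q) = q.1 := by
    intro q h1 h2 h3 h4
    have hwq := hw q.1 h1 h2
    have h5 : PI k ≤ idx q := by
      have e1 : PI k < 35 * NN (k + 1) * t0 := Nat.lt_mul_div_succ (PI k) hLpos
      have e2 : 35 * NN (k + 1) * t0 ≤ 35 * NN (k + 1) * q.2 := Nat.mul_le_mul_left _ h3
      have e3 : idx q = 35 * (q.1 - RR (k + 1)) + 35 * NN (k + 1) * q.2 + v := by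
        simp only [hidx]; ring
      omega
    have h6 : idx q < PI (k + 1) := by
      have e1 : 35 * NN (k + 1) * t1 ≤ PI (k + 1) := Nat.mul_div_le _ _
      have e2 : 35 * NN (k + 1) * (q.2 + 1) ≤ 35 * NN (k + 1) * t1 :=
        Nat.mul_le_mul_left _ h4
      have e3 : idx q = 35 * (q.1 - RR (k + 1)) + 35 * NN (k + 1) * q.2 + v := by
        simp only [hidx]; ring
      have e4 : 35 * NN (k + 1) * (q.2 + 1) = 35 * NN (k + 1) * q.2 + 35 * NN (k + 1) := by ring
      omega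
    have h7 := lev_eq h5 h6
    have h8 : idx q / 35 = (q.1 - RR (k + 1)) + NN (k + 1) * q.2 := by
      simp only [hidx]; omega
    have h9 : idx q % 35 = v := by
      simp only [hidx]; omega
    refine ⟨h7, le_trans (PI_mono hk) h5, ?_, ?_⟩
    · unfold lm; rw [h9]
    · unfold rr
      rw [h7, h8, Nat.add_mul_mod_self_left, Nat.mod_eq_of_lt hwq]
      omega
  refine ⟨((Finset.Ico r0 r1) ×ˢ (Finset.Ico t0 t1)).image (fun q => ss (idx q)), ?_, ?_⟩
  · intro x hx
    simp only [Finset.mem_image, Finset.mem_product, Finset.mem_Ico] at hx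
    obtain ⟨q, ⟨⟨h1, h2⟩, h3, h4⟩, rfl⟩ := hx
    obtain ⟨f1, f2, f3, f4⟩ := hidx_facts q h1 h2 h3 h4
    refine ⟨⟨idx q, f2, rfl⟩, ?_, ?_, ?_⟩
    · unfold ss
      rw [elt_mod_mM _ _ _ _ (lt_of_mem_LX _ (lm_mem _)), f3]
    · have e1 : (z : ℝ) ≤ BB (k + 1) * q.1 := by
        have e2 : (z : ℝ) / BB (k + 1) ≤ r0 := Nat.le_ceil _
        have e3 : (r0 : ℝ) ≤ q.1 := by exact_mod_cast h1
        have e4 := le_trans e2 e3
        rw [div_le_iff₀ hBpos] at e4
        linarith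
      have e2 : z ≤ BB (k + 1) * q.1 := by exact_mod_cast e1
      unfold ss elt
      rw [f1, f4]
      omega
    · have e1 : ss (idx q) < BB (k + 1) * (q.1 + 1) := by
        have := elt_lt (lm (idx q)) (pr (idx q)) (lev (idx q)) (rr (idx q))
          (lt_of_mem_LX _ (lm_mem _))
        rw [f1, f4] at this
        unfold ss
        rw [f1, f4]
        exact this
      have e2 : (ss (idx q) : ℝ) ≤ BB (k + 1) * (q.1 + 1) := by exact_mod_cast e1.le
      have e3 : ((q.1 : ℝ) + 1) ≤ r1 := by exact_mod_cast h2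
      have e4 : (r1 : ℝ) ≤ ((z : ℝ) + H) / BB (k + 1) := Nat.floor_le hzH0
      have e5 := le_trans e3 e4
      rw [le_div_iff₀ hBpos] at e5
      linarith
  · -- cardinality
    rw [Finset.card_image_of_injOn]
    · rw [Finset.card_product, Nat.card_Ico, Nat.card_Ico]
      have g1 : H / BB (k + 1) - 2 ≤ ((r1 - r0 : ℕ) : ℝ) := by
        have e1 : ((z : ℝ) + H) / BB (k + 1) < r1 + 1 := Nat.lt_floor_add_one _
        have e2 : (r0 : ℝ) < (z : ℝ) / BB (k + 1) + 1 := Nat.ceil_lt_add_one hz0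
        have e3 : ((r1 : ℝ)) - r0 ≤ ((r1 - r0 : ℕ) : ℝ) := by
          rw [sub_le_iff_le_add]
          have : r1 ≤ (r1 - r0) + r0 := by omega
          exact_mod_cast this
        have e4 : ((z : ℝ) + H) / BB (k + 1) = (z : ℝ) / BB (k + 1) + H / BB (k + 1) := add_div _ _ _
        linarith
      have g2 : ((PI (k + 1) : ℝ) - PI k) / (35 * NN (k + 1)) - 2 ≤ ((t1 - t0 : ℕ) : ℝ) := by
        have e1 : (PI (k + 1) : ℝ) / (35 * NN (k + 1)) < t1 + 1 := by
          rw [div_lt_iff₀ (by positivity)]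
          have := Nat.lt_mul_div_succ (PI (k + 1)) hLpos
          rw [← ht1] at this
          have h' : (PI (k + 1) : ℝ) < (35 * NN (k + 1)) * (t1 + 1) := by exact_mod_cast this
          linarith
        have e2 : (t0 : ℝ) ≤ (PI k : ℝ) / (35 * NN (k + 1)) + 1 := by
          rw [ht0]
          push_cast
          have : ((PI k / (35 * NN (k + 1)) : ℕ) : ℝ) ≤ (PI k : ℝ) / ((35 * NN (k + 1) : ℕ) : ℝ) :=
            Nat.cast_div_le
          push_cast at this
          linarith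
        have e3 : ((t1 : ℝ)) - t0 ≤ ((t1 - t0 : ℕ) : ℝ) := by
          rw [sub_le_iff_le_add]
          have : t1 ≤ (t1 - t0) + t0 := by omega
          exact_mod_cast this
        have e4 : ((PI (k + 1) : ℝ) - PI k) / (35 * NN (k + 1)) =
            (PI (k + 1) : ℝ) / (35 * NN (k + 1)) - (PI k : ℝ) / (35 * NN (k + 1)) := sub_div _ _ _
        linarith
      push_cast
      exact mul_le_mul g1 g2 hf2 (le_trans hf1 g1)
    · intro q hq q' hq' heq
      simp only [Finset.coe_product, Finset.coe_Ico, Set.mem_prod, Set.mem_Ico] at hq hq'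
      obtain ⟨f1, f2, f3, f4⟩ := hidx_facts q hq.1.1 hq.1.2 hq.2.1 hq.2.2
      obtain ⟨f1', f2', f3', f4'⟩ := hidx_facts q' hq'.1.1 hq'.1.2 hq'.2.1 hq'.2.2
      have h1 : idx q = idx q' := ss_inj f2 f2' heq
      have h2 : q.1 = q'.1 := by rw [← f4, ← f4', h1]
      have h3 : NN (k + 1) * q.2 = NN (k + 1) * q'.2 := by
        simp only [hidx] at h1
        rw [h2] at h1
        omega
      have h4 : q.2 = q'.2 := Nat.eq_of_mul_eq_mul_left hN h3
      exact Prod.ext h2 h4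

end Pool.Agent.SidonThree
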