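import Mathlib
import Pool.Agent.SidonThree.Local

/-! Numerical estimates and the final local abundance statement. -/

set_option autoImplicit false

open Finset Filter

namespace Pool.Agent.SidonThree

theorem quad_le_two_pow (K : ℕ) (hK : 20 ≤ K) : 4 * (380 * K ^ 2) ≤ 2 ^ K := by
  induction K, hK using Nat.le_induction with
  | base => norm_num
  | succ K hK ih =>
    rw [pow_succ (2 : ℕ) K]
    nlinarith

theorem rpow_eq_pow (e : ℝ) (n : ℕ) (h : e = n) : (2 : ℝ) ^ e = (2 : ℝ) ^ n := by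
  rw [h, Real.rpow_natCast]

theorem PI_diff (k : ℕ) (hk : 10000 ≤ k) :
    (2 : ℝ) ^ (380 * (k + 1) ^ 2 - (k + 1)) ≤ (PI (k + 1) : ℝ) - PI k := by
  obtain ⟨K, hK⟩ : ∃ K, K = k + 1 := ⟨_, rfl⟩
  obtain ⟨E, hE⟩ : ∃ E, E = 380 * K ^ 2 := ⟨_, rfl⟩
  obtain ⟨M, hM⟩ : ∃ M, M = E - K := ⟨_, rfl⟩
  have hKE : K + 2 ≤ E := by rw [hE]; nlinarith
  have hEM : E = M + K := by omega
  have hEpos : 0 < E := by omega
  have hEpos' : (0 : ℝ) < E := by exact_mod_cast hEpos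
  have h1 : (2 : ℝ) ^ E / E - 2 ≤ PI (k + 1) := by
    have h2 := Chebyshev.pi_ge (2 ^ E)
    have hlog2 : 0 < Real.log 2 := Real.log_pos (by norm_num)
    have h3 : Real.log ((2 ^ E : ℕ) : ℝ) = E * Real.log 2 := by
      push_cast
      rw [Real.log_pow]
    have h4 : Real.log (((2 ^ E : ℕ) : ℝ) + 1) ≤ (E + 1) * Real.log 2 := by
      have : (((2 ^ E : ℕ) : ℝ) + 1) ≤ (2 : ℝ) ^ (E + 1) := by
        push_cast
        rw [pow_succ]
        have : (1 : ℝ) ≤ 2 ^ E := one_le_pow₀ (by norm_num)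
        linarith
      calc Real.log (((2 ^ E : ℕ) : ℝ) + 1) ≤ Real.log ((2 : ℝ) ^ (E + 1)) :=
            Real.log_le_log (by positivity) this
        _ = (E + 1) * Real.log 2 := by
            rw [Real.log_pow]; push_cast; ring
    have h5 : PI (k + 1) = Nat.primeCounting (2 ^ E) := by
      unfold PI; rw [hE, hK]
    rw [h5]
    refine le_trans ?_ h2
    rw [h3, le_div_iff₀ (by positivity)]
    have h6 : ((2 : ℝ) ^ E / E - 2) * (E * Real.log 2) =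
        (2 : ℝ) ^ E * Real.log 2 - 2 * E * Real.log 2 := by
      field_simp
    rw [h6]
    have h7 : (((2 ^ E : ℕ)) : ℝ) = (2 : ℝ) ^ E := by push_cast; ring
    rw [h7] at h4 ⊢
    have h8 : (1 : ℝ) ≤ E := by exact_mod_cast hEpos
    have h9 : ((E : ℝ) + 1) * Real.log 2 ≤ 2 * E * Real.log 2 :=
      mul_le_mul_of_nonneg_right (by linarith) hlog2.le
    linarith
  have h2 : (4 : ℝ) * 2 ^ M ≤ (2 : ℝ) ^ E / E := by
    rw [le_div_iff₀ hEpos', hEM, pow_add]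
    have h3 := quad_le_two_pow K (by omega)
    rw [← hE, hEM] at h3
    have h4 : (4 : ℝ) * ((M + K : ℕ) : ℝ) ≤ 2 ^ K := by exact_mod_cast h3
    have h5 : (0 : ℝ) < 2 ^ M := by positivity
    nlinarith
  have h3 : (PI k : ℝ) ≤ 2 ^ M := by
    have h4 : PI k ≤ 2 ^ M := by
      refine le_trans (PI_le k) (Nat.pow_le_pow_right (by norm_num) ?_)
      have : 380 * (k + 1) ^ 2 = 380 * k ^ 2 + 760 * k + 380 := by ring
      rw [hM, hE, hK, this]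
      omega
    exact_mod_cast h4
  have h4 : (2 : ℝ) ≤ 2 ^ M := by
    calc (2 : ℝ) = 2 ^ 1 := by norm_num
      _ ≤ 2 ^ M := pow_le_pow_right₀ (by norm_num) (by omega)
  rw [← hK, ← hE, ← hM, hK]
  linarith

theorem local_real (k : ℕ) (hk : 10000 ≤ k) (y : ℕ) (hy1 : BB (k + 1) * RR (k + 1) ≤ 2 * y)
    (hy2 : y < BB (k + 2) * RR (k + 2)) :
    0 ≤ ((y : ℝ) ^ th / 2) / BB (k + 1) - 2 ∧
    0 ≤ ((PI (k + 1) : ℝ) - PI k) / (35 * NN (k + 1)) - 2 ∧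
    (y : ℝ) ^ (379 / 1000 : ℝ) ≤ (((y : ℝ) ^ th / 2) / BB (k + 1) - 2) *
      (((PI (k + 1) : ℝ) - PI k) / (35 * NN (k + 1)) - 2) := by
  obtain ⟨K, hK⟩ : ∃ K, K = k + 1 := ⟨_, rfl⟩
  obtain ⟨x, hx⟩ : ∃ x : ℝ, x = (K : ℝ) := ⟨_, rfl⟩
  have hx0 : (10000 : ℝ) ≤ x := by
    rw [hx, hK]
    have : (10000 : ℝ) ≤ k := by exact_mod_cast hk
    push_cast
    linarith
  have hxx : 10000 * x ≤ x ^ 2 := by
    rw [pow_two]
    exact mul_le_mul_of_nonneg_right hx0 (by linarith)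
  have two_pos : (0 : ℝ) < 2 := by norm_num
  have one_le_two' : (1 : ℝ) ≤ 2 := by norm_num
  -- (a)
  have ha : (2 : ℝ) ^ (1001 * x ^ 2) ≤ y := by
    have e1 : 2 ^ (1000 * (K * (K + 1))) * 2 ^ (K ^ 2) ≤ 2 * y := by
      have := BB_ge K
      calc 2 ^ (1000 * (K * (K + 1))) * 2 ^ (K ^ 2) ≤ BB K * RR K := by
            unfold RR
            exact Nat.mul_le_mul_right _ this
        _ ≤ 2 * y := by rw [hK]; exact hy1
    have e2 : (2 : ℝ) ^ (1001 * K ^ 2 + 1) ≤ 2 * y := by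
      have e3 : 2 ^ (1001 * K ^ 2 + 1) ≤ 2 * y := by
        refine le_trans ?_ e1
        rw [← pow_add]
        apply Nat.pow_le_pow_right (by norm_num)
        nlinarith
      exact_mod_cast e3
    rw [pow_succ] at e2
    have e4 : (2 : ℝ) ^ (1001 * K ^ 2) ≤ y := by linarith
    have e5 : (2 : ℝ) ^ (1001 * x ^ 2) = (2 : ℝ) ^ (1001 * K ^ 2) :=
      rpow_eq_pow _ _ (by rw [hx]; push_cast; ring)
    rw [e5]; exact e4
  -- BB upper
  have hBpos : (0 : ℝ) < BB (k + 1) := by exact_mod_cast BB_pos (k + 1)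
  have hB : (BB (k + 1) : ℝ) ≤ (2 : ℝ) ^ (1000 * x ^ 2 + 1003 * x + 13) := by
    have e1 : (BB K : ℝ) ≤ (2 : ℝ) ^ (13 + 1000 * (K * (K + 1)) + 3 * K) := by
      exact_mod_cast BB_le K
    have e2 : (2 : ℝ) ^ (1000 * x ^ 2 + 1003 * x + 13) =
        (2 : ℝ) ^ (13 + 1000 * (K * (K + 1)) + 3 * K) :=
      rpow_eq_pow _ _ (by rw [hx]; push_cast; ring)
    rw [e2, ← hK]; exact e1
  have hy0 : (0 : ℝ) ≤ y := Nat.cast_nonneg _
  have hH : (2 : ℝ) ^ (10008999 / 10000 * x ^ 2) ≤ (y : ℝ) ^ th := by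
    calc (2 : ℝ) ^ (10008999 / 10000 * x ^ 2) = ((2 : ℝ) ^ (1001 * x ^ 2)) ^ th := by
          rw [← Real.rpow_mul (by norm_num)]
          congr 1
          unfold th
          ring
      _ ≤ (y : ℝ) ^ th := by
          apply Real.rpow_le_rpow (by positivity) ha
          unfold th; norm_num
  set a1 : ℝ := 8999 / 10000 * x ^ 2 - 1003 * x - 15 with ha1
  set a2 : ℝ := 379 * x ^ 2 - 2003 * x - 2011 with ha2
  have hf1 : (2 : ℝ) ^ a1 ≤ ((y : ℝ) ^ th / 2) / BB (k + 1) - 2 := by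
    have e1 : (2 : ℝ) * 2 ^ a1 ≤ ((y : ℝ) ^ th / 2) / BB (k + 1) := by
      rw [le_div_iff₀ hBpos, le_div_iff₀ two_pos]
      calc (2 : ℝ) * 2 ^ a1 * BB (k + 1) * 2
          ≤ (2 : ℝ) * 2 ^ a1 * (2 : ℝ) ^ (1000 * x ^ 2 + 1003 * x + 13) * 2 := by gcongr
        _ = (2 : ℝ) ^ (1 : ℝ) * 2 ^ a1 * (2 : ℝ) ^ (1000 * x ^ 2 + 1003 * x + 13) *
            (2 : ℝ) ^ (1 : ℝ) := by rw [Real.rpow_one]
        _ = (2 : ℝ) ^ (1 + a1 + (1000 * x ^ 2 + 1003 * x + 13) + 1) := by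
            rw [← Real.rpow_add two_pos, ← Real.rpow_add two_pos, ← Real.rpow_add two_pos]
        _ = (2 : ℝ) ^ (10008999 / 10000 * x ^ 2) := by
            congr 1
            rw [ha1]; ring
        _ ≤ (y : ℝ) ^ th := hH
    have e2 : (2 : ℝ) ≤ 2 ^ a1 := by
      calc (2 : ℝ) = 2 ^ (1 : ℝ) := (Real.rpow_one 2).symm
        _ ≤ 2 ^ a1 := Real.rpow_le_rpow_of_exponent_le one_le_two' (by rw [ha1]; linarith)
    linarith
  have hNpos : (0 : ℝ) < NN (k + 1) := by exact_mod_cast NN_pos (k + 1)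
  have hNN : (NN (k + 1) : ℝ) ≤ (2 : ℝ) ^ (x ^ 2 + 2002 * x + 2004) := by
    have e1 : NN K ≤ 2 ^ (3 + 2000 * (K + 1) + (K + 1) ^ 2) := by
      have h1 := (qq_spec (K + 1)).2.2
      have h2 : ∀ e f : ℕ, (4 * (2 * 2 ^ e)) * 2 ^ f = 2 ^ (3 + e + f) := fun e f => by
        rw [pow_add, pow_add]; ring
      calc NN K ≤ 4 * qq (K + 1) * RR (K + 1) := Nat.sub_le _ _
        _ ≤ (4 * (2 * 2 ^ (2000 * (K + 1)))) * 2 ^ ((K + 1) ^ 2) :=
            Nat.mul_le_mul_right _ (Nat.mul_le_mul_left _ h1)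
        _ = 2 ^ (3 + 2000 * (K + 1) + (K + 1) ^ 2) := h2 _ _
    have e2 : (NN K : ℝ) ≤ (2 : ℝ) ^ (3 + 2000 * (K + 1) + (K + 1) ^ 2) := by exact_mod_cast e1
    have e3 : (2 : ℝ) ^ (x ^ 2 + 2002 * x + 2004) =
        (2 : ℝ) ^ (3 + 2000 * (K + 1) + (K + 1) ^ 2) :=
      rpow_eq_pow _ _ (by rw [hx]; push_cast; ring)
    rw [e3, ← hK]; exact e2
  have hf2 : (2 : ℝ) ^ a2 ≤ ((PI (k + 1) : ℝ) - PI k) / (35 * NN (k + 1)) - 2 := by
    have e1 : (2 : ℝ) * 2 ^ a2 ≤ ((PI (k + 1) : ℝ) - PI k) / (35 * NN (k + 1)) := by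
      rw [le_div_iff₀ (by positivity)]
      have e2 : (35 : ℝ) ≤ (2 : ℝ) ^ (6 : ℝ) := by
        have : (2 : ℝ) ^ (6 : ℝ) = 64 := by
          rw [show (6 : ℝ) = ((6 : ℕ) : ℝ) by norm_num, Real.rpow_natCast]; norm_num
        rw [this]; norm_num
      have e3 : (2 : ℝ) ^ (380 * x ^ 2 - x) = (2 : ℝ) ^ (380 * (k + 1) ^ 2 - (k + 1)) := by
        apply rpow_eq_pow
        have e0 : k + 1 ≤ 380 * (k + 1) ^ 2 := le_trans (Nat.le_self_pow (by norm_num) (k + 1))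
          (Nat.le_mul_of_pos_left _ (by norm_num))
        rw [Nat.cast_sub e0, hx, hK]
        push_cast
        ring
      calc (2 : ℝ) * 2 ^ a2 * (35 * NN (k + 1))
          ≤ (2 : ℝ) * 2 ^ a2 * ((2 : ℝ) ^ (6 : ℝ) * (2 : ℝ) ^ (x ^ 2 + 2002 * x + 2004)) := by gcongr
        _ = (2 : ℝ) ^ (1 : ℝ) * 2 ^ a2 * ((2 : ℝ) ^ (6 : ℝ) *
            (2 : ℝ) ^ (x ^ 2 + 2002 * x + 2004)) := by rw [Real.rpow_one]
        _ = (2 : ℝ) ^ (1 + a2 + (6 + (x ^ 2 + 2002 * x + 2004))) := by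
            rw [← Real.rpow_add two_pos, ← Real.rpow_add two_pos, ← Real.rpow_add two_pos]
        _ = (2 : ℝ) ^ (380 * x ^ 2 - x) := by
            congr 1
            rw [ha2]; ring
        _ = (2 : ℝ) ^ (380 * (k + 1) ^ 2 - (k + 1)) := e3
        _ ≤ (PI (k + 1) : ℝ) - PI k := PI_diff k hk
    have e2 : (2 : ℝ) ≤ 2 ^ a2 := by
      calc (2 : ℝ) = 2 ^ (1 : ℝ) := (Real.rpow_one 2).symm
        _ ≤ 2 ^ a2 := Real.rpow_le_rpow_of_exponent_le one_le_two' (by rw [ha2]; linarith)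
    linarith
  have hp1 : (0 : ℝ) < 2 ^ a1 := by positivity
  have hp2 : (0 : ℝ) < 2 ^ a2 := by positivity
  refine ⟨by linarith, by linarith, ?_⟩
  have hyu : (y : ℝ) ≤ (2 : ℝ) ^ (1001 * x ^ 2 + 3005 * x + 2017) := by
    have e1 : y ≤ 2 ^ (1001 * K ^ 2 + 3005 * K + 2017) := by
      rw [hK]
      exact le_trans hy2.le (BR_le (k + 1))
    have e2 : (y : ℝ) ≤ (2 : ℝ) ^ (1001 * K ^ 2 + 3005 * K + 2017) := by exact_mod_cast e1
    have e3 : (2 : ℝ) ^ (1001 * x ^ 2 + 3005 * x + 2017) =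
        (2 : ℝ) ^ (1001 * K ^ 2 + 3005 * K + 2017) :=
      rpow_eq_pow _ _ (by rw [hx]; push_cast; ring)
    rw [e3]; exact e2
  calc (y : ℝ) ^ (379 / 1000 : ℝ) ≤
        ((2 : ℝ) ^ (1001 * x ^ 2 + 3005 * x + 2017)) ^ (379 / 1000 : ℝ) :=
        Real.rpow_le_rpow hy0 hyu (by norm_num)
    _ = (2 : ℝ) ^ ((1001 * x ^ 2 + 3005 * x + 2017) * (379 / 1000)) := by
        rw [← Real.rpow_mul (by norm_num)]
    _ ≤ (2 : ℝ) ^ (a1 + a2) := by
        apply Real.rpow_le_rpow_of_exponent_le one_le_two'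
        rw [ha1, ha2]
        linarith
    _ = (2 : ℝ) ^ a1 * (2 : ℝ) ^ a2 := Real.rpow_add two_pos _ _
    _ ≤ _ := mul_le_mul hf1 hf2 hp2.le (by linarith)

theorem DX_loc : ∀ a ∈ LX, ∀ᶠ y : ℕ in atTop, ∃ F : Finset ℕ,
    (∀ x ∈ F, x ∈ DX ∧ x % mM = a ∧ y ≤ x ∧ (x : ℝ) ≤ y + (y : ℝ) ^ th) ∧
    (y : ℝ) ^ (379 / 1000 : ℝ) ≤ F.card := by
  classical
  intro a ha
  obtain ⟨v, hv, hva⟩ := exists_getD a ha
  filter_upwards [eventually_ge_atTop (BB 10001 * RR 10001), eventually_ge_atTop 1] with y hy hy1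
  have hy1R : (1 : ℝ) ≤ y := by exact_mod_cast hy1
  -- find the level
  have hex : ∃ j, y < BB j * RR j := by
    refine ⟨y, ?_⟩
    calc y < 2 ^ y := Nat.lt_two_pow_self
      _ ≤ 2 ^ (1000 * (y * (y + 1))) := by
        apply Nat.pow_le_pow_right (by norm_num)
        nlinarith
      _ ≤ BB y := BB_ge y
      _ ≤ BB y * RR y := Nat.le_mul_of_pos_right _ (RR_pos y)
  have hj := Nat.find_spec hex
  have hjmin : ∀ i, i < Nat.find hex → BB i * RR i ≤ y := by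
    intro i hi
    have := Nat.find_min hex hi
    omega
  set j := Nat.find hex with hjdef
  have hj2 : 10001 < j := by
    by_contra hcon
    push Not at hcon
    have := BR_mono hcon
    simp only at this
    omega
  obtain ⟨k, hk⟩ : ∃ k, k + 2 = j := ⟨j - 2, by omega⟩
  have hk1 : 10000 ≤ k := by omega
  have hlow : BB (k + 1) * RR (k + 1) ≤ y := hjmin (k + 1) (by omega)
  have hup : y < BB (k + 2) * RR (k + 2) := by rw [hk]; exact hj
  set H : ℝ := (y : ℝ) ^ th / 2 with hH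
  have hyth : (y : ℝ) ^ th ≤ y := by
    calc (y : ℝ) ^ th ≤ (y : ℝ) ^ (1 : ℝ) := by
          apply Real.rpow_le_rpow_of_exponent_le hy1R
          unfold th; norm_num
      _ = y := Real.rpow_one _
  have hyth0 : 0 < (y : ℝ) ^ th := Real.rpow_pos_of_pos (by linarith) _
  by_cases hcase : (y : ℝ) + H ≤ ((BB (k + 2) * RR (k + 2) : ℕ) : ℝ)
  · obtain ⟨f1, f2, f3⟩ := local_real k hk1 y (by omega) hup
    obtain ⟨F, hF1, hF2⟩ := local_combin v k hv hk1 y H hlow hcase f1 f2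
    refine ⟨F, ?_, le_trans f3 hF2⟩
    intro x hx
    obtain ⟨g1, g2, g3, g4⟩ := hF1 x hx
    refine ⟨g1, by rw [g2, hva], g3, ?_⟩
    linarith
  · push Not at hcase
    have hz : ((BB (k + 2) * RR (k + 2) : ℕ) : ℝ) ≤ 2 * y := by linarith
    have hz' : BB (k + 2) * RR (k + 2) ≤ 2 * y := by exact_mod_cast hz
    have htwo := BR_two (k + 2)
    obtain ⟨f1, f2, f3⟩ := local_real (k + 1) (by omega) y hz' (by
      show y < BB (k + 2 + 1) * RR (k + 2 + 1)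
      omega)
    have hcase2 : (((BB (k + 2) * RR (k + 2) : ℕ) : ℝ)) + H ≤
        ((BB (k + 1 + 2) * RR (k + 1 + 2) : ℕ) : ℝ) := by
      have e1 : ((2 * (BB (k + 2) * RR (k + 2)) : ℕ) : ℝ) ≤
          ((BB (k + 1 + 2) * RR (k + 1 + 2) : ℕ) : ℝ) := by exact_mod_cast htwo
      have e2 : (y : ℝ) ≤ ((BB (k + 2) * RR (k + 2) : ℕ) : ℝ) := by exact_mod_cast hup.le
      rw [Nat.cast_mul 2] at e1
      push_cast at e1 e2 ⊢
      linarith
    obtain ⟨F, hF1, hF2⟩ := local_combin v (k + 1) hv (by omega) (BB (k + 2) * RR (k + 2)) H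
      (le_refl _) hcase2 f1 f2
    refine ⟨F, ?_, le_trans f3 hF2⟩
    intro x hx
    obtain ⟨g1, g2, g3, g4⟩ := hF1 x hx
    refine ⟨g1, by rw [g2, hva], le_trans hup.le g3, ?_⟩
    linarith

theorem DX_good : Good DX := by
  refine ⟨DX_sid, DX_res, ⟨1, le_refl _, ?_⟩, DX_loc⟩
  intro y hy F hF
  exact DX_up y hy F hF

end Pool.Agent.SidonThree
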